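import Mathlib

/-!
# RSC / Crt: products over distinct primes of mean zero periodic functions have mean zero

`crt_mul`: for coprime `m, n`, `φ` periodic modulo `m`, `ψ` periodic modulo `n`:
`∑_{b < m n} φ b ψ b = (∑_{b < m} φ b) (∑_{b < n} ψ b)` (Chinese remainder theorem: `b ↦ (b % m, b % n)` is a bijection from
`range (m n)` onto `range m ×ˢ range n`; a periodic function satisfies `φ (b % m) = φ b`).
`crt_mul2`: the same in two variables, for `φ b b'`, `ψ b b'` periodic in both variables.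
`crt_one`, `crt_two`: remove one prime `p` from `T` (`T = insert p T'`); `p` and `∏ T'` are coprime; the factor of `p`
has sum zero.
-/

namespace Pool.Agent.RSC

open Finset

theorem crt_aux {m n : ℕ} (hm : 0 < m) (hn : 0 < n) (hmn : Nat.Coprime m n) (F : ℕ → ℕ → ℝ) :
    ∑ b ∈ range (m * n), F (b % m) (b % n) = ∑ x ∈ range m, ∑ y ∈ range n, F x y := by
  rw [← Finset.sum_product']
  refine Finset.sum_bij (fun b _ => (b % m, b % n)) ?_ ?_ ?_ ?_
  · intro b _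
    rw [Finset.mem_product]
    exact ⟨Finset.mem_range.mpr (Nat.mod_lt _ hm), Finset.mem_range.mpr (Nat.mod_lt _ hn)⟩
  · intro b hb c hc h
    have h1 : b ≡ c [MOD m] := congrArg Prod.fst h
    have h2 : b ≡ c [MOD n] := congrArg Prod.snd h
    have h3 : b ≡ c [MOD (m * n)] := (Nat.modEq_and_modEq_iff_modEq_mul hmn).mp ⟨h1, h2⟩
    exact Nat.ModEq.eq_of_lt_of_lt h3 (Finset.mem_range.mp hb) (Finset.mem_range.mp hc)
  · rintro ⟨x, y⟩ hxy
    rw [Finset.mem_product] at hxy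
    have hx := Finset.mem_range.mp hxy.1
    have hy := Finset.mem_range.mp hxy.2
    have hk := (Nat.chineseRemainder hmn x y).2
    refine ⟨(Nat.chineseRemainder hmn x y : ℕ), Finset.mem_range.mpr
      (Nat.chineseRemainder_lt_mul hmn x y hm.ne' hn.ne'), ?_⟩
    have h1 : (Nat.chineseRemainder hmn x y : ℕ) % m = x := by
      have := hk.1
      unfold Nat.ModEq at this
      rw [this, Nat.mod_eq_of_lt hx]
    have h2 : (Nat.chineseRemainder hmn x y : ℕ) % n = y := by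
      have := hk.2
      unfold Nat.ModEq at this
      rw [this, Nat.mod_eq_of_lt hy]
    exact Prod.ext h1 h2
  · intro b _
    rfl

theorem crt_modper {m : ℕ} {φ : ℕ → ℝ} (h : ∀ b, φ (b + m) = φ b) (b : ℕ) : φ (b % m) = φ b :=
  Function.Periodic.map_mod_nat h b

theorem crt_mul {m n : ℕ} (hm : 0 < m) (hn : 0 < n) (hmn : Nat.Coprime m n) {φ ψ : ℕ → ℝ}
    (h1 : ∀ b, φ (b + m) = φ b) (h2 : ∀ b, ψ (b + n) = ψ b) :
    ∑ b ∈ range (m * n), φ b * ψ b = (∑ b ∈ range m, φ b) * ∑ b ∈ range n, ψ b := by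
  rw [Finset.sum_mul_sum, ← crt_aux hm hn hmn (fun x y => φ x * ψ y)]
  refine Finset.sum_congr rfl (fun b _ => ?_)
  rw [crt_modper h1, crt_modper h2]

theorem crt_mul2 {m n : ℕ} (hm : 0 < m) (hn : 0 < n) (hmn : Nat.Coprime m n) {φ ψ : ℕ → ℕ → ℝ}
    (h1 : ∀ b b', φ (b + m) b' = φ b b') (h1' : ∀ b b', φ b (b' + m) = φ b b')
    (h2 : ∀ b b', ψ (b + n) b' = ψ b b') (h2' : ∀ b b', ψ b (b' + n) = ψ b b') :
    ∑ b ∈ range (m * n), ∑ b' ∈ range (m * n), φ b b' * ψ b b' =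
      (∑ b ∈ range m, ∑ b' ∈ range m, φ b b') * ∑ b ∈ range n, ∑ b' ∈ range n, ψ b b' := by
  have e1 : ∀ b, ∑ b' ∈ range (m * n), φ b b' * ψ b b'
      = (∑ b' ∈ range m, φ b b') * ∑ b' ∈ range n, ψ b b' := fun b =>
    crt_mul hm hn hmn (h1' b) (h2' b)
  simp_rw [e1]
  refine crt_mul hm hn hmn (φ := fun b => ∑ b' ∈ range m, φ b b')
    (ψ := fun b => ∑ b' ∈ range n, ψ b b') ?_ ?_
  · intro b
    exact Finset.sum_congr rfl (fun b' _ => h1 b b')
  · intro b
    exact Finset.sum_congr rfl (fun b' _ => h2 b b')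

theorem crt_perdvd {p m : ℕ} (hd : p ∣ m) {f : ℕ → ℝ} (h : ∀ b, f (b + p) = f b) (b : ℕ) :
    f (b + m) = f b := by
  obtain ⟨k, rfl⟩ := hd
  have h1 : Function.Periodic f p := h
  have h2 := h1.nat_mul k b
  rw [mul_comm]
  simpa using h2

theorem crt_coprime {T : Finset ℕ} (hT : ∀ p ∈ T, p.Prime) {p : ℕ} (hp : p ∈ T) :
    Nat.Coprime p (∏ q ∈ T.erase p, q) := by
  refine Nat.Coprime.prod_right (fun q hq => ?_)
  have hq' := Finset.mem_erase.mp hq
  exact (Nat.coprime_primes (hT p hp) (hT q hq'.2)).mpr (fun h => hq'.1 h.symm)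

theorem crt_one {T : Finset ℕ} (hT : ∀ p ∈ T, p.Prime) (hne : T.Nonempty) {f : ℕ → ℕ → ℝ}
    (hper : ∀ p ∈ T, ∀ b, f p (b + p) = f p b) (h0 : ∀ p ∈ T, ∑ b ∈ range p, f p b = 0) :
    ∑ b ∈ range (∏ p ∈ T, p), ∏ p ∈ T, f p b = 0 := by
  obtain ⟨p, hp⟩ := hne
  have hprod : ∏ q ∈ T, q = p * ∏ q ∈ T.erase p, q :=
    (Finset.mul_prod_erase T (fun q => q) hp).symm
  have hpos : 0 < ∏ q ∈ T.erase p, q :=
    Finset.prod_pos (fun q hq => (hT q (Finset.mem_of_mem_erase hq)).pos)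
  have e1 : ∀ b, ∏ q ∈ T, f q b = f p b * ∏ q ∈ T.erase p, f q b := fun b =>
    (Finset.mul_prod_erase T (fun q => f q b) hp).symm
  simp_rw [e1]
  rw [hprod, crt_mul (hT p hp).pos hpos (crt_coprime hT hp) (φ := f p)
    (ψ := fun b => ∏ q ∈ T.erase p, f q b) (hper p hp) ?_, h0 p hp, zero_mul]
  intro b
  refine Finset.prod_congr rfl (fun q hq => ?_)
  exact crt_perdvd (Finset.dvd_prod_of_mem (fun q => q) hq) (hper q (Finset.mem_of_mem_erase hq)) b

theorem crt_two {T : Finset ℕ} (hT : ∀ p ∈ T, p.Prime) (hne : T.Nonempty) {f : ℕ → ℕ → ℕ → ℝ}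
    (hper : ∀ p ∈ T, ∀ b b', f p (b + p) b' = f p b b')
    (hper' : ∀ p ∈ T, ∀ b b', f p b (b' + p) = f p b b')
    (h0 : ∀ p ∈ T, ∑ b ∈ range p, ∑ b' ∈ range p, f p b b' = 0) :
    ∑ b ∈ range (∏ p ∈ T, p), ∑ b' ∈ range (∏ p ∈ T, p), ∏ p ∈ T, f p b b' = 0 := by
  obtain ⟨p, hp⟩ := hne
  have hprod : ∏ q ∈ T, q = p * ∏ q ∈ T.erase p, q :=
    (Finset.mul_prod_erase T (fun q => q) hp).symm
  have hpos : 0 < ∏ q ∈ T.erase p, q :=
    Finset.prod_pos (fun q hq => (hT q (Finset.mem_of_mem_erase hq)).pos)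
  have e1 : ∀ b b', ∏ q ∈ T, f q b b' = f p b b' * ∏ q ∈ T.erase p, f q b b' := fun b b' =>
    (Finset.mul_prod_erase T (fun q => f q b b') hp).symm
  simp_rw [e1]
  rw [hprod, crt_mul2 (hT p hp).pos hpos (crt_coprime hT hp) (φ := f p)
    (ψ := fun b b' => ∏ q ∈ T.erase p, f q b b') (hper p hp) (hper' p hp) ?_ ?_, h0 p hp, zero_mul]
  · intro b b'
    refine Finset.prod_congr rfl (fun q hq => ?_)
    exact crt_perdvd (f := fun b => f q b b') (Finset.dvd_prod_of_mem (fun q => q) hq)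
      (fun b => hper q (Finset.mem_of_mem_erase hq) b b') b
  · intro b b'
    refine Finset.prod_congr rfl (fun q hq => ?_)
    exact crt_perdvd (f := fun b' => f q b b') (Finset.dvd_prod_of_mem (fun q => q) hq)
      (fun b' => hper' q (Finset.mem_of_mem_erase hq) b b') b'

/-- a product of periodic functions is periodic modulo the product -/
theorem prod_per {T : Finset ℕ} {f : ℕ → ℕ → ℝ}
    (hper : ∀ p ∈ T, ∀ b, f p (b + p) = f p b) (b : ℕ) :
    ∏ p ∈ T, f p (b + ∏ p ∈ T, p) = ∏ p ∈ T, f p b :=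
  Finset.prod_congr rfl (fun q hq =>
    crt_perdvd (f := f q) (Finset.dvd_prod_of_mem (fun q => q) hq) (hper q hq) b)

end Pool.Agent.RSC
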