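import Pool.Agent.RSC.Blk

/-!
# RSC / Asym: the count in the block `[j^128, (j+1)^128)`

Put `X = j^128`, `l = (j+1)^128 - j^128`, `L = log X = 128 log j`. For `y j = yy (c j)` with `c j → ∞`, `log (c j) / L → 1`
(`c j = 2 X - 1` or `c j = 2^k (j+1)^128`): `th (y j) * L → 1` (`th_yy`), so by `hΦ` (`yy_tendsto`)
`GG k (oddP (y j)) a * L^k = (GG / th^k) (th L)^k → Φ`. `l / j^127 → 128`. The error `(j+1)^126 * L^k / j^127 → 0`
(powers of logarithms). So `SS k (oddP (y j)) a X l * L^k / j^127 → 128 Φ` for both choices, and `blk_up`, `blk_low` give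
the claim.
-/

namespace Pool.Agent.RSC

open Finset Filter

theorem asym_L : Tendsto (fun j : ℕ => Real.log ((j : ℝ) ^ 128)) atTop atTop := by
  refine Real.tendsto_log_atTop.comp ?_
  exact (tendsto_pow_atTop (by norm_num : (128 : ℕ) ≠ 0)).comp tendsto_natCast_atTop_atTop

theorem asym_ratio (c : ℕ → ℕ) (B : ℝ) (hB : 1 ≤ B)
    (h1 : ∀ᶠ j : ℕ in atTop, (j : ℝ) ^ 128 ≤ c j)
    (h2 : ∀ᶠ j : ℕ in atTop, (c j : ℝ) ≤ B * (j : ℝ) ^ 128) :
    Tendsto (fun j : ℕ => Real.log ((j : ℝ) ^ 128) / Real.log (c j)) atTop (nhds 1) := by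
  have hlow : Tendsto (fun j : ℕ => 1 - Real.log B / (Real.log ((j : ℝ) ^ 128) + Real.log B))
      atTop (nhds 1) := by
    have h3 : Tendsto (fun j : ℕ => Real.log ((j : ℝ) ^ 128) + Real.log B) atTop atTop :=
      tendsto_atTop_add_const_right _ _ asym_L
    have h4 : Tendsto (fun j : ℕ => Real.log B / (Real.log ((j : ℝ) ^ 128) + Real.log B))
        atTop (nhds 0) := h3.const_div_atTop _
    simpa using h4.const_sub 1
  refine tendsto_of_tendsto_of_tendsto_of_le_of_le' hlow tendsto_const_nhds ?_ ?_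
  · filter_upwards [h1, h2, asym_L.eventually_gt_atTop 0, eventually_gt_atTop 0]
      with j e1 e2 e3 e4
    have hj : (0 : ℝ) < (j : ℝ) ^ 128 := by
      have : (0 : ℝ) < j := by exact_mod_cast e4
      positivity
    have hc : (0 : ℝ) < c j := lt_of_lt_of_le hj e1
    have l1 : Real.log ((j : ℝ) ^ 128) ≤ Real.log (c j) := Real.log_le_log hj e1
    have l2 : Real.log (c j) ≤ Real.log ((j : ℝ) ^ 128) + Real.log B := by
      have := Real.log_le_log hc e2
      rw [Real.log_mul (by linarith) hj.ne'] at this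
      linarith
    have lB : 0 ≤ Real.log B := Real.log_nonneg hB
    have hp : 0 < Real.log (c j) := lt_of_lt_of_le e3 l1
    have hq : 0 < Real.log ((j : ℝ) ^ 128) + Real.log B := by linarith
    have e5 : 1 - Real.log B / (Real.log ((j : ℝ) ^ 128) + Real.log B)
        = Real.log ((j : ℝ) ^ 128) / (Real.log ((j : ℝ) ^ 128) + Real.log B) := by
      field_simp
      ring
    rw [e5]
    exact div_le_div_of_nonneg_left e3.le hp l2
  · filter_upwards [h1, asym_L.eventually_gt_atTop 0, eventually_gt_atTop 0] with j e1 e3 e4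
    have hj : (0 : ℝ) < (j : ℝ) ^ 128 := by
      have : (0 : ℝ) < j := by exact_mod_cast e4
      positivity
    have l1 : Real.log ((j : ℝ) ^ 128) ≤ Real.log (c j) := Real.log_le_log hj e1
    exact (div_le_one (lt_of_lt_of_le e3 l1)).mpr l1

theorem asym_gen (k : ℕ) (a : ℕ → ℕ) {Φ : ℝ}
    (hΦ : Tendsto (fun y => GG k (oddP y) a / th y ^ k) atTop (nhds Φ))
    (c : ℕ → ℕ) (B : ℝ) (hB : 1 ≤ B)
    (h1 : ∀ᶠ j : ℕ in atTop, (j : ℝ) ^ 128 ≤ c j)
    (h2 : ∀ᶠ j : ℕ in atTop, (c j : ℝ) ≤ B * (j : ℝ) ^ 128) :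
    Tendsto (fun j : ℕ => GG k (oddP (yy (c j))) a * Real.log ((j : ℝ) ^ 128) ^ k) atTop
      (nhds Φ) := by
  have hc : Tendsto c atTop atTop := by
    have h3 : Tendsto (fun j : ℕ => (j : ℝ) ^ 128) atTop atTop :=
      (tendsto_pow_atTop (by norm_num : (128 : ℕ) ≠ 0)).comp tendsto_natCast_atTop_atTop
    have h4 : Tendsto (fun j : ℕ => (c j : ℝ)) atTop atTop := tendsto_atTop_mono' _ h1 h3
    exact tendsto_natCast_atTop_iff.mp h4
  have r := asym_ratio c B hB h1 h2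
  have t1 : Tendsto (fun j => th (yy (c j)) * Real.log (c j)) atTop (nhds 1) :=
    th_yy.comp hc
  have t2 : Tendsto (fun j => GG k (oddP (yy (c j))) a / th (yy (c j)) ^ k) atTop (nhds Φ) :=
    hΦ.comp (yy_tendsto.comp hc)
  have t3 := t2.mul ((t1.mul r).pow k)
  rw [mul_one, one_pow, mul_one] at t3
  refine t3.congr' ?_
  filter_upwards [h1, asym_L.eventually_gt_atTop 0, eventually_gt_atTop 0] with j e1 e3 e4
  have hj : (0 : ℝ) < (j : ℝ) ^ 128 := by
    have : (0 : ℝ) < j := by exact_mod_cast e4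
    positivity
  have l1 : Real.log ((j : ℝ) ^ 128) ≤ Real.log (c j) := Real.log_le_log hj e1
  have hp : Real.log (c j) ≠ 0 := (lt_of_lt_of_le e3 l1).ne'
  have ht : th (yy (c j)) ≠ 0 := (th_pos _).ne'
  have e5 : th (yy (c j)) * Real.log (c j) * (Real.log ((j : ℝ) ^ 128) / Real.log (c j))
      = th (yy (c j)) * Real.log ((j : ℝ) ^ 128) := by
    field_simp
  rw [e5, mul_pow]
  field_simp

theorem asym_len : Tendsto (fun j : ℕ => (((j + 1) ^ 128 - j ^ 128 : ℕ) : ℝ) / (j : ℝ) ^ 127) atTop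
    (nhds 128) := by
  have h1 : HasDerivAt (fun x : ℝ => x ^ 128) (128 * 1 ^ 127) 1 := by
    simpa using hasDerivAt_pow 128 (1 : ℝ)
  rw [hasDerivAt_iff_tendsto_slope_zero] at h1
  have h2 : Tendsto (fun j : ℕ => ((j : ℝ))⁻¹) atTop (nhdsWithin 0 {0}ᶜ) := by
    rw [tendsto_nhdsWithin_iff]
    refine ⟨tendsto_inv_atTop_nhds_zero_nat, ?_⟩
    filter_upwards [eventually_gt_atTop 0] with j hj
    have : (j : ℝ) ≠ 0 := by exact_mod_cast hj.ne'
    exact inv_ne_zero this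
  have h3 := h1.comp h2
  rw [one_pow, one_pow, mul_one] at h3
  refine h3.congr' ?_
  filter_upwards [eventually_gt_atTop 0] with j hj
  have hj0 : (j : ℝ) ≠ 0 := by exact_mod_cast hj.ne'
  have hle : j ^ 128 ≤ (j + 1) ^ 128 := Nat.pow_le_pow_left (Nat.le_succ j) 128
  rw [Nat.cast_sub hle]
  push_cast
  simp only [Function.comp, smul_eq_mul, one_pow, inv_inv]
  have e1 : (1 + (j : ℝ)⁻¹) = ((j : ℝ) + 1) / j := by field_simp
  rw [e1, div_pow]
  have e2 : (j : ℝ) ^ 128 = j ^ 127 * j := pow_succ _ _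
  have e3 : (j : ℝ) ^ 127 ≠ 0 := pow_ne_zero _ hj0
  rw [e2]
  field_simp

theorem asym_err (k : ℕ) : Tendsto (fun j : ℕ => ((j : ℝ) + 1) ^ 126 *
    Real.log ((j : ℝ) ^ 128) ^ k / (j : ℝ) ^ 127) atTop (nhds 0) := by
  have h1 : Tendsto (fun x : ℝ => Real.log x ^ k / x) atTop (nhds 0) := by
    have := Real.isLittleO_pow_log_id_atTop (n := k)
    exact this.tendsto_div_nhds_zero
  have h2 : Tendsto (fun j : ℕ => (2 ^ 126 * 128 ^ k : ℝ) * (Real.log (j : ℝ) ^ k / (j : ℝ))) atTop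
      (nhds 0) := by
    simpa using (h1.comp tendsto_natCast_atTop_atTop).const_mul (2 ^ 126 * 128 ^ k : ℝ)
  refine tendsto_of_tendsto_of_tendsto_of_le_of_le' tendsto_const_nhds h2 ?_ ?_
  · filter_upwards [asym_L.eventually_gt_atTop 0] with j e3
    positivity
  · filter_upwards [asym_L.eventually_gt_atTop 0, eventually_gt_atTop 0] with j e3 e4
    have hj1 : (1 : ℝ) ≤ j := by exact_mod_cast e4
    have hj : (0 : ℝ) < j := by linarith
    have e5 : Real.log ((j : ℝ) ^ 128) = 128 * Real.log j := by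
      rw [Real.log_pow]; norm_num
    have hlog : 0 ≤ Real.log (j : ℝ) := Real.log_nonneg hj1
    have e6 : ((j : ℝ) + 1) ^ 126 ≤ (2 * j) ^ 126 :=
      pow_le_pow_left₀ (by positivity) (by linarith) 126
    have e7 : (j : ℝ) ^ 127 = j ^ 126 * j := pow_succ _ _
    rw [e5, mul_pow, e7]
    have hj126 : (0 : ℝ) < (j : ℝ) ^ 126 := by positivity
    rw [div_le_iff₀ (by positivity)]
    have e8 : (2 ^ 126 * 128 ^ k : ℝ) * (Real.log (j : ℝ) ^ k / (j : ℝ)) * ((j : ℝ) ^ 126 * j)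
        = (2 * (j : ℝ)) ^ 126 * (128 ^ k * Real.log (j : ℝ) ^ k) := by
      rw [mul_pow]
      field_simp
    rw [e8]
    exact mul_le_mul_of_nonneg_right e6 (by positivity)

theorem asym (k : ℕ) (hk : 1 ≤ k) (a : ℕ → ℕ) (ha : ∀ p, p.Prime → a p < p) {Φ : ℝ}
    (hΦ : Tendsto (fun y => GG k (oddP y) a / th y ^ k) atTop (nhds Φ))
    (h1 : ∀ᶠ j : ℕ in atTop,
      |SS k (oddP (yy (2 * j ^ 128 - 1))) a (j ^ 128) ((j + 1) ^ 128 - j ^ 128) -
        (((j + 1) ^ 128 - j ^ 128 : ℕ) : ℝ) * GG k (oddP (yy (2 * j ^ 128 - 1))) a| ≤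
        ((j : ℝ) + 1) ^ 126)
    (h2 : ∀ᶠ j : ℕ in atTop,
      |SS k (oddP (yy (2 ^ k * (j + 1) ^ 128))) a (j ^ 128) ((j + 1) ^ 128 - j ^ 128) -
        (((j + 1) ^ 128 - j ^ 128 : ℕ) : ℝ) * GG k (oddP (yy (2 ^ k * (j + 1) ^ 128))) a| ≤
        ((j : ℝ) + 1) ^ 126) :
    Tendsto (fun j : ℕ => (cnt k a (j ^ 128) ((j + 1) ^ 128 - j ^ 128) : ℝ) *
      Real.log ((j : ℝ) ^ 128) ^ k / (j : ℝ) ^ 127) atTop (nhds (128 * Φ)) := by
  set L : ℕ → ℝ := fun j => Real.log ((j : ℝ) ^ 128) with hL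
  have hLe : ∀ j : ℕ, L j = Real.log ((j : ℝ) ^ 128) := fun j => rfl
  -- the two sequences
  have g1 := asym_gen k a hΦ (fun j => 2 * j ^ 128 - 1) 2 (by norm_num) (by
    filter_upwards [eventually_gt_atTop 0] with j hj
    have h3 : j ^ 128 ≤ 2 * j ^ 128 - 1 := by
      have : 1 ≤ j ^ 128 := Nat.one_le_pow _ _ hj
      omega
    exact_mod_cast h3) (by
    filter_upwards with j
    have h3 : 2 * j ^ 128 - 1 ≤ 2 * j ^ 128 := Nat.sub_le _ _
    exact_mod_cast h3)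
  have g2 := asym_gen k a hΦ (fun j => 2 ^ k * (j + 1) ^ 128) (2 ^ (k + 128)) (by
    exact one_le_pow₀ (by norm_num)) (by
    filter_upwards with j
    have h3 : j ^ 128 ≤ 2 ^ k * (j + 1) ^ 128 :=
      calc j ^ 128 ≤ (j + 1) ^ 128 := Nat.pow_le_pow_left (Nat.le_succ j) 128
        _ ≤ 2 ^ k * (j + 1) ^ 128 := Nat.le_mul_of_pos_left _ (by positivity)
    exact_mod_cast h3) (by
    filter_upwards [eventually_gt_atTop 0] with j hj
    have h3 : 2 ^ k * (j + 1) ^ 128 ≤ 2 ^ (k + 128) * j ^ 128 :=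
      calc 2 ^ k * (j + 1) ^ 128 ≤ 2 ^ k * (2 * j) ^ 128 :=
            Nat.mul_le_mul_left _ (Nat.pow_le_pow_left (by omega) 128)
        _ = 2 ^ (k + 128) * j ^ 128 := by rw [mul_pow, pow_add]; ring
    exact_mod_cast h3)
  have hup : Tendsto (fun j : ℕ => (((j + 1) ^ 128 - j ^ 128 : ℕ) : ℝ) / (j : ℝ) ^ 127 *
      (GG k (oddP (yy (2 * j ^ 128 - 1))) a * L j ^ k) +
      ((j : ℝ) + 1) ^ 126 * L j ^ k / (j : ℝ) ^ 127) atTop (nhds (128 * Φ)) := by
    have := (asym_len.mul g1).add (asym_err k)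
    rw [add_zero] at this
    exact this
  have hlo : Tendsto (fun j : ℕ => (((j + 1) ^ 128 - j ^ 128 : ℕ) : ℝ) / (j : ℝ) ^ 127 *
      (GG k (oddP (yy (2 ^ k * (j + 1) ^ 128))) a * L j ^ k) -
      ((j : ℝ) + 1) ^ 126 * L j ^ k / (j : ℝ) ^ 127) atTop (nhds (128 * Φ)) := by
    have := (asym_len.mul g2).sub (asym_err k)
    rw [sub_zero] at this
    exact this
  refine tendsto_of_tendsto_of_tendsto_of_le_of_le' hlo hup ?_ ?_
  · filter_upwards [h2, asym_L.eventually_gt_atTop 0, eventually_ge_atTop 2] with j e2 e3 e4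
    have hj : (0 : ℝ) < (j : ℝ) := by
      have : 0 < j := by omega
      exact_mod_cast this
    have hM : 2 ≤ j ^ 128 := e4.trans (Nat.le_self_pow (by norm_num) j)
    have hle : j ^ 128 ≤ (j + 1) ^ 128 := Nat.pow_le_pow_left (Nat.le_succ j) 128
    have hML : j ^ 128 + ((j + 1) ^ 128 - j ^ 128) = (j + 1) ^ 128 := Nat.add_sub_cancel' hle
    have hb := blk_low (k := k) ha (M := j ^ 128) (l := (j + 1) ^ 128 - j ^ 128)
      (y := yy (2 ^ k * (j + 1) ^ 128)) hM hk (by rw [hML])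
    have h5 := (abs_le.mp e2).1
    have hc : (((j + 1) ^ 128 - j ^ 128 : ℕ) : ℝ) * GG k (oddP (yy (2 ^ k * (j + 1) ^ 128))) a
        - ((j : ℝ) + 1) ^ 126 ≤ (cnt k a (j ^ 128) ((j + 1) ^ 128 - j ^ 128) : ℝ) := by linarith
    have hLp : 0 ≤ L j ^ k := pow_nonneg e3.le k
    have hmul := mul_le_mul_of_nonneg_right hc hLp
    have hj127 : (0 : ℝ) < (j : ℝ) ^ 127 := by positivity
    have hdiv := div_le_div_of_nonneg_right hmul hj127.le
    refine (le_of_eq ?_).trans hdiv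
    rw [sub_mul, sub_div]
    congr 1
    rw [div_mul_eq_mul_div, mul_assoc]
  · filter_upwards [h1, asym_L.eventually_gt_atTop 0, eventually_ge_atTop 2] with j e2 e3 e4
    have hj : (0 : ℝ) < (j : ℝ) := by
      have : 0 < j := by omega
      exact_mod_cast this
    have hM : 2 ≤ j ^ 128 := e4.trans (Nat.le_self_pow (by norm_num) j)
    have hb := blk_up (k := k) ha (M := j ^ 128) (l := (j + 1) ^ 128 - j ^ 128)
      (y := yy (2 * j ^ 128 - 1)) hM hk le_rfl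
    have h5 := (abs_le.mp e2).2
    have hc : (cnt k a (j ^ 128) ((j + 1) ^ 128 - j ^ 128) : ℝ) ≤
        (((j + 1) ^ 128 - j ^ 128 : ℕ) : ℝ) * GG k (oddP (yy (2 * j ^ 128 - 1))) a
        + ((j : ℝ) + 1) ^ 126 := by linarith
    have hLp : 0 ≤ L j ^ k := pow_nonneg e3.le k
    have hmul := mul_le_mul_of_nonneg_right hc hLp
    have hj127 : (0 : ℝ) < (j : ℝ) ^ 127 := by positivity
    have hdiv := div_le_div_of_nonneg_right hmul hj127.le
    refine hdiv.trans (le_of_eq ?_)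
    rw [add_mul, add_div]
    congr 1
    rw [div_mul_eq_mul_div, mul_assoc]

end Pool.Agent.RSC
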