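import Pool.Agent.RSC.Prob

/-!
# RSC / BC: Borel-Cantelli for the blocks `[j^128, (j+1)^128)`

Let `X = (j+1)^128`, `P = oddP (y j)`, `M = j^128`, `l = (j+1)^128 - j^128`, so `M + l = X` and for `j ≥ 1` `M ≥ 1`. By
`var_bound`, `second_moment` the expectation of the square is at most `C X^(31/16) = C (j+1)^248`. By Markov (Chebyshev)
`μ {|SS - l GG| > (j+1)^126} ≤ C (j+1)^248 / (j+1)^252 = C (j+1)^(-4)`, summable. Borel-Cantelli:
`MeasureTheory.measure_limsup_atTop_eq_zero` / `ae_eventually_notMem`.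
-/

namespace Pool.Agent.RSC

open Finset MeasureTheory ProbabilityTheory Filter

variable {Ω : Type*} [MeasurableSpace Ω] {μ : Measure Ω} [IsProbabilityMeasure μ] {a : ℕ → Ω → ℕ}

private theorem BC_block (h : Unif μ a) (k : ℕ) (y : ℕ → ℕ) {C : ℝ} (hC1 : 1 ≤ C)
    (hC : ∀ P : Finset ℕ, (∀ p ∈ P, p.Prime ∧ p ≠ 2) → ∀ (X : ℝ) (M l : ℕ), 1 ≤ M →
      ((M + l : ℕ) : ℝ) ≤ X → QQ k P M l ≤ C * X ^ (31 / 16 : ℝ)) (j : ℕ) :
    μ {ω | ¬ |SS k (oddP (y j)) (fun p => a p ω) (j ^ 128) ((j + 1) ^ 128 - j ^ 128) -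
        (((j + 1) ^ 128 - j ^ 128 : ℕ) : ℝ) * GG k (oddP (y j)) (fun p => a p ω)| ≤
        ((j : ℝ) + 1) ^ 126} ≤ ENNReal.ofReal (C * (1 / ((j : ℝ) + 1) ^ 2)) := by
  rcases Nat.eq_zero_or_pos j with hj | hj
  · subst hj
    refine prob_le_one.trans ?_
    rw [← ENNReal.ofReal_one]
    apply ENNReal.ofReal_le_ofReal
    simpa using hC1
  have hP : ∀ p ∈ oddP (y j), p.Prime ∧ p ≠ 2 := by
    intro p hp
    exact (mem_filter.1 hp).2
  have hP' : ∀ p ∈ oddP (y j), p.Prime := fun p hp => (hP p hp).1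
  have hM : 1 ≤ j ^ 128 := Nat.one_le_pow _ _ hj
  have hle : j ^ 128 ≤ (j + 1) ^ 128 := Nat.pow_le_pow_left (Nat.le_succ j) 128
  have hX : ((j ^ 128 + ((j + 1) ^ 128 - j ^ 128) : ℕ) : ℝ) ≤ ((j : ℝ) + 1) ^ 128 := by
    rw [Nat.add_sub_cancel' hle]
    push_cast
    exact le_rfl
  have hQ := hC (oddP (y j)) hP (((j : ℝ) + 1) ^ 128) _ _ hM hX
  have hpow : (((j : ℝ) + 1) ^ 128) ^ (31 / 16 : ℝ) = ((j : ℝ) + 1) ^ 248 := by
    have h0 : (0 : ℝ) ≤ (j : ℝ) + 1 := by positivity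
    rw [← Real.rpow_natCast, ← Real.rpow_natCast, ← Real.rpow_mul h0]
    norm_num
  rw [hpow] at hQ
  have hint := integrable_sq h k (oddP (y j)) hP' (j ^ 128) ((j + 1) ^ 128 - j ^ 128)
  have hmom := second_moment h k (oddP (y j)) hP' (j ^ 128) ((j + 1) ^ 128 - j ^ 128)
  have hmark := mul_meas_ge_le_integral_of_nonneg (Eventually.of_forall fun ω => sq_nonneg
    (SS k (oddP (y j)) (fun p => a p ω) (j ^ 128) ((j + 1) ^ 128 - j ^ 128) -
        (((j + 1) ^ 128 - j ^ 128 : ℕ) : ℝ) * GG k (oddP (y j)) (fun p => a p ω))) hint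
    (((j : ℝ) + 1) ^ 252)
  rw [hmom] at hmark
  have hpos : (0 : ℝ) < ((j : ℝ) + 1) ^ 252 := by positivity
  have hreal : μ.real {ω | ((j : ℝ) + 1) ^ 252 ≤
      (SS k (oddP (y j)) (fun p => a p ω) (j ^ 128) ((j + 1) ^ 128 - j ^ 128) -
        (((j + 1) ^ 128 - j ^ 128 : ℕ) : ℝ) * GG k (oddP (y j)) (fun p => a p ω)) ^ 2} ≤
      C * (1 / ((j : ℝ) + 1) ^ 2) := by
    have h1 : C * (1 / ((j : ℝ) + 1) ^ 2) = C * ((j : ℝ) + 1) ^ 250 / ((j : ℝ) + 1) ^ 252 := by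
      rw [show (252 : ℕ) = 250 + 2 by norm_num, pow_add]
      field_simp
    rw [h1, le_div_iff₀ hpos, mul_comm]
    refine hmark.trans (hQ.trans ?_)
    apply mul_le_mul_of_nonneg_left _ (by linarith)
    apply pow_le_pow_right₀ _ (by norm_num)
    have : (0 : ℝ) ≤ j := Nat.cast_nonneg j
    linarith
  calc μ {ω | ¬ |SS k (oddP (y j)) (fun p => a p ω) (j ^ 128) ((j + 1) ^ 128 - j ^ 128) -
        (((j + 1) ^ 128 - j ^ 128 : ℕ) : ℝ) * GG k (oddP (y j)) (fun p => a p ω)| ≤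
        ((j : ℝ) + 1) ^ 126}
      ≤ μ {ω | ((j : ℝ) + 1) ^ 252 ≤
      (SS k (oddP (y j)) (fun p => a p ω) (j ^ 128) ((j + 1) ^ 128 - j ^ 128) -
        (((j + 1) ^ 128 - j ^ 128 : ℕ) : ℝ) * GG k (oddP (y j)) (fun p => a p ω)) ^ 2} := by
        apply measure_mono
        intro ω hω
        have h2 := not_le.1 hω
        have h3 : (((j : ℝ) + 1) ^ 126) ^ 2 ≤
            |SS k (oddP (y j)) (fun p => a p ω) (j ^ 128) ((j + 1) ^ 128 - j ^ 128) -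
            (((j + 1) ^ 128 - j ^ 128 : ℕ) : ℝ) * GG k (oddP (y j)) (fun p => a p ω)| ^ 2 :=
          pow_le_pow_left₀ (by positivity) h2.le 2
        rw [sq_abs, ← pow_mul] at h3
        exact h3
    _ = ENNReal.ofReal (μ.real {ω | ((j : ℝ) + 1) ^ 252 ≤
      (SS k (oddP (y j)) (fun p => a p ω) (j ^ 128) ((j + 1) ^ 128 - j ^ 128) -
        (((j + 1) ^ 128 - j ^ 128 : ℕ) : ℝ) * GG k (oddP (y j)) (fun p => a p ω)) ^ 2}) :=
        (ofReal_measureReal).symm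
    _ ≤ ENNReal.ofReal (C * (1 / ((j : ℝ) + 1) ^ 2)) := ENNReal.ofReal_le_ofReal hreal

theorem bc (h : Unif μ a) (k : ℕ) (hk : 1 ≤ k) (y : ℕ → ℕ) :
    ∀ᵐ ω ∂μ, ∀ᶠ j : ℕ in atTop,
      |SS k (oddP (y j)) (fun p => a p ω) (j ^ 128) ((j + 1) ^ 128 - j ^ 128) -
        (((j + 1) ^ 128 - j ^ 128 : ℕ) : ℝ) * GG k (oddP (y j)) (fun p => a p ω)| ≤
        ((j : ℝ) + 1) ^ 126 := by
  obtain ⟨C, hC1, hC⟩ := var_bound k hk
  have hsum : Summable fun j : ℕ => C * (1 / ((j : ℝ) + 1) ^ 2) := by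
    have h1 : Summable fun n : ℕ => 1 / (n : ℝ) ^ 2 :=
      Real.summable_one_div_nat_pow.2 (by norm_num)
    have h2 := (summable_nat_add_iff 1).2 h1
    push_cast at h2
    exact h2.mul_left C
  have hfin : ∑' j : ℕ, μ {ω | ¬ |SS k (oddP (y j)) (fun p => a p ω) (j ^ 128)
        ((j + 1) ^ 128 - j ^ 128) -
        (((j + 1) ^ 128 - j ^ 128 : ℕ) : ℝ) * GG k (oddP (y j)) (fun p => a p ω)| ≤
        ((j : ℝ) + 1) ^ 126} ≠ ⊤ :=
    ne_top_of_le_ne_top hsum.tsum_ofReal_ne_top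
      (ENNReal.tsum_le_tsum fun j => BC_block h k y hC1 hC j)
  filter_upwards [ae_eventually_notMem hfin] with ω hω
  filter_upwards [hω] with j hj
  by_contra hcon
  exact hj hcon

end Pool.Agent.RSC
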