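import Pool.Agent.RSC.Core

/-!
# RSC / Thr: the thresholds

* `th_tendsto`: `log (th y) = ∑_{q ≤ y} log (1 - 1/q) ≤ - ∑_{q ≤ y} 1/q → -∞` (`Nat.Primes.not_summable_one_div` or
  `not_summable_one_div_on_primes`).
* `yy m`: least `y` with `log m * th (y + 1) < 1`. For `m ≥ 3`: `log m > 1 = th 0`.
* `th_yy`: for `m ≥ 3`, `1 ≤ log m * th (yy m)` and `log m * th (yy m + 1) < 1`, where
  `th (yy m + 1) ≥ (1 - 1/(yy m + 1)) th (yy m)`; `yy m → ∞`, because `log m * th (y + 1) ≥ 1` for all large `m`, for every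
  fixed `y` (`th_pos`).
-/

namespace Pool.Agent.RSC

open Finset Filter

theorem th_zero : th 0 = 1 := by
  unfold th
  rw [show (range (0 + 1)).filter Nat.Prime = ∅ from by decide, prod_empty]

private theorem thr_succ (y : ℕ) :
    th (y + 1) = if (y + 1).Prime then (1 - 1 / ((y : ℝ) + 1)) * th y else th y := by
  unfold th
  rw [range_add_one, filter_insert]
  by_cases h : (y + 1).Prime
  · rw [if_pos h, if_pos h, prod_insert]
    · push_cast
      rfl
    · rw [mem_filter, mem_range]
      omega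
  · rw [if_neg h, if_neg h]

private theorem thr_factor_pos (y : ℕ) (hy : 1 ≤ y) : 0 < 1 - 1 / ((y : ℝ) + 1) := by
  have h : (1 : ℝ) ≤ y := by exact_mod_cast hy
  rw [sub_pos, div_lt_one (by linarith)]
  linarith

private theorem thr_factor_le (y : ℕ) : 1 - 1 / ((y : ℝ) + 1) ≤ 1 := by
  have : 0 ≤ 1 / ((y : ℝ) + 1) := by positivity
  linarith

theorem th_pos (y : ℕ) : 0 < th y := by
  unfold th
  apply prod_pos
  intro q hq
  rw [mem_filter] at hq
  have h2 : (2 : ℝ) ≤ q := by exact_mod_cast hq.2.two_le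
  rw [sub_pos, div_lt_one (by linarith)]
  linarith

theorem th_anti : Antitone th := by
  apply antitone_nat_of_succ_le
  intro y
  rw [thr_succ]
  split_ifs with h
  · have h1 := thr_factor_le y
    have h2 := th_pos y
    nlinarith
  · exact le_rfl

theorem th_succ_ge (y : ℕ) (hy : 1 ≤ y) : (1 - 1 / ((y : ℝ) + 1)) * th y ≤ th (y + 1) := by
  rw [thr_succ]
  split_ifs with h
  · exact le_rfl
  · have h1 := thr_factor_le y
    have h2 := th_pos y
    nlinarith

theorem th_tendsto : Tendsto th atTop (nhds 0) := by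
  have h1 : ∀ y : ℕ, th y ≤ Real.exp (-(∑ i ∈ range (y + 1),
      Set.indicator {p : ℕ | p.Prime} (fun n : ℕ => (1 : ℝ) / n) i)) := by
    intro y
    have e : ∑ i ∈ range (y + 1),
        Set.indicator {p : ℕ | p.Prime} (fun n : ℕ => (1 : ℝ) / n) i =
        ∑ q ∈ (range (y + 1)).filter Nat.Prime, (1 : ℝ) / q := by
      rw [sum_filter]
      apply sum_congr rfl
      intro i _
      by_cases hi : i.Prime
      · rw [if_pos hi, Set.indicator_of_mem (show i ∈ {p : ℕ | p.Prime} from hi)]
      · rw [if_neg hi, Set.indicator_of_notMem (show i ∉ {p : ℕ | p.Prime} from hi)]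
    rw [e, ← sum_neg_distrib, Real.exp_sum]
    unfold th
    apply Finset.prod_le_prod
    · intro q hq
      rw [mem_filter] at hq
      have h2 : (2 : ℝ) ≤ q := by exact_mod_cast hq.2.two_le
      rw [sub_nonneg, div_le_one (by linarith)]
      linarith
    · intro q _
      exact Real.one_sub_le_exp_neg _
  have h2 : Tendsto (fun y : ℕ => ∑ i ∈ range (y + 1),
      Set.indicator {p : ℕ | p.Prime} (fun n : ℕ => (1 : ℝ) / n) i) atTop atTop := by
    have h3 := (not_summable_iff_tendsto_nat_atTop_of_nonneg (fun n : ℕ => by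
      apply Set.indicator_nonneg
      intro i _
      positivity)).1 not_summable_one_div_on_primes
    exact h3.comp (tendsto_add_atTop_nat 1)
  have h4 : Tendsto (fun y : ℕ => Real.exp (-(∑ i ∈ range (y + 1),
      Set.indicator {p : ℕ | p.Prime} (fun n : ℕ => (1 : ℝ) / n) i))) atTop (nhds 0) :=
    Real.tendsto_exp_neg_atTop_nhds_zero.comp h2
  exact squeeze_zero (fun y => (th_pos y).le) h1 h4

open Classical in
/-- the active primes for `m` are the primes `≤ yy m` -/
noncomputable def yy (m : ℕ) : ℕ :=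
  if h : ∃ y : ℕ, Real.log m * th (y + 1) < 1 then Nat.find h else 0

private theorem thr_ex (m : ℕ) : ∃ y : ℕ, Real.log m * th (y + 1) < 1 := by
  have h1 : Tendsto (fun y : ℕ => Real.log m * th (y + 1)) atTop (nhds (Real.log m * 0)) :=
    (th_tendsto.comp (tendsto_add_atTop_nat 1)).const_mul _
  rw [mul_zero] at h1
  exact (h1.eventually (gt_mem_nhds one_pos)).exists

private theorem thr_log {m : ℕ} (hm : 3 ≤ m) : 1 < Real.log m := by
  have h3 : (3 : ℝ) ≤ m := by exact_mod_cast hm
  rw [Real.lt_log_iff_exp_lt (by linarith)]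
  have := Real.exp_one_lt_d9
  linarith

private theorem thr_yy_lt (m : ℕ) : Real.log m * th (yy m + 1) < 1 := by
  classical
  have h := thr_ex m
  have e : yy m = Nat.find h := by
    unfold yy
    rw [dif_pos h]
  rw [e]
  exact Nat.find_spec h

private theorem thr_lt_yy (m y : ℕ) (hy : y < yy m) : 1 ≤ Real.log m * th (y + 1) := by
  classical
  have h := thr_ex m
  have e : yy m = Nat.find h := by
    unfold yy
    rw [dif_pos h]
  rw [e] at hy
  exact not_lt.1 (Nat.find_min h hy)

theorem act_iff {m p : ℕ} (hm : 3 ≤ m) : 1 ≤ Real.log m * th p ↔ p ≤ yy m := by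
  have hlog := thr_log hm
  constructor
  · intro h
    by_contra hp
    rw [not_le] at hp
    have h1 : th p ≤ th (yy m + 1) := th_anti hp
    have h2 := thr_yy_lt m
    have h3 : Real.log m * th p ≤ Real.log m * th (yy m + 1) :=
      mul_le_mul_of_nonneg_left h1 (by linarith)
    linarith
  · intro h
    cases p with
    | zero =>
      rw [th_zero]
      linarith
    | succ p => exact thr_lt_yy m p h

theorem yy_mono {m n : ℕ} (hm : 3 ≤ m) (hmn : m ≤ n) : yy m ≤ yy n := by
  rw [← act_iff (hm.trans hmn)]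
  have h1 : 1 ≤ Real.log m * th (yy m) := (act_iff hm).2 le_rfl
  have h2 : Real.log m ≤ Real.log n := by
    apply Real.log_le_log
    · have : (3 : ℝ) ≤ m := by exact_mod_cast hm
      linarith
    · exact_mod_cast hmn
  exact h1.trans (mul_le_mul_of_nonneg_right h2 (th_pos _).le)

private theorem thr_log_tendsto : Tendsto (fun m : ℕ => Real.log m) atTop atTop :=
  Real.tendsto_log_atTop.comp tendsto_natCast_atTop_atTop

theorem yy_tendsto : Tendsto yy atTop atTop := by
  rw [tendsto_atTop]
  intro b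
  have h1 : ∀ᶠ m : ℕ in atTop, 1 / th b ≤ Real.log m :=
    thr_log_tendsto.eventually_ge_atTop _
  filter_upwards [h1, eventually_ge_atTop 3] with m hm h3
  rw [← act_iff h3]
  rw [div_le_iff₀ (th_pos b)] at hm
  exact hm

theorem th_yy : Tendsto (fun m : ℕ => th (yy m) * Real.log m) atTop (nhds 1) := by
  have hup : Tendsto (fun m : ℕ => 1 + 1 / (yy m : ℝ)) atTop (nhds 1) := by
    have h1 : Tendsto (fun m : ℕ => (yy m : ℝ)) atTop atTop :=
      tendsto_natCast_atTop_atTop.comp yy_tendsto
    have h2 : Tendsto (fun m : ℕ => 1 / (yy m : ℝ)) atTop (nhds 0) := by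
      simp only [one_div]
      exact tendsto_inv_atTop_zero.comp h1
    simpa using h2.const_add 1
  refine tendsto_of_tendsto_of_tendsto_of_le_of_le' tendsto_const_nhds hup ?_ ?_
  · filter_upwards [eventually_ge_atTop 3] with m hm
    have := (act_iff hm).2 (le_refl (yy m))
    rw [mul_comm]
    exact this
  · filter_upwards [eventually_ge_atTop 3, yy_tendsto.eventually_ge_atTop 1] with m hm hy
    have hlog := thr_log hm
    have h1 := thr_yy_lt m
    have h2 := th_succ_ge (yy m) hy
    have hyr : (1 : ℝ) ≤ (yy m : ℝ) := by exact_mod_cast hy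
    have h3 : Real.log m * ((1 - 1 / ((yy m : ℝ) + 1)) * th (yy m)) ≤ 1 :=
      (mul_le_mul_of_nonneg_left h2 (by linarith)).trans h1.le
    have e1 : 1 - 1 / ((yy m : ℝ) + 1) = (yy m : ℝ) / ((yy m : ℝ) + 1) := by
      field_simp
      ring
    have e2 : 1 + 1 / (yy m : ℝ) = ((yy m : ℝ) + 1) / (yy m : ℝ) := by
      field_simp
    rw [e1] at h3
    rw [e2, le_div_iff₀ (by linarith)]
    have h4 : Real.log m * ((yy m : ℝ) / ((yy m : ℝ) + 1) * th (yy m)) * ((yy m : ℝ) + 1) ≤
        1 * ((yy m : ℝ) + 1) := mul_le_mul_of_nonneg_right h3 (by linarith)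
    have e3 : Real.log m * ((yy m : ℝ) / ((yy m : ℝ) + 1) * th (yy m)) * ((yy m : ℝ) + 1) =
        th (yy m) * Real.log m * (yy m : ℝ) := by
      field_simp
    rw [e3, one_mul] at h4
    exact h4

end Pool.Agent.RSC
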