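import Pool.Agent.RSC.LocA
import Pool.Agent.RSC.Thr

/-!
# RSC / Blk: the count in a block lies between two sifting functions

For `b ≥ M ≥ 2` and `i ∈ [1, k]` the number `m = 2^i b - 1` is odd, `2 M - 1 ≤ m ≤ 2^k (M + l)`, `m ≥ 3`, and the active
primes for `m` are the primes `≤ yy m` (`act_iff`), `yy (2 M - 1) ≤ yy m ≤ yy (2^k (M + l))` (`yy_mono`). For `a p < p`:
`m % p = a p` iff `2^i b ≡ a p + 1 [MOD p]`. So for `y ≤ yy (2 M - 1)`: if all `2^i b - 1` lie in `RS a` then all factors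
`W k p (a p) b`, `p ∈ oddP y`, are `1`. Conversely, for `yy (2^k (M + l)) ≤ y`: if all these factors are `1` then all
`2^i b - 1` lie in `RS a`. A product of factors `0, 1` is `0` or `1`.
-/

namespace Pool.Agent.RSC

open Finset

open Classical in
/-- number of chains of length at least `k` in the block -/
noncomputable def cnt (k : ℕ) (a : ℕ → ℕ) (M l : ℕ) : ℕ :=
  ((Ico M (M + l)).filter (fun b => ∀ i ∈ Icc 1 k, 2 ^ i * b - 1 ∈ RS a)).card

open Classical in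
private theorem Blk_cnt (k : ℕ) (a : ℕ → ℕ) (M l : ℕ) : (cnt k a M l : ℝ) =
    ∑ b ∈ Ico M (M + l), if (∀ i ∈ Icc 1 k, 2 ^ i * b - 1 ∈ RS a) then (1 : ℝ) else 0 := by
  unfold cnt
  rw [← Finset.sum_filter, Finset.sum_const, nsmul_eq_mul, mul_one]

private theorem Blk_mod {p c r : ℕ} (hr : r < p) (hc : 1 ≤ c) :
    (c - 1) % p = r ↔ c ≡ r + 1 [MOD p] := by
  constructor
  · intro h
    have h1 : c - 1 ≡ r [MOD p] := by
      unfold Nat.ModEq
      rw [h, Nat.mod_eq_of_lt hr]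
    have h2 := h1.add_right 1
    rwa [Nat.sub_add_cancel hc] at h2
  · intro h
    have h1 : (c - 1) + 1 ≡ r + 1 [MOD p] := by rwa [Nat.sub_add_cancel hc]
    have h2 : c - 1 ≡ r [MOD p] := Nat.ModEq.add_right_cancel' 1 h1
    unfold Nat.ModEq at h2
    rwa [Nat.mod_eq_of_lt hr] at h2

private theorem Blk_bd {M b i : ℕ} (hM : 2 ≤ M) (hb : M ≤ b) (hi : 1 ≤ i) :
    2 * M - 1 ≤ 2 ^ i * b - 1 := by
  have h1 : 2 ≤ 2 ^ i := by
    calc 2 = 2 ^ 1 := by norm_num
      _ ≤ 2 ^ i := Nat.pow_le_pow_right (by norm_num) hi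
  have h2 : 2 * M ≤ 2 ^ i * b := Nat.mul_le_mul h1 hb
  omega

theorem blk_up {k : ℕ} {a : ℕ → ℕ} (ha : ∀ p, p.Prime → a p < p) {M l y : ℕ} (hM : 2 ≤ M)
    (hk : 1 ≤ k) (hy : y ≤ yy (2 * M - 1)) : (cnt k a M l : ℝ) ≤ SS k (oddP y) a M l := by
  classical
  rw [Blk_cnt]
  unfold SS
  refine Finset.sum_le_sum fun b hb => ?_
  rw [Finset.mem_Ico] at hb
  split_ifs with h
  · refine le_of_eq ?_
    symm
    refine Finset.prod_eq_one fun p hp => ?_
    unfold oddP at hp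
    rw [Finset.mem_filter, Finset.mem_range] at hp
    obtain ⟨hp1, hp2, hp3⟩ := hp
    unfold W
    rw [if_pos]
    intro i hi hc
    rw [Finset.mem_Icc] at hi
    have hbd := Blk_bd hM hb.1 hi.1
    have h3 : 3 ≤ 2 * M - 1 := by omega
    have hmem := h i (Finset.mem_Icc.2 hi)
    refine hmem.2 p hp2 hp3 ?_ ?_
    · rw [act_iff (le_trans h3 hbd)]
      calc p ≤ y := by omega
        _ ≤ yy (2 * M - 1) := hy
        _ ≤ _ := yy_mono h3 hbd
    · rw [Blk_mod (ha p hp2) (by omega)]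
      exact hc
  · exact Finset.prod_nonneg fun p _ => W_nonneg _ _ _ _

theorem blk_low {k : ℕ} {a : ℕ → ℕ} (ha : ∀ p, p.Prime → a p < p) {M l y : ℕ} (hM : 2 ≤ M)
    (hk : 1 ≤ k) (hy : yy (2 ^ k * (M + l)) ≤ y) : SS k (oddP y) a M l ≤ (cnt k a M l : ℝ) := by
  classical
  rw [Blk_cnt]
  unfold SS
  refine Finset.sum_le_sum fun b hb => ?_
  rw [Finset.mem_Ico] at hb
  split_ifs with h
  · exact Finset.prod_le_one (fun p _ => W_nonneg _ _ _ _) (fun p _ => W_le_one _ _ _ _)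
  · refine le_of_eq ?_
    push Not at h
    obtain ⟨i, hi, hni⟩ := h
    rw [Finset.mem_Icc] at hi
    have hbd := Blk_bd hM hb.1 hi.1
    have h3 : 3 ≤ 2 * M - 1 := by omega
    have hodd : (2 ^ i * b - 1) % 2 = 1 := by
      have : 2 ^ i * b = 2 * (2 ^ (i - 1) * b) := by
        rw [← mul_assoc, ← pow_succ', Nat.sub_add_cancel hi.1]
      omega
    have hex : ∃ p : ℕ, p.Prime ∧ p ≠ 2 ∧ 1 ≤ Real.log ((2 ^ i * b - 1 : ℕ) : ℝ) * th p ∧
        (2 ^ i * b - 1) % p = a p := by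
      by_contra hcon
      apply hni
      refine ⟨hodd, fun p hp hp2 hact heq => hcon ⟨p, hp, hp2, hact, heq⟩⟩
    obtain ⟨p, hp, hp2, hact, heq⟩ := hex
    have hle : 2 ^ i * b - 1 ≤ 2 ^ k * (M + l) := by
      have h1 : 2 ^ i ≤ 2 ^ k := Nat.pow_le_pow_right (by norm_num) hi.2
      have h2 : 2 ^ i * b ≤ 2 ^ k * (M + l) := Nat.mul_le_mul h1 hb.2.le
      omega
    have hpy : p ≤ y := by
      rw [act_iff (le_trans h3 hbd)] at hact
      exact le_trans hact (le_trans (yy_mono (le_trans h3 hbd) hle) hy)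
    refine Finset.prod_eq_zero (i := p) ?_ ?_
    · unfold oddP
      rw [Finset.mem_filter, Finset.mem_range]
      exact ⟨by omega, hp, hp2⟩
    · unfold W
      rw [if_neg]
      intro hall
      refine hall i (Finset.mem_Icc.2 hi) ?_
      exact (Blk_mod (ha p hp) (by omega)).1 heq

end Pool.Agent.RSC
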