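import Mathlib

/-!
# RSC / Core: Cunningham chains in the random sieve model (MP_77cbc6, helper45)

Definitions used in all modules of the folder.

Model (Banks, Ford, Tao): `a p` is a random residue class modulo `p`, uniform and independent for the
odd primes `p`; the even numbers are removed; the number `n` survives if `n % p ≠ a p` for all odd primes
`p` which are active for `n`: `1 ≤ log n * th p` with `th p = ∏_{q ≤ p} (1 - 1/q)`.

A chain which starts at the odd number `n = 2 b - 1` is `2 b - 1, 4 b - 1, 8 b - 1, ...`, its members are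
`2 ^ i * b - 1`, `i ≥ 1`.
-/

namespace Pool.Agent.RSC

open Finset

/-- `∏_{q ≤ y} (1 - 1/q)`, the product over the primes -/
noncomputable def th (y : ℕ) : ℝ := ∏ q ∈ (range (y + 1)).filter Nat.Prime, (1 - 1 / (q : ℝ))

/-- the numbers which survive the sieve with the residue classes `a p` -/
def RS (a : ℕ → ℕ) : Set ℕ :=
  {n | n % 2 = 1 ∧ ∀ p : ℕ, p.Prime → p ≠ 2 → 1 ≤ Real.log n * th p → n % p ≠ a p}

/-- Cunningham chain of the first kind -/
def ch (i n : ℕ) : ℕ := 2 ^ i * (n + 1) - 1

/-- the odd primes up to `y` -/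
def oddP (y : ℕ) : Finset ℕ := (range (y + 1)).filter (fun p => p.Prime ∧ p ≠ 2)

/-- `1` if none of the numbers `2 ^ i * b - 1`, `1 ≤ i ≤ k`, lies in the class of `a` modulo `p`, `0` otherwise -/
noncomputable def W (k p a b : ℕ) : ℝ :=
  if ∀ i ∈ Icc 1 k, ¬ (2 ^ i * b ≡ a + 1 [MOD p]) then 1 else 0

/-- average of `W` over `b` -/
noncomputable def g (k p a : ℕ) : ℝ := (∑ b ∈ range p, W k p a b) / p

/-- average of `W k p a b * W k p a b'` over `a` -/
noncomputable def U (k p b b' : ℕ) : ℝ := (∑ a ∈ range p, W k p a b * W k p a b') / p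

/-- average of `W k p a b * g k p a` over `a` -/
noncomputable def Ub (k p b : ℕ) : ℝ := (∑ a ∈ range p, W k p a b * g k p a) / p

/-- average of `g k p a ^ 2` over `a` -/
noncomputable def vv (k p : ℕ) : ℝ := (∑ a ∈ range p, g k p a ^ 2) / p

/-- relative deviation of `Ub` -/
noncomputable def e1 (k p b : ℕ) : ℝ := Ub k p b / vv k p - 1

/-- relative deviation of `U` -/
noncomputable def e2 (k p b b' : ℕ) : ℝ := U k p b b' / vv k p - 1

/-- the primes which do not divide `Del k b b'` are generic for the pair `b, b'` -/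
def Del (k b b' : ℕ) : ℤ :=
  (b : ℤ) * b' * ∏ i ∈ Icc 1 k, ∏ j ∈ Icc 1 k, ((2 : ℤ) ^ i * b - 2 ^ j * b')

/-- number of `b` in `[M, M + l)` which survive the sieve with the primes in `P`, for a chain of length `k` -/
noncomputable def SS (k : ℕ) (P : Finset ℕ) (a : ℕ → ℕ) (M l : ℕ) : ℝ :=
  ∑ b ∈ Ico M (M + l), ∏ p ∈ P, W k p (a p) b

/-- the expected density -/
noncomputable def GG (k : ℕ) (P : Finset ℕ) (a : ℕ → ℕ) : ℝ := ∏ p ∈ P, g k p (a p)

end Pool.Agent.RSC
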