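import Pool.Agent.RSC.Prob

/-!
# RSC / Exist: independent uniform residue classes exist
-/

namespace Pool.Agent.RSC

open Finset MeasureTheory ProbabilityTheory

/-- a prime as an element of `Nat.Primes` -/
def Exist_pr (p : ℕ) (hp : p.Prime) : Nat.Primes := ⟨p, hp⟩

theorem Exist_map (ν : Nat.Primes → Measure ℕ) [∀ p, IsProbabilityMeasure (ν p)] (q : Nat.Primes)
    (s : Set ℕ) : Measure.infinitePi ν ((fun ω : Nat.Primes → ℕ => ω q) ⁻¹' s) = ν q s := by
  have h := Measure.infinitePi_map_eval ν q
  rw [← Measure.map_apply (μ := Measure.infinitePi ν) (f := fun ω : Nat.Primes → ℕ => ω q)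
    (by fun_prop) (MeasurableSet.of_discrete), h]

theorem exists_unif : ∃ (Ω : Type) (_ : MeasurableSpace Ω) (μ : Measure Ω) (a : ℕ → Ω → ℕ),
    IsProbabilityMeasure μ ∧ Unif μ a := by
  classical
  let ν : Nat.Primes → Measure ℕ := fun p => uniformOn (↑(range (p : ℕ)) : Set ℕ)
  have hν : ∀ p, IsProbabilityMeasure (ν p) := by
    intro p
    refine isProbabilityMeasure_uniformOn' (Finset.finite_toSet _) ?_ ?_
    · exact ⟨0, by simpa using p.2.pos⟩
    · exact MeasurableSet.of_discrete
  refine ⟨Nat.Primes → ℕ, inferInstance, Measure.infinitePi ν,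
    fun p ω => if hp : p.Prime then ω (Exist_pr p hp) else 0, inferInstance, ?_, ?_, ?_⟩
  · intro p hp
    simp only [hp, dif_pos]
    exact measurable_pi_apply _
  · have h1 := iIndepFun_infinitePi (P := ν) (X := fun _ x => x) (fun i => measurable_id)
    have h2 : (fun (p : Nat.Primes) (ω : Nat.Primes → ℕ) =>
        if hp : Nat.Prime (p : ℕ) then ω (Exist_pr p hp) else 0) = fun i ω => ω i := by
      funext p ω
      rw [dif_pos p.2]
      rfl
    rw [h2]
    exact h1
  · intro p hp j hj
    have h3 : {ω : Nat.Primes → ℕ | (if hp : p.Prime then ω (Exist_pr p hp) else 0) = j} =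
        (fun ω : Nat.Primes → ℕ => ω (Exist_pr p hp)) ⁻¹' {j} := by
      ext ω
      simp [hp]
    have h6 : ({j} : Set ℕ) = ↑({j} : Finset ℕ) := by simp
    rw [h3, Measure.real, Exist_map ν]
    show (uniformOn (↑(range p) : Set ℕ) {j}).toReal = _
    rw [h6, uniformOn_apply_finset]
    have h7 : range p ∩ {j} = {j} := by
      rw [Finset.inter_eq_right]
      simpa using hj
    rw [h7]
    simp

end Pool.Agent.RSC
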