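import Mathlib

/-!
# RSC / Expd: expansion of a product over primes, truncation

`∏_{p ∈ P} (1 + x p) = ∑_{T ⊆ P} ∏_{p ∈ T} x p` (`Finset.prod_one_add`). The difference is the sum over the `T` with
`∏ T > D`; there `1 ≤ D^(-1/2) (∏ T)^(1/2) = D^(-1/2) ∏_{p ∈ T} √p`, so its absolute value is at most
`D^(-1/2) ∑_{T ⊆ P} ∏_{p ∈ T} √p |x p| = D^(-1/2) ∏_{p ∈ P} (1 + √p |x p|)`.
-/

set_option linter.all false

namespace Pool.Agent.RSC

open Finset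

theorem expd_tail (P : Finset ℕ) (x : ℕ → ℝ) {D : ℝ} (hD : 0 < D) :
    |∏ p ∈ P, (1 + x p) -
      ∑ T ∈ P.powerset.filter (fun T => ((∏ p ∈ T, p : ℕ) : ℝ) ≤ D), ∏ p ∈ T, x p| ≤
      D ^ (-(1 / 2) : ℝ) * ∏ p ∈ P, (1 + Real.sqrt p * |x p|) := by
  classical
  rw [Finset.prod_one_add, Finset.prod_one_add,
    ← Finset.sum_filter_add_sum_filter_not P.powerset
      (fun T => ((∏ p ∈ T, p : ℕ) : ℝ) ≤ D) (fun T => ∏ p ∈ T, x p), add_sub_cancel_left]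
  refine (Finset.abs_sum_le_sum_abs _ _).trans ?_
  rw [Finset.mul_sum]
  have hDp : 0 < D ^ (-(1 / 2) : ℝ) := Real.rpow_pos_of_pos hD _
  refine (Finset.sum_le_sum (g := fun T : Finset ℕ => D ^ (-(1 / 2) : ℝ) *
    ∏ p ∈ T, (Real.sqrt ((p : ℕ) : ℝ) * |x p|)) ?_).trans
    (Finset.sum_le_sum_of_subset_of_nonneg (Finset.filter_subset _ _) ?_)
  · intro T hT
    rw [Finset.mem_filter, not_le] at hT
    rw [Finset.abs_prod, Finset.prod_mul_distrib, ← mul_assoc]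
    have h1 : (1 : ℝ) ≤ D ^ (-(1 / 2) : ℝ) * ∏ p ∈ T, Real.sqrt p := by
      have h2 : ∏ p ∈ T, Real.sqrt (p : ℝ) = Real.sqrt ((∏ p ∈ T, p : ℕ) : ℝ) := by
        rw [Nat.cast_prod]
        rw [Real.sqrt_eq_rpow, ← Real.finsetProd_rpow _ _ (fun i _ => Nat.cast_nonneg i)]
        refine Finset.prod_congr rfl fun i _ => ?_
        rw [Real.sqrt_eq_rpow]
      rw [h2, Real.rpow_neg hD.le, ← Real.sqrt_eq_rpow, inv_mul_eq_div,
        one_le_div (Real.sqrt_pos.2 hD)]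
      exact Real.sqrt_le_sqrt hT.2.le
    exact le_mul_of_one_le_left (Finset.prod_nonneg fun _ _ => abs_nonneg _) h1
  · intro T _ _
    have : 0 ≤ ∏ p ∈ T, (Real.sqrt ((p : ℕ) : ℝ) * |x p|) :=
      Finset.prod_nonneg fun p _ => mul_nonneg (Real.sqrt_nonneg _) (abs_nonneg _)
    positivity

end Pool.Agent.RSC
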