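import Pool.Agent.RSC.SumA

/-!
# RSC / Fin: from `b` to `n = 2 b - 1`, exact length

`count_eq`: `n ↦ (n + 1)/2`, `b ↦ 2 b - 1` is a bijection between the `n ∈ [1, x]` with `ch i n ∈ RS a` for all `i < k` (so `n`
is odd, since `k ≥ 1` and `ch 0 n = n`) and the `b ∈ [1, (x+1)/2 + 1)` with `2^i b - 1 ∈ RS a` for all `i ∈ [1, k]`:
`ch i (2 b - 1) = 2^(i+1) b - 1`.

`atLeast`: with `z = (x+1)/2 + 1`: `z/x → 1/2`, `log z / log x → 1`.

`exact_len`: exact length `k` = (length at least `k`) minus (length at least `k + 1`); the second count is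
`O(x/(log x)^(k+1))`.
-/

namespace Pool.Agent.RSC

open Finset Filter

private theorem Fin_ch {i n b : ℕ} (hn : n = 2 * b - 1) (hb : 1 ≤ b) :
    ch i n = 2 ^ (i + 1) * b - 1 := by
  unfold ch
  have h1 : n + 1 = 2 * b := by omega
  rw [h1, pow_succ, mul_assoc]

open Classical in
theorem count_eq (k : ℕ) (hk : 1 ≤ k) (a : ℕ → ℕ) (x : ℕ) :
    ((Icc 1 x).filter (fun n => ∀ i < k, ch i n ∈ RS a)).card = CC k a ((x + 1) / 2 + 1) := by
  unfold CC
  refine card_bij' (fun n _ => (n + 1) / 2) (fun b _ => 2 * b - 1) ?_ ?_ ?_ ?_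
  · intro n hn
    rw [mem_filter, mem_Icc] at hn
    obtain ⟨⟨hn1, hnx⟩, hn2⟩ := hn
    have h0 := hn2 0 (by omega)
    have h0' : n % 2 = 1 := by
      have h1 : ch 0 n = n := by simp [ch]
      rw [h1] at h0
      exact h0.1
    have hb : n = 2 * ((n + 1) / 2) - 1 := by omega
    have hb1 : 1 ≤ (n + 1) / 2 := by omega
    rw [mem_filter, mem_Ico]
    refine ⟨⟨hb1, by omega⟩, fun i hi => ?_⟩
    rw [mem_Icc] at hi
    have h2 := hn2 (i - 1) (by omega)
    rw [Fin_ch hb hb1, Nat.sub_add_cancel hi.1] at h2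
    exact h2
  · intro b hb
    rw [mem_filter, mem_Ico] at hb
    obtain ⟨⟨hb1, hb2⟩, hb3⟩ := hb
    rw [mem_filter, mem_Icc]
    refine ⟨⟨by omega, by omega⟩, fun i hi => ?_⟩
    rw [Fin_ch rfl hb1]
    exact hb3 (i + 1) (mem_Icc.mpr ⟨by omega, by omega⟩)
  · intro n hn
    rw [mem_filter, mem_Icc] at hn
    obtain ⟨⟨hn1, hnx⟩, hn2⟩ := hn
    have h0 := hn2 0 (by omega)
    have h0' : n % 2 = 1 := by
      have h1 : ch 0 n = n := by simp [ch]
      rw [h1] at h0
      exact h0.1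
    change 2 * ((n + 1) / 2) - 1 = n
    omega
  · intro b hb
    rw [mem_filter, mem_Ico] at hb
    obtain ⟨⟨hb1, hb2⟩, hb3⟩ := hb
    change (2 * b - 1 + 1) / 2 = b
    omega

private theorem Fin_ratio : Tendsto (fun x : ℕ => (((x + 1) / 2 + 1 : ℕ) : ℝ) / x) atTop
    (nhds (1 / 2)) := by
  have h1 : Tendsto (fun x : ℕ => (1 / 2 : ℝ) + 0 / x) atTop (nhds (1 / 2)) := by
    simp
  have h2 : Tendsto (fun x : ℕ => (1 / 2 : ℝ) + (3 / 2) / x) atTop (nhds (1 / 2)) := by
    have := tendsto_const_div_atTop_nhds_zero_nat (3 / 2 : ℝ)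
    have h3 := this.const_add (1 / 2 : ℝ)
    rwa [add_zero] at h3
  refine tendsto_of_tendsto_of_tendsto_of_le_of_le' h1 h2 ?_ ?_
  · filter_upwards [eventually_ge_atTop 1] with x hx
    have hx0 : (0 : ℝ) < x := by exact_mod_cast hx
    have h3 : x ≤ 2 * ((x + 1) / 2 + 1) := by omega
    have h4 : (x : ℝ) ≤ 2 * (((x + 1) / 2 + 1 : ℕ) : ℝ) := by exact_mod_cast h3
    rw [zero_div, add_zero, le_div_iff₀ hx0]
    linarith
  · filter_upwards [eventually_ge_atTop 1] with x hx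
    have hx0 : (0 : ℝ) < x := by exact_mod_cast hx
    have h3 : 2 * ((x + 1) / 2 + 1) ≤ x + 3 := by omega
    have h4 : 2 * (((x + 1) / 2 + 1 : ℕ) : ℝ) ≤ x + 3 := by exact_mod_cast h3
    rw [div_add_div _ _ (by norm_num) hx0.ne', div_le_div_iff₀ hx0 (by positivity)]
    nlinarith

private theorem Fin_z : Tendsto (fun x : ℕ => (x + 1) / 2 + 1) atTop atTop := by
  rw [tendsto_atTop]
  intro b
  filter_upwards [eventually_ge_atTop (2 * b)] with x hx
  omega

private theorem Fin_log : Tendsto (fun x : ℕ => Real.log x / Real.log (((x + 1) / 2 + 1 : ℕ) : ℝ))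
    atTop (nhds 1) := by
  have hl : Tendsto (fun x : ℕ => Real.log (x : ℝ)) atTop atTop :=
    Real.tendsto_log_atTop.comp tendsto_natCast_atTop_atTop
  have h1 : Tendsto (fun x : ℕ => Real.log ((((x + 1) / 2 + 1 : ℕ) : ℝ) / x)) atTop
      (nhds (Real.log (1 / 2))) :=
    Fin_ratio.log (by norm_num)
  have h2 : Tendsto (fun x : ℕ => Real.log ((((x + 1) / 2 + 1 : ℕ) : ℝ) / x) / Real.log x) atTop
      (nhds 0) := h1.div_atTop hl
  have h3 : Tendsto (fun x : ℕ => (1 + Real.log ((((x + 1) / 2 + 1 : ℕ) : ℝ) / x) /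
      Real.log x)⁻¹) atTop (nhds 1) := by
    have := (h2.const_add 1).inv₀ (by norm_num)
    rwa [add_zero, inv_one] at this
  refine h3.congr' ?_
  filter_upwards [eventually_ge_atTop 2] with x hx
  have hx0 : (0 : ℝ) < x := by exact_mod_cast (by omega : 0 < x)
  have hlx : 0 < Real.log x := Real.log_pos (by exact_mod_cast (by omega : 1 < x))
  have hz0 : (0 : ℝ) < (((x + 1) / 2 + 1 : ℕ) : ℝ) := by exact_mod_cast Nat.succ_pos _
  rw [Real.log_div hz0.ne' hx0.ne']
  have h4 : 1 + (Real.log (((x + 1) / 2 + 1 : ℕ) : ℝ) - Real.log x) / Real.log x =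
      Real.log (((x + 1) / 2 + 1 : ℕ) : ℝ) / Real.log x := by
    field_simp
    ring
  rw [h4, inv_div]

open Classical in
theorem atLeast (k : ℕ) (hk : 1 ≤ k) (a : ℕ → ℕ) {Φ : ℝ}
    (h : Tendsto (fun z : ℕ => (CC k a z : ℝ) * Real.log z ^ k / z) atTop (nhds Φ)) :
    Tendsto (fun x : ℕ => (((Icc 1 x).filter (fun n => ∀ i < k, ch i n ∈ RS a)).card : ℝ) *
      Real.log x ^ k / x) atTop (nhds (Φ / 2)) := by
  have h1 := h.comp Fin_z
  have h2 := (h1.mul Fin_ratio).mul (Fin_log.pow k)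
  rw [one_pow, mul_one, mul_one_div] at h2
  refine h2.congr' ?_
  filter_upwards [eventually_ge_atTop 2] with x hx
  have hx0 : (0 : ℝ) < x := by exact_mod_cast (by omega : 0 < x)
  have hz0 : (0 : ℝ) < (((x + 1) / 2 + 1 : ℕ) : ℝ) := by exact_mod_cast Nat.succ_pos _
  have hz1 : (1 : ℝ) < (((x + 1) / 2 + 1 : ℕ) : ℝ) := by
    have : 1 < (x + 1) / 2 + 1 := by omega
    exact_mod_cast this
  have hlz : Real.log (((x + 1) / 2 + 1 : ℕ) : ℝ) ^ k ≠ 0 := pow_ne_zero _ (Real.log_pos hz1).ne'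
  rw [count_eq k hk]
  simp only [Function.comp_apply]
  rw [div_pow]
  field_simp

open Classical in
theorem exact_len (k : ℕ) (hk : 1 ≤ k) (a : ℕ → ℕ) {c c' : ℝ}
    (h : Tendsto (fun x : ℕ => (((Icc 1 x).filter (fun n => ∀ i < k, ch i n ∈ RS a)).card : ℝ) *
      Real.log x ^ k / x) atTop (nhds c))
    (h' : Tendsto (fun x : ℕ => (((Icc 1 x).filter (fun n => ∀ i < k + 1, ch i n ∈ RS a)).card : ℝ) *
      Real.log x ^ (k + 1) / x) atTop (nhds c')) :
    Tendsto (fun x : ℕ => (((Icc 1 x).filter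
      (fun n => (∀ i < k, ch i n ∈ RS a) ∧ ch k n ∉ RS a)).card : ℝ) *
      Real.log x ^ k / x) atTop (nhds c) := by
  have hl : Tendsto (fun x : ℕ => Real.log (x : ℝ)) atTop atTop :=
    Real.tendsto_log_atTop.comp tendsto_natCast_atTop_atTop
  have h1 := h.sub (h'.div_atTop hl)
  rw [sub_zero] at h1
  refine h1.congr' ?_
  filter_upwards [eventually_ge_atTop 2] with x hx
  have hx0 : (0 : ℝ) < x := by exact_mod_cast (by omega : 0 < x)
  have hlx : 0 < Real.log x := Real.log_pos (by exact_mod_cast (by omega : 1 < x))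
  have hcard : ((Icc 1 x).filter (fun n => (∀ i < k, ch i n ∈ RS a) ∧ ch k n ∉ RS a)).card +
      ((Icc 1 x).filter (fun n => ∀ i < k + 1, ch i n ∈ RS a)).card =
      ((Icc 1 x).filter (fun n => ∀ i < k, ch i n ∈ RS a)).card := by
    rw [← card_filter_add_card_filter_not (s := (Icc 1 x).filter
      (fun n => ∀ i < k, ch i n ∈ RS a)) (fun n => ch k n ∉ RS a), filter_filter, filter_filter]
    congr 2
    apply filter_congr
    intro n _
    constructor
    · intro h2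
      exact ⟨fun i hi => h2 i (by omega), fun h3 => h3 (h2 k (by omega))⟩
    · rintro ⟨h2, h3⟩ i hi
      rcases Nat.lt_succ_iff_lt_or_eq.mp hi with h4 | h4
      · exact h2 i h4
      · rw [h4]; exact not_not.mp h3
  have hcard' : (((Icc 1 x).filter (fun n => ∀ i < k, ch i n ∈ RS a)).card : ℝ) =
      (((Icc 1 x).filter (fun n => (∀ i < k, ch i n ∈ RS a) ∧ ch k n ∉ RS a)).card : ℝ) +
      (((Icc 1 x).filter (fun n => ∀ i < k + 1, ch i n ∈ RS a)).card : ℝ) := by
    exact_mod_cast hcard.symm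
  rw [hcard', pow_succ]
  field_simp
  ring

end Pool.Agent.RSC
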