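import Pool.Agent.RSC.Core

/-!
# RSC / LocA: elementary facts on `W`, `U`, `Ub`, `vv`

* `W_per`: `W k p a b` depends on `b mod p` only. Hence `U_per1`, `U_per2`, `Ub_per`, `e1_per`, `e2_per1`, `e2_per2`.
* `U_low`: for fixed `b` the number of `a < p` with `W k p a b = 0` is at most `k` (for every `i` in `[1, k]` exactly one
  `a < p` satisfies `2^i b ≡ a + 1`). So `∑_a (1 - W k p a b) ≤ k`, and `1 - W W' ≤ (1 - W) + (1 - W')`, so `1 - 2k/p ≤ U ≤ 1`;
  `vv` and `Ub` are averages of `U` (exchange the sums), so they satisfy the same bounds.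
-/

namespace Pool.Agent.RSC

open Finset

theorem W_nonneg (k p a b : ℕ) : 0 ≤ W k p a b := by
  unfold W
  split_ifs <;> norm_num

theorem W_le_one (k p a b : ℕ) : W k p a b ≤ 1 := by
  unfold W
  split_ifs <;> norm_num

theorem W_sq (k p a b : ℕ) : W k p a b * W k p a b = W k p a b := by
  unfold W
  split_ifs <;> norm_num

private theorem LocA_modEq (i p a b : ℕ) :
    (2 ^ i * (b + p) ≡ a + 1 [MOD p]) ↔ (2 ^ i * b ≡ a + 1 [MOD p]) := by
  have h : 2 ^ i * (b + p) ≡ 2 ^ i * b [MOD p] := by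
    unfold Nat.ModEq
    rw [mul_add, Nat.add_mul_mod_self_right]
  exact ⟨fun h1 => h.symm.trans h1, fun h1 => h.trans h1⟩

theorem W_per (k p a b : ℕ) : W k p a (b + p) = W k p a b := by
  unfold W
  simp only [LocA_modEq]

theorem U_per1 (k p b b' : ℕ) : U k p (b + p) b' = U k p b b' := by
  unfold U
  simp only [W_per]

theorem U_per2 (k p b b' : ℕ) : U k p b (b' + p) = U k p b b' := by
  unfold U
  simp only [W_per]

theorem Ub_per (k p b : ℕ) : Ub k p (b + p) = Ub k p b := by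
  unfold Ub
  simp only [W_per]

theorem e1_per (k p b : ℕ) : e1 k p (b + p) = e1 k p b := by
  unfold e1
  rw [Ub_per]

theorem e2_per1 (k p b b' : ℕ) : e2 k p (b + p) b' = e2 k p b b' := by
  unfold e2
  rw [U_per1]

theorem e2_per2 (k p b b' : ℕ) : e2 k p b (b' + p) = e2 k p b b' := by
  unfold e2
  rw [U_per2]

/-- `Ub` is the average of `U` -/
theorem Ub_avg (k p b : ℕ) : Ub k p b = (∑ b' ∈ range p, U k p b b') / p := by
  unfold Ub U g
  rw [← Finset.sum_div, Finset.sum_comm]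
  congr 1
  rw [Finset.sum_div]
  refine Finset.sum_congr rfl fun a _ => ?_
  rw [← Finset.mul_sum, mul_div_assoc]

/-- `vv` is the average of `Ub` -/
theorem vv_avg (k p : ℕ) : vv k p = (∑ b ∈ range p, Ub k p b) / p := by
  unfold vv Ub
  rw [← Finset.sum_div, Finset.sum_comm]
  congr 1
  rw [Finset.sum_div]
  refine Finset.sum_congr rfl fun a _ => ?_
  rw [← Finset.sum_mul, mul_div_right_comm, sq]
  rfl

private theorem LocA_avg_nonneg (p : ℕ) (f : ℕ → ℝ) (h : ∀ a, 0 ≤ f a) :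
    0 ≤ (∑ a ∈ range p, f a) / p :=
  div_nonneg (Finset.sum_nonneg fun a _ => h a) (Nat.cast_nonneg p)

private theorem LocA_avg_le (p : ℕ) (f : ℕ → ℝ) (h : ∀ a, f a ≤ 1) :
    (∑ a ∈ range p, f a) / p ≤ 1 := by
  refine div_le_one_of_le₀ ?_ (Nat.cast_nonneg p)
  calc ∑ a ∈ range p, f a ≤ ∑ _a ∈ range p, (1 : ℝ) := Finset.sum_le_sum fun a _ => h a
    _ = p := by simp

private theorem LocA_avg_ge {p : ℕ} (hp : p.Prime) (f : ℕ → ℝ) (c : ℝ) (h : ∀ a, c ≤ f a) :
    c ≤ (∑ a ∈ range p, f a) / p := by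
  have hp0 : (0 : ℝ) < p := by exact_mod_cast hp.pos
  rw [le_div_iff₀ hp0]
  calc c * p = ∑ _a ∈ range p, c := by
        rw [Finset.sum_const, Finset.card_range, nsmul_eq_mul, mul_comm]
    _ ≤ ∑ a ∈ range p, f a := Finset.sum_le_sum fun a _ => h a

theorem g_nonneg (k p a : ℕ) : 0 ≤ g k p a := LocA_avg_nonneg p _ fun b => W_nonneg k p a b

theorem g_le_one (k p a : ℕ) : g k p a ≤ 1 := LocA_avg_le p _ fun b => W_le_one k p a b

theorem U_nonneg (k p b b' : ℕ) : 0 ≤ U k p b b' :=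
  LocA_avg_nonneg p _ fun a => mul_nonneg (W_nonneg k p a b) (W_nonneg k p a b')

theorem U_le_one (k p b b' : ℕ) : U k p b b' ≤ 1 :=
  LocA_avg_le p _ fun a => mul_le_one₀ (W_le_one k p a b) (W_nonneg k p a b') (W_le_one k p a b')

theorem Ub_nonneg (k p b : ℕ) : 0 ≤ Ub k p b :=
  LocA_avg_nonneg p _ fun a => mul_nonneg (W_nonneg k p a b) (g_nonneg k p a)

theorem Ub_le_one (k p b : ℕ) : Ub k p b ≤ 1 :=
  LocA_avg_le p _ fun a => mul_le_one₀ (W_le_one k p a b) (g_nonneg k p a) (g_le_one k p a)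

theorem vv_nonneg (k p : ℕ) : 0 ≤ vv k p :=
  LocA_avg_nonneg p _ fun a => sq_nonneg (g k p a)

theorem vv_le_one (k p : ℕ) : vv k p ≤ 1 :=
  LocA_avg_le p _ fun a => pow_le_one₀ (g_nonneg k p a) (g_le_one k p a)

variable {p : ℕ}

private theorem LocA_one_sub (k p a b : ℕ) :
    1 - W k p a b ≤ ∑ i ∈ Icc 1 k, (if 2 ^ i * b ≡ a + 1 [MOD p] then (1 : ℝ) else 0) := by
  by_cases h : ∀ i ∈ Icc 1 k, ¬ (2 ^ i * b ≡ a + 1 [MOD p])
  · have h1 : W k p a b = 1 := by
      unfold W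
      rw [if_pos h]
    rw [h1, sub_self]
    exact Finset.sum_nonneg fun i _ => by split_ifs <;> norm_num
  · have h1 : W k p a b = 0 := by
      unfold W
      rw [if_neg h]
    rw [h1, sub_zero]
    push Not at h
    obtain ⟨i, hi, hc⟩ := h
    calc (1 : ℝ) = (if 2 ^ i * b ≡ a + 1 [MOD p] then (1 : ℝ) else 0) := by rw [if_pos hc]
      _ ≤ _ := Finset.single_le_sum
        (f := fun i => if 2 ^ i * b ≡ a + 1 [MOD p] then (1 : ℝ) else 0)
        (fun i _ => by split_ifs <;> norm_num) hi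

private theorem LocA_count (p c : ℕ) :
    ∑ a ∈ range p, (if c ≡ a + 1 [MOD p] then (1 : ℝ) else 0) ≤ 1 := by
  rw [← Finset.sum_filter, Finset.sum_const, nsmul_eq_mul, mul_one]
  have h : ((range p).filter (fun a => c ≡ a + 1 [MOD p])).card ≤ 1 := by
    rw [Finset.card_le_one]
    intro a ha a' ha'
    rw [Finset.mem_filter, Finset.mem_range] at ha ha'
    have h1 : a + 1 ≡ a' + 1 [MOD p] := ha.2.symm.trans ha'.2
    exact Nat.ModEq.eq_of_lt_of_lt (Nat.ModEq.add_right_cancel' 1 h1) ha.1 ha'.1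
  exact_mod_cast h

private theorem LocA_sum (k p b : ℕ) : ∑ a ∈ range p, (1 - W k p a b) ≤ k := by
  calc ∑ a ∈ range p, (1 - W k p a b)
      ≤ ∑ a ∈ range p, ∑ i ∈ Icc 1 k, (if 2 ^ i * b ≡ a + 1 [MOD p] then (1 : ℝ) else 0) :=
        Finset.sum_le_sum fun a _ => LocA_one_sub k p a b
    _ = ∑ i ∈ Icc 1 k, ∑ a ∈ range p, (if 2 ^ i * b ≡ a + 1 [MOD p] then (1 : ℝ) else 0) :=
        Finset.sum_comm
    _ ≤ ∑ _i ∈ Icc 1 k, (1 : ℝ) := Finset.sum_le_sum fun i _ => LocA_count p _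
    _ = k := by simp

theorem U_low (hp : p.Prime) (k b b' : ℕ) : 1 - 2 * (k : ℝ) / p ≤ U k p b b' := by
  have hp0 : (0 : ℝ) < p := by exact_mod_cast hp.pos
  unfold U
  rw [le_div_iff₀ hp0, sub_mul, one_mul, div_mul_cancel₀ _ hp0.ne']
  have h1 := LocA_sum k p b
  have h2 := LocA_sum k p b'
  have h3 : ∑ a ∈ range p, (1 - W k p a b * W k p a b') ≤
      ∑ a ∈ range p, (1 - W k p a b) + ∑ a ∈ range p, (1 - W k p a b') := by
    rw [← Finset.sum_add_distrib]
    refine Finset.sum_le_sum fun a _ => ?_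
    have e1 := W_le_one k p a b
    have e2 := W_le_one k p a b'
    nlinarith
  have h4 : ∑ a ∈ range p, (1 - W k p a b * W k p a b') =
      p - ∑ a ∈ range p, W k p a b * W k p a b' := by
    rw [Finset.sum_sub_distrib]
    simp
  linarith

theorem Ub_low (hp : p.Prime) (k b : ℕ) : 1 - 2 * (k : ℝ) / p ≤ Ub k p b := by
  rw [Ub_avg]
  exact LocA_avg_ge hp _ _ fun b' => U_low hp k b b'

theorem vv_low (hp : p.Prime) (k : ℕ) : 1 - 2 * (k : ℝ) / p ≤ vv k p := by
  rw [vv_avg]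
  exact LocA_avg_ge hp _ _ fun b => Ub_low hp k b

end Pool.Agent.RSC
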