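import Pool.Agent.RSC.LocG

/-!
# RSC / LocB: the deviations `e1`, `e2` are `O(1/p)`, and `O(1/p^2)` for generic `b, b'`

Fix `k ≥ 1`. Let `p` be an odd prime.

`U_gen`: if `2^k < p` and `p` does not divide `Del k b b'` then the `2k` classes `2^i b`, `2^j b'`, `1 ≤ i, j ≤ k`, are
distinct modulo `p` (`2^i b = 2^j b` modulo `p` with `i < j` would give `p ∣ 2^i (2^(j-i) - 1) b`, impossible), so exactly `2k`
values `a < p` have `W k p a b * W k p a b' = 0`, and `U k p b b' = 1 - 2k/p`.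

`vv_gen`: `2^k < p`. For given `b < p` with `b ≠ 0` the number of `b' < p` with `p ∣ Del k b b'` is at most `k^2 + 1` (`b' = 0` or
`b' = 2^i 2^(-j) b`). `1 - 2k/p ≤ U ≤ 1` always, so `0 ≤ Ub k p b - (1 - 2k/p) ≤ (k^2+1)/p * 2k/p` for `b ≠ 0` modulo `p`
(`Ub_gen`), and averaging over `b` (the class `b = 0` has weight `1/p`, there `Ub ≤ 1`)
`0 ≤ vv - (1 - 2k/p) ≤ (k^2+1)/p * 2k/p + 1/p * 2k/p`.

`loc_bounds`: for `p > p0 = 2^k + 4k + 4` one has `vv ≥ 1/2`, and the bounds follow from `e2 = (U - vv)/vv`, where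
`|U - vv| ≤ 2k/p` always and `≤ (k^2+2) 2k/p^2` if `p` does not divide `Del`; the same for `Ub`. For `p ≤ p0`:
`|e2|, |e1| ≤ 1/vv + 1 ≤ 4p + 1 ≤ 5 p0 ≤ 5 p0^3/p^2 ≤ 5 p0^3 / p`. So `C = 5 p0^3 + 4 (k^2+2) 2 k` works.
-/

namespace Pool.Agent.RSC

open Finset

private theorem LocB_mem {p : ℕ} (hp : 0 < p) {x a : ℕ} (ha : a < p) :
    (x ≡ a + 1 [MOD p]) ↔ (x + (p - 1)) % p = a := by
  constructor
  · intro h
    have h1 : x + (p - 1) ≡ a + 1 + (p - 1) [MOD p] := h.add_right _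
    have h2 : a + 1 + (p - 1) = a + p := by omega
    rw [h2] at h1
    have h3 : (x + (p - 1)) % p = (a + p) % p := h1
    rw [Nat.add_mod_right, Nat.mod_eq_of_lt ha] at h3
    exact h3
  · intro h
    have h1 : x + (p - 1) ≡ a + 1 + (p - 1) [MOD p] := by
      have h2 : a + 1 + (p - 1) = a + p := by omega
      rw [h2]
      change (x + (p - 1)) % p = (a + p) % p
      rw [Nat.add_mod_right, Nat.mod_eq_of_lt ha, h]
    exact Nat.ModEq.add_right_cancel' _ h1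

/-- the residue class excluded by `2 ^ i * b` -/
private def LocB_f (p b i : ℕ) : ℕ := (2 ^ i * b + (p - 1)) % p

private theorem LocB_f_eq {p b b' i j : ℕ} (h : LocB_f p b i = LocB_f p b' j) :
    2 ^ i * b ≡ 2 ^ j * b' [MOD p] := by
  have h1 : 2 ^ i * b + (p - 1) ≡ 2 ^ j * b' + (p - 1) [MOD p] := h
  exact Nat.ModEq.add_right_cancel' _ h1

private theorem LocB_two {p : ℕ} (hp : p.Prime) (h2 : p ≠ 2) (i : ℕ) : Nat.Coprime p (2 ^ i) := by
  apply Nat.Coprime.pow_right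
  exact (Nat.coprime_primes hp Nat.prime_two).mpr h2

private theorem LocB_inj {p k b : ℕ} (hp : p.Prime) (h2 : p ≠ 2) (hpk : 2 ^ k < p) (hb : ¬ p ∣ b) :
    Set.InjOn (LocB_f p b) (Icc 1 k : Finset ℕ) := by
  have key : ∀ i j : ℕ, i ∈ Icc 1 k → j ∈ Icc 1 k → i < j → ¬ LocB_f p b i = LocB_f p b j := by
    intro i j hi hj hij h
    rw [mem_Icc] at hi hj
    have h1 := LocB_f_eq h
    have h3 : (2 ^ j : ℕ) = 2 ^ i * 2 ^ (j - i) := by rw [← pow_add]; congr 1; omega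
    have h4 : 2 ^ i * b * 1 ≡ 2 ^ i * b * 2 ^ (j - i) [MOD p] := by
      have h5 : 2 ^ i * b * 2 ^ (j - i) = 2 ^ j * b := by rw [h3]; ring
      rw [mul_one, h5]
      exact h1
    have hcop : Nat.gcd p (2 ^ i * b) = 1 := by
      apply Nat.Coprime.mul_right (LocB_two hp h2 i)
      exact (Nat.Prime.coprime_iff_not_dvd hp).mpr hb
    have h5 : 1 ≡ 2 ^ (j - i) [MOD p] := Nat.ModEq.cancel_left_of_coprime hcop h4
    have h6 : 2 ^ (j - i) ≤ 2 ^ k := Nat.pow_le_pow_right (by norm_num) (by omega)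
    have h7 : 1 % p = 2 ^ (j - i) % p := h5
    rw [Nat.mod_eq_of_lt hp.one_lt, Nat.mod_eq_of_lt (by omega)] at h7
    have h8 : 2 ^ 1 ≤ 2 ^ (j - i) := Nat.pow_le_pow_right (by norm_num) (by omega)
    omega
  intro i hi j hj hij
  rcases lt_trichotomy i j with h | h | h
  · exact absurd hij (key i j hi hj h)
  · exact h
  · exact absurd hij.symm (key j i hj hi h)

private theorem LocB_Del {p k b b' : ℕ} (hp : p.Prime) :
    (p : ℤ) ∣ Del k b b' ↔ p ∣ b ∨ p ∣ b' ∨ ∃ i ∈ Icc 1 k, ∃ j ∈ Icc 1 k,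
      2 ^ i * b ≡ 2 ^ j * b' [MOD p] := by
  have hp' : Prime (p : ℤ) := Nat.prime_iff_prime_int.mp hp
  unfold Del
  rw [hp'.dvd_mul, hp'.dvd_mul, hp'.dvd_finsetProd_iff, Int.natCast_dvd_natCast,
    Int.natCast_dvd_natCast, or_assoc]
  apply or_congr Iff.rfl
  apply or_congr Iff.rfl
  constructor
  · rintro ⟨i, hi, h⟩
    rw [hp'.dvd_finsetProd_iff] at h
    obtain ⟨j, hj, h⟩ := h
    refine ⟨i, hi, j, hj, ?_⟩
    have := (Nat.modEq_iff_dvd (n := p) (a := 2 ^ j * b') (b := 2 ^ i * b)).mpr (by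
      push_cast
      exact h)
    exact this.symm
  · rintro ⟨i, hi, j, hj, h⟩
    refine ⟨i, hi, ?_⟩
    rw [hp'.dvd_finsetProd_iff]
    refine ⟨j, hj, ?_⟩
    have := (Nat.modEq_iff_dvd (n := p) (a := 2 ^ j * b') (b := 2 ^ i * b)).mp h.symm
    push_cast at this
    exact this

theorem U_gen {p k b b' : ℕ} (hp : p.Prime) (h2 : p ≠ 2) (hpk : 2 ^ k < p)
    (h : ¬ (p : ℤ) ∣ Del k b b') : U k p b b' = 1 - 2 * (k : ℝ) / p := by
  classical
  rw [LocB_Del hp] at h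
  push Not at h
  obtain ⟨hb, hb', hne⟩ := h
  set T1 := (Icc 1 k).image (LocB_f p b) with hT1
  set T2 := (Icc 1 k).image (LocB_f p b') with hT2
  have hdisj : Disjoint T1 T2 := by
    rw [Finset.disjoint_left]
    intro a ha ha'
    rw [hT1, mem_image] at ha
    rw [hT2, mem_image] at ha'
    obtain ⟨i, hi, hia⟩ := ha
    obtain ⟨j, hj, hja⟩ := ha'
    exact hne i hi j hj (LocB_f_eq (hia.trans hja.symm))
  have hcard : (T1 ∪ T2).card = 2 * k := by
    rw [card_union_of_disjoint hdisj, hT1, hT2, card_image_of_injOn (LocB_inj hp h2 hpk hb),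
      card_image_of_injOn (LocB_inj hp h2 hpk hb'), Nat.card_Icc]
    omega
  have hsub : T1 ∪ T2 ⊆ range p := by
    intro a ha
    rw [mem_union, hT1, hT2, mem_image, mem_image] at ha
    rw [mem_range]
    rcases ha with ⟨i, _, rfl⟩ | ⟨i, _, rfl⟩ <;> exact Nat.mod_lt _ hp.pos
  have hW : ∀ a ∈ range p, W k p a b * W k p a b' = if a ∈ T1 ∪ T2 then 0 else 1 := by
    intro a ha
    rw [mem_range] at ha
    have h1 : ∀ x : ℕ, (∀ i ∈ Icc 1 k, ¬ (2 ^ i * x ≡ a + 1 [MOD p])) ↔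
        a ∉ (Icc 1 k).image (LocB_f p x) := by
      intro x
      rw [mem_image]
      push Not
      constructor
      · intro h i hi he
        exact h i hi ((LocB_mem hp.pos ha).mpr he)
      · intro h i hi he
        exact h i hi ((LocB_mem hp.pos ha).mp he)
    unfold W
    simp only [h1 b, h1 b', ← hT1, ← hT2, mem_union]
    by_cases h3 : a ∈ T1 <;> by_cases h4 : a ∈ T2 <;> simp [h3, h4]
  have hsum : ∑ a ∈ range p, W k p a b * W k p a b' = p - 2 * k := by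
    rw [sum_congr rfl hW]
    have h1 : ∑ a ∈ range p, (if a ∈ T1 ∪ T2 then (0 : ℝ) else 1) =
        ∑ a ∈ range p, (1 - (if a ∈ T1 ∪ T2 then (1 : ℝ) else 0)) := by
      apply sum_congr rfl
      intro a _
      split_ifs <;> norm_num
    rw [h1, sum_sub_distrib, sum_ite_mem, inter_eq_right.mpr hsub]
    simp only [sum_const, card_range, nsmul_eq_mul, mul_one, hcard]
    push_cast
    ring
  have hp0 : (p : ℝ) ≠ 0 := by exact_mod_cast hp.ne_zero
  unfold U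
  rw [hsum]
  field_simp

private theorem LocB_bad {p k b : ℕ} (hp : p.Prime) (h2 : p ≠ 2) (h : ¬ p ∣ b) :
    ((range p).filter (fun b' => (p : ℤ) ∣ Del k b b')).card ≤ k ^ 2 + 1 := by
  classical
  have hsub : (range p).filter (fun b' => (p : ℤ) ∣ Del k b b') ⊆
      {0} ∪ (Icc 1 k ×ˢ Icc 1 k).biUnion
        (fun q => (range p).filter (fun b' => 2 ^ q.1 * b ≡ 2 ^ q.2 * b' [MOD p])) := by
    intro b' hb'
    rw [mem_filter, mem_range, LocB_Del hp] at hb'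
    obtain ⟨hlt, h1 | h1 | ⟨i, hi, j, hj, h1⟩⟩ := hb'
    · exact absurd h1 h
    · rw [mem_union, mem_singleton]
      left
      exact Nat.eq_zero_of_dvd_of_lt h1 hlt
    · rw [mem_union, mem_biUnion]
      right
      exact ⟨(i, j), mem_product.mpr ⟨hi, hj⟩, mem_filter.mpr ⟨mem_range.mpr hlt, h1⟩⟩
  have h1 : ∀ q ∈ Icc 1 k ×ˢ Icc 1 k,
      ((range p).filter (fun b' => 2 ^ q.1 * b ≡ 2 ^ q.2 * b' [MOD p])).card ≤ 1 := by
    intro q _
    rw [card_le_one]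
    intro x hx y hy
    rw [mem_filter, mem_range] at hx hy
    have h3 : 2 ^ q.2 * x ≡ 2 ^ q.2 * y [MOD p] := hx.2.symm.trans hy.2
    have h4 : x ≡ y [MOD p] := Nat.ModEq.cancel_left_of_coprime (LocB_two hp h2 _) h3
    have h5 : x % p = y % p := h4
    rwa [Nat.mod_eq_of_lt hx.1, Nat.mod_eq_of_lt hy.1] at h5
  calc _ ≤ _ := card_le_card hsub
    _ ≤ ({0} : Finset ℕ).card + _ := card_union_le _ _
    _ ≤ 1 + (Icc 1 k ×ˢ Icc 1 k).card * 1 := by
        apply Nat.add_le_add (by rw [card_singleton])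
        exact card_biUnion_le_card_mul _ _ _ h1
    _ = k ^ 2 + 1 := by
        rw [card_product, Nat.card_Icc]
        simp only [Nat.add_sub_cancel]
        ring

theorem Ub_gen {p k b : ℕ} (hp : p.Prime) (h2 : p ≠ 2) (hk : 1 ≤ k) (hpk : 2 ^ k < p)
    (h : ¬ p ∣ b) : Ub k p b ≤ 1 - 2 * (k : ℝ) / p + (k ^ 2 + 1) * (2 * k) / (p : ℝ) ^ 2 := by
  classical
  have hp0 : (0 : ℝ) < p := by exact_mod_cast hp.pos
  have hk0 : (0 : ℝ) ≤ k := Nat.cast_nonneg k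
  rw [Ub_avg]
  have h1 : ∀ b' ∈ range p, U k p b b' ≤ (1 - 2 * (k : ℝ) / p) +
      (if (p : ℤ) ∣ Del k b b' then 2 * (k : ℝ) / p else 0) := by
    intro b' _
    by_cases hd : (p : ℤ) ∣ Del k b b'
    · rw [if_pos hd]
      have := U_le_one k p b b'
      linarith
    · rw [if_neg hd, U_gen hp h2 hpk hd, add_zero]
  have h3 : ∑ b' ∈ range p, U k p b b' ≤ p * (1 - 2 * (k : ℝ) / p) +
      (k ^ 2 + 1) * (2 * (k : ℝ) / p) := by
    refine (sum_le_sum h1).trans ?_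
    rw [sum_add_distrib, ← sum_filter, sum_const, sum_const, card_range, nsmul_eq_mul,
      nsmul_eq_mul]
    have h4 : (((range p).filter (fun b' => (p : ℤ) ∣ Del k b b')).card : ℝ) ≤ k ^ 2 + 1 := by
      exact_mod_cast LocB_bad hp h2 h
    have h5 : (0 : ℝ) ≤ 2 * (k : ℝ) / p := by positivity
    have := mul_le_mul_of_nonneg_right h4 h5
    linarith
  rw [div_le_iff₀ hp0]
  refine h3.trans (le_of_eq ?_)
  field_simp

theorem vv_gen {p k : ℕ} (hp : p.Prime) (h2 : p ≠ 2) (hk : 1 ≤ k) (hpk : 2 ^ k < p) :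
    vv k p ≤ 1 - 2 * (k : ℝ) / p + (k ^ 2 + 2) * (2 * k) / (p : ℝ) ^ 2 := by
  classical
  have hp0 : (0 : ℝ) < p := by exact_mod_cast hp.pos
  have hk0 : (0 : ℝ) ≤ k := Nat.cast_nonneg k
  rw [vv_avg]
  have h1 : ∀ b ∈ range p, Ub k p b ≤
      (1 - 2 * (k : ℝ) / p + (k ^ 2 + 1) * (2 * k) / (p : ℝ) ^ 2) +
      (if b = 0 then 2 * (k : ℝ) / p else 0) := by
    intro b hb
    rw [mem_range] at hb
    by_cases hd : b = 0
    · rw [if_pos hd]
      have := Ub_le_one k p b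
      have h3 : (0 : ℝ) ≤ (k ^ 2 + 1) * (2 * k) / (p : ℝ) ^ 2 := by positivity
      linarith
    · rw [if_neg hd, add_zero]
      apply Ub_gen hp h2 hk hpk
      intro hdv
      exact hd (Nat.eq_zero_of_dvd_of_lt hdv hb)
  have h3 : ∑ b ∈ range p, Ub k p b ≤
      p * (1 - 2 * (k : ℝ) / p + (k ^ 2 + 1) * (2 * k) / (p : ℝ) ^ 2) + 2 * (k : ℝ) / p := by
    refine (sum_le_sum h1).trans ?_
    rw [sum_add_distrib, sum_const, card_range, nsmul_eq_mul, sum_ite_eq', if_pos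
      (mem_range.mpr hp.pos)]
  rw [div_le_iff₀ hp0]
  refine h3.trans (le_of_eq ?_)
  field_simp
  ring

private theorem LocB_rel {x v m q : ℝ} (hv : 1 / 2 ≤ v) (hx1 : m ≤ x) (hx2 : x ≤ m + q)
    (hv1 : m ≤ v) (hv2 : v ≤ m + q) : |x / v - 1| ≤ 2 * q := by
  have hv0 : 0 < v := by linarith
  have h1 : x / v - 1 = (x - v) / v := by field_simp
  have h2 : |x - v| ≤ q := by
    rw [abs_le]; constructor <;> linarith
  rw [h1, abs_div, abs_of_pos hv0, div_le_iff₀ hv0]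
  have hq : 0 ≤ q := (abs_nonneg _).trans h2
  nlinarith

theorem loc_bounds (k : ℕ) (hk : 1 ≤ k) : ∃ C : ℝ, 1 ≤ C ∧ ∀ p : ℕ, p.Prime → p ≠ 2 →
    (∀ b, |e1 k p b| ≤ C / p) ∧ (∀ b b', |e2 k p b b'| ≤ C / p) ∧
    (∀ b, ¬ p ∣ b → |e1 k p b| ≤ C / (p : ℝ) ^ 2) ∧
    (∀ b b', ¬ (p : ℤ) ∣ Del k b b' → |e2 k p b b'| ≤ C / (p : ℝ) ^ 2) := by
  set p0 : ℕ := 2 ^ k + 4 * k + 4 with hp0
  have hk1 : (1 : ℝ) ≤ k := by exact_mod_cast hk
  have hp0' : (4 : ℝ) ≤ p0 := by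
    have : 4 ≤ p0 := Nat.le_add_left 4 _
    exact_mod_cast this
  have hC0 : (1 : ℝ) ≤ 5 * (p0 : ℝ) ^ 3 := by
    have : (1 : ℝ) ≤ (p0 : ℝ) ^ 3 := one_le_pow₀ (by linarith)
    linarith
  have hC1 : (0 : ℝ) ≤ 4 * ((k : ℝ) ^ 2 + 2) * (2 * k) := by positivity
  refine ⟨5 * (p0 : ℝ) ^ 3 + 4 * ((k : ℝ) ^ 2 + 2) * (2 * k), by linarith, fun p hp h2 => ?_⟩
  have hpos : (0 : ℝ) < p := by exact_mod_cast hp.pos
  have hp1 : (1 : ℝ) ≤ p := by exact_mod_cast hp.one_lt.le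
  by_cases hlt : p ≤ p0
  · -- small primes
    have hle : (p : ℝ) ≤ p0 := by exact_mod_cast hlt
    have hvl := vv_low' hp h2 k
    have hv0 := vv_pos hp h2 k
    have key : ∀ x : ℝ, 0 ≤ x → x ≤ 1 → |x / vv k p - 1| ≤ 5 * (p0 : ℝ) := by
      intro x hx0 hx1
      have h3 : x / vv k p ≤ 4 * p := by
        rw [div_le_iff₀ hv0]
        have h4 : 1 ≤ 4 * (p : ℝ) * vv k p := by
          have := mul_le_mul_of_nonneg_left hvl (by positivity : (0 : ℝ) ≤ 4 * p)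
          rwa [mul_one_div_cancel (by positivity)] at this
        linarith
      have h5 : 0 ≤ x / vv k p := by positivity
      rw [abs_le]
      constructor <;> linarith
    have h6 : 5 * (p0 : ℝ) ≤
        (5 * (p0 : ℝ) ^ 3 + 4 * ((k : ℝ) ^ 2 + 2) * (2 * k)) / (p : ℝ) ^ 2 := by
      rw [le_div_iff₀ (by positivity)]
      have h7 : (p : ℝ) ^ 2 ≤ (p0 : ℝ) ^ 2 := pow_le_pow_left₀ hpos.le hle 2
      have h8 : 5 * (p0 : ℝ) * (p : ℝ) ^ 2 ≤ 5 * (p0 : ℝ) * (p0 : ℝ) ^ 2 :=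
        mul_le_mul_of_nonneg_left h7 (by positivity)
      have h9 : 5 * (p0 : ℝ) * (p0 : ℝ) ^ 2 = 5 * (p0 : ℝ) ^ 3 := by ring
      linarith
    have h10 : (5 * (p0 : ℝ) ^ 3 + 4 * ((k : ℝ) ^ 2 + 2) * (2 * k)) / (p : ℝ) ^ 2 ≤
        (5 * (p0 : ℝ) ^ 3 + 4 * ((k : ℝ) ^ 2 + 2) * (2 * k)) / p := by
      apply div_le_div_of_nonneg_left (by linarith) hpos
      nlinarith
    refine ⟨fun b => ?_, fun b b' => ?_, fun b _ => ?_, fun b b' _ => ?_⟩
    · exact (key _ (Ub_nonneg k p b) (Ub_le_one k p b)).trans (h6.trans h10)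
    · exact (key _ (U_nonneg k p b b') (U_le_one k p b b')).trans (h6.trans h10)
    · exact (key _ (Ub_nonneg k p b) (Ub_le_one k p b)).trans h6
    · exact (key _ (U_nonneg k p b b') (U_le_one k p b b')).trans h6
  · -- large primes
    push Not at hlt
    have hpk : 2 ^ k < p := by omega
    have h4k : 4 * (k : ℝ) ≤ p := by
      have h2k : 0 < 2 ^ k := Nat.two_pow_pos k
      have : 4 * k ≤ p := by omega
      exact_mod_cast this
    have hhalf : 2 * (k : ℝ) / p ≤ 1 / 2 := by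
      rw [div_le_iff₀ hpos]; linarith
    have hvl := vv_low hp k
    have hv1 := vv_le_one k p
    have hvh : 1 / 2 ≤ vv k p := by linarith
    have hC2 : 2 * (2 * (k : ℝ) / p) ≤
        (5 * (p0 : ℝ) ^ 3 + 4 * ((k : ℝ) ^ 2 + 2) * (2 * k)) / p := by
      rw [show 2 * (2 * (k : ℝ) / p) = (4 * k) / p by ring]
      apply div_le_div_of_nonneg_right _ hpos.le
      nlinarith [sq_nonneg (k : ℝ)]
    have hC3 : 2 * ((k ^ 2 + 2) * (2 * (k : ℝ)) / (p : ℝ) ^ 2) ≤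
        (5 * (p0 : ℝ) ^ 3 + 4 * ((k : ℝ) ^ 2 + 2) * (2 * k)) / (p : ℝ) ^ 2 := by
      rw [← mul_div_assoc]
      apply div_le_div_of_nonneg_right _ (by positivity)
      nlinarith [sq_nonneg (k : ℝ)]
    have hsm : ((k : ℝ) ^ 2 + 1) * (2 * k) / (p : ℝ) ^ 2 ≤
        ((k : ℝ) ^ 2 + 2) * (2 * k) / (p : ℝ) ^ 2 := by
      apply div_le_div_of_nonneg_right _ (by positivity)
      nlinarith
    have hnn : (0 : ℝ) ≤ ((k : ℝ) ^ 2 + 2) * (2 * k) / (p : ℝ) ^ 2 := by positivity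
    have hvg := vv_gen hp h2 hk hpk
    refine ⟨fun b => ?_, fun b b' => ?_, fun b hb => ?_, fun b b' hb => ?_⟩
    · refine (LocB_rel (m := 1 - 2 * (k : ℝ) / p) (q := 2 * (k : ℝ) / p) hvh (Ub_low hp k b)
        ?_ hvl ?_).trans hC2
      · have := Ub_le_one k p b; linarith
      · linarith
    · refine (LocB_rel (m := 1 - 2 * (k : ℝ) / p) (q := 2 * (k : ℝ) / p) hvh (U_low hp k b b')
        ?_ hvl ?_).trans hC2
      · have := U_le_one k p b b'; linarith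
      · linarith
    · refine (LocB_rel (m := 1 - 2 * (k : ℝ) / p)
        (q := ((k : ℝ) ^ 2 + 2) * (2 * k) / (p : ℝ) ^ 2) hvh (Ub_low hp k b) ?_ hvl hvg).trans hC3
      have := Ub_gen hp h2 hk hpk hb
      linarith
    · refine (LocB_rel (m := 1 - 2 * (k : ℝ) / p)
        (q := ((k : ℝ) ^ 2 + 2) * (2 * k) / (p : ℝ) ^ 2) hvh (U_low hp k b b') ?_ hvl hvg).trans hC3
      rw [U_gen hp h2 hpk hb]
      linarith

end Pool.Agent.RSC
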