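import Pool.Agent.RSC.LocA

/-!
# RSC / LocG: the local densities `g`

Let `p` be an odd prime (so `2` is invertible modulo `p`).

* `g_low`: for fixed `a` the number of `b < p` with `W k p a b = 0` is at most `k` (for every `i` exactly one
  `b < p` satisfies `2^i b ≡ a + 1`). So `∑_b (1 - W k p a b) ≤ k`, i.e. `g ≥ 1 - k/p`.
* `g_pos`: if `a + 1 = 0` modulo `p` then `W k p a b = 0` iff `b = 0` modulo `p` (if `k ≥ 1`), so `g = 1 - 1/p > 0`. If
  `a + 1 ≠ 0` modulo `p` then `W k p a 0 = 1`, so `g ≥ 1/p > 0`. (`k = 0`: `W = 1`.)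
* `g_zero`, `g_gen`: `p > 2^k`, the classes of `2^i`, `1 ≤ i ≤ k`, are distinct modulo `p` (`0 < |2^i - 2^j| < 2^k < p`),
  so for `a + 1 ≠ 0` modulo `p` exactly `k` values of `b < p` are excluded.
* `vv_low'`: for `a = p - 1` one has `g ≥ 1 - 1/p ≥ 1/2`, so `vv ≥ 1/(4p)`.
* `e1_sum`, `e2_sum`: by `Ub_avg` and `vv_avg`, `vv_pos`.
-/

namespace Pool.Agent.RSC

open Finset

variable {p : ℕ}

/-- the excluded classes -/
private def lgZ (k p a : ℕ) : Finset ℕ :=
  (range p).filter (fun b => ∃ i ∈ Icc 1 k, 2 ^ i * b ≡ a + 1 [MOD p])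

private theorem lg_W (k p a b : ℕ) (hb : b ∈ range p) :
    W k p a b = 1 - (if b ∈ lgZ k p a then (1 : ℝ) else 0) := by
  unfold W lgZ
  by_cases h : ∃ i ∈ Icc 1 k, 2 ^ i * b ≡ a + 1 [MOD p]
  · rw [if_neg, if_pos (mem_filter.2 ⟨hb, h⟩), sub_self]
    obtain ⟨i, hi, h1⟩ := h
    exact fun h2 => h2 i hi h1
  · rw [if_pos, if_neg, sub_zero]
    · rw [mem_filter]
      exact fun h1 => h h1.2
    · intro i hi h1
      exact h ⟨i, hi, h1⟩

private theorem lg_g (hp : p.Prime) (k a : ℕ) : g k p a = 1 - ((lgZ k p a).card : ℝ) / p := by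
  have hp0 : (p : ℝ) ≠ 0 := by exact_mod_cast hp.ne_zero
  unfold g
  rw [sum_congr rfl (fun b hb => lg_W k p a b hb), sum_sub_distrib, sum_const, card_range,
    nsmul_eq_mul, mul_one, ← sum_filter, sum_const, nsmul_eq_mul, mul_one]
  have h1 : (range p).filter (fun b => b ∈ lgZ k p a) = lgZ k p a := by
    ext b
    rw [mem_filter]
    exact ⟨fun h => h.2, fun h => ⟨(mem_filter.1 h).1, h⟩⟩
  rw [h1, sub_div, div_self hp0]

private theorem lg_cop (hp : p.Prime) (h2 : p ≠ 2) (i : ℕ) : Nat.Coprime p (2 ^ i) := by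
  apply Nat.Coprime.pow_right
  rw [Nat.coprime_primes hp Nat.prime_two]
  exact h2

private theorem lg_inj (hp : p.Prime) (h2 : p ≠ 2) {i b b' x : ℕ} (hb : b < p) (hb' : b' < p)
    (h : 2 ^ i * b ≡ x [MOD p]) (h' : 2 ^ i * b' ≡ x [MOD p]) : b = b' := by
  have h3 := Nat.ModEq.cancel_left_of_coprime (lg_cop hp h2 i) (h.trans h'.symm)
  unfold Nat.ModEq at h3
  rwa [Nat.mod_eq_of_lt hb, Nat.mod_eq_of_lt hb'] at h3

private theorem lg_card (hp : p.Prime) (h2 : p ≠ 2) (k a : ℕ) : (lgZ k p a).card ≤ k := by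
  have h1 : lgZ k p a ⊆ (Icc 1 k).biUnion
      (fun i => (range p).filter (fun b => 2 ^ i * b ≡ a + 1 [MOD p])) := by
    intro b hb
    unfold lgZ at hb
    rw [mem_filter] at hb
    obtain ⟨hb1, i, hi, hb2⟩ := hb
    exact mem_biUnion.2 ⟨i, hi, mem_filter.2 ⟨hb1, hb2⟩⟩
  refine (card_le_card h1).trans (card_biUnion_le.trans ?_)
  have h3 : ∀ i ∈ Icc 1 k, ((range p).filter (fun b => 2 ^ i * b ≡ a + 1 [MOD p])).card ≤ 1 := by
    intro i _
    rw [card_le_one]
    intro b hb b' hb'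
    rw [mem_filter, mem_range] at hb hb'
    exact lg_inj hp h2 hb.1 hb'.1 hb.2 hb'.2
  refine (sum_le_sum h3).trans ?_
  simp

theorem g_low (hp : p.Prime) (h2 : p ≠ 2) (k a : ℕ) : 1 - (k : ℝ) / p ≤ g k p a := by
  rw [lg_g hp]
  have h1 : ((lgZ k p a).card : ℝ) ≤ k := by exact_mod_cast lg_card hp h2 k a
  have hp0 : (0 : ℝ) < p := by exact_mod_cast hp.pos
  have h3 := div_le_div_of_nonneg_right h1 hp0.le
  linarith

private theorem lg_zero (hp : p.Prime) (h2 : p ≠ 2) {k a : ℕ} (hk : 1 ≤ k)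
    (ha : (a + 1) % p = 0) : lgZ k p a = {0} := by
  ext b
  unfold lgZ
  rw [mem_filter, mem_range, mem_singleton]
  have ha' : a + 1 ≡ 0 [MOD p] := by
    unfold Nat.ModEq
    rw [ha, Nat.zero_mod]
  constructor
  · rintro ⟨hb, i, -, h⟩
    exact lg_inj hp h2 hb hp.pos (h.trans ha') (by simp; rfl)
  · rintro rfl
    refine ⟨hp.pos, 1, mem_Icc.2 ⟨le_refl _, hk⟩, ?_⟩
    rw [mul_zero]
    exact ha'.symm

/-- only the class of `a` modulo `p` matters; the class `-1` -/
theorem g_zero (hp : p.Prime) (h2 : p ≠ 2) {k a : ℕ} (hk : 1 ≤ k) (ha : (a + 1) % p = 0) :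
    g k p a = 1 - 1 / (p : ℝ) := by
  rw [lg_g hp, lg_zero hp h2 hk ha, card_singleton, Nat.cast_one]

private theorem lg_k0 (hp : p.Prime) (a : ℕ) : g 0 p a = 1 := by
  rw [lg_g hp]
  have h1 : lgZ 0 p a = ∅ := by
    unfold lgZ
    rw [filter_eq_empty_iff]
    rintro b - ⟨i, hi, -⟩
    rw [mem_Icc] at hi
    omega
  rw [h1]
  simp

theorem g_pos (hp : p.Prime) (h2 : p ≠ 2) (k a : ℕ) : 0 < g k p a := by
  have hp0 : (0 : ℝ) < p := by exact_mod_cast hp.pos
  rcases Nat.eq_zero_or_pos k with rfl | hk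
  · rw [lg_k0 hp]
    exact one_pos
  by_cases ha : (a + 1) % p = 0
  · rw [g_zero hp h2 hk ha]
    have h1 : (1 : ℝ) < p := by exact_mod_cast hp.one_lt
    have h3 : 1 / (p : ℝ) < 1 := by
      rw [div_lt_one hp0]
      exact h1
    linarith
  · rw [lg_g hp]
    have h1 : lgZ k p a ⊆ (range p).erase 0 := by
      intro b hb
      unfold lgZ at hb
      rw [mem_filter] at hb
      obtain ⟨hb1, i, -, hb2⟩ := hb
      refine mem_erase.2 ⟨?_, hb1⟩
      rintro rfl
      rw [mul_zero] at hb2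
      unfold Nat.ModEq at hb2
      rw [Nat.zero_mod] at hb2
      exact ha hb2.symm
    have h3 := card_le_card h1
    rw [card_erase_of_mem (mem_range.2 hp.pos), card_range] at h3
    have h4 : ((lgZ k p a).card : ℝ) < p := by
      have := hp.pos
      exact_mod_cast (show (lgZ k p a).card < p by omega)
    have h5 : ((lgZ k p a).card : ℝ) / p < 1 := by
      rw [div_lt_one hp0]
      exact h4
    linarith

/-- the other classes, large primes -/
theorem g_gen (hp : p.Prime) {k a : ℕ} (hk : 1 ≤ k) (hpk : 2 ^ k < p) (ha : (a + 1) % p ≠ 0) :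
    g k p a = 1 - (k : ℝ) / p := by
  have h2k : 2 ≤ 2 ^ k := by
    calc 2 = 2 ^ 1 := by norm_num
      _ ≤ 2 ^ k := Nat.pow_le_pow_right (by norm_num) hk
  have h2 : p ≠ 2 := by omega
  have hfact : Fact p.Prime := ⟨hp⟩
  rw [lg_g hp]
  have hcard : (lgZ k p a).card = k := by
    apply le_antisymm (lg_card hp h2 k a)
    have h20 : ∀ i : ℕ, ((2 : ZMod p) ^ i) ≠ 0 := by
      intro i
      apply pow_ne_zero
      intro h
      have h3 : ((2 : ℕ) : ZMod p) = 0 := by exact_mod_cast h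
      rw [ZMod.natCast_eq_zero_iff] at h3
      have := Nat.le_of_dvd (by norm_num) h3
      omega
    have ha0 : ((a + 1 : ℕ) : ZMod p) ≠ 0 := by
      intro h
      rw [ZMod.natCast_eq_zero_iff] at h
      exact ha (Nat.mod_eq_zero_of_dvd h)
    let φ : ℕ → ℕ := fun i => (((a + 1 : ℕ) : ZMod p) * ((2 : ZMod p) ^ i)⁻¹).val
    have hφ : ∀ i, (2 : ZMod p) ^ i * (φ i : ZMod p) = ((a + 1 : ℕ) : ZMod p) := by
      intro i
      simp only [φ]
      rw [ZMod.natCast_val, ZMod.cast_id, mul_comm, mul_assoc, inv_mul_cancel₀ (h20 i), mul_one]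
    have h3 : (Icc 1 k).image φ ⊆ lgZ k p a := by
      intro b hb
      rw [mem_image] at hb
      obtain ⟨i, hi, rfl⟩ := hb
      unfold lgZ
      rw [mem_filter, mem_range]
      refine ⟨ZMod.val_lt _, i, hi, ?_⟩
      rw [← ZMod.natCast_eq_natCast_iff]
      have := hφ i
      push_cast at this ⊢
      exact this
    have h4 : ((Icc 1 k).image φ).card = k := by
      rw [card_image_of_injOn, Nat.card_Icc, Nat.add_sub_cancel]
      have key : ∀ i j : ℕ, i < j → j ≤ k → φ i ≠ φ j := by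
        intro i j hij hj h
        have h5 := hφ i
        have h6 := hφ j
        rw [h] at h5
        have h7 : ((2 : ZMod p) ^ i - (2 : ZMod p) ^ j) * (φ j : ZMod p) = 0 := by
          rw [sub_mul, h5, h6, sub_self]
        rcases mul_eq_zero.1 h7 with h8 | h8
        · have h9 : ((2 ^ i : ℕ) : ZMod p) = ((2 ^ j : ℕ) : ZMod p) := by
            push_cast
            exact sub_eq_zero.1 h8
          rw [ZMod.natCast_eq_natCast_iff] at h9
          unfold Nat.ModEq at h9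
          have h10 : 2 ^ i < p := lt_of_le_of_lt (Nat.pow_le_pow_right (by norm_num) (by omega)) hpk
          have h11 : 2 ^ j < p := lt_of_le_of_lt (Nat.pow_le_pow_right (by norm_num) hj) hpk
          rw [Nat.mod_eq_of_lt h10, Nat.mod_eq_of_lt h11] at h9
          have := Nat.pow_right_injective (le_refl 2) h9
          omega
        · rw [h8, mul_zero] at h6
          exact ha0 h6.symm
      intro i hi j hj hij
      have hi' := (mem_Icc.1 (mem_coe.1 hi)).2
      have hj' := (mem_Icc.1 (mem_coe.1 hj)).2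
      rcases lt_trichotomy i j with h | h | h
      · exact absurd hij (key i j h hj')
      · exact h
      · exact absurd hij.symm (key j i h hi')
    exact h4.symm.le.trans (card_le_card h3)
  rw [hcard]

private theorem lg_half (hp : p.Prime) (h2 : p ≠ 2) (k : ℕ) : 1 / 2 ≤ g k p (p - 1) := by
  rcases Nat.eq_zero_or_pos k with rfl | hk
  · rw [lg_k0 hp]
    norm_num
  · rw [g_zero hp h2 hk (by rw [Nat.sub_add_cancel hp.pos, Nat.mod_self])]
    have h3 : (2 : ℝ) ≤ p := by exact_mod_cast hp.two_le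
    have h4 : 1 / (p : ℝ) ≤ 1 / 2 := one_div_le_one_div_of_le (by norm_num) h3
    linarith

theorem vv_low' (hp : p.Prime) (h2 : p ≠ 2) (k : ℕ) : 1 / (4 * (p : ℝ)) ≤ vv k p := by
  have hp0 : (0 : ℝ) < p := by exact_mod_cast hp.pos
  unfold vv
  have h1 : g k p (p - 1) ^ 2 ≤ ∑ a ∈ range p, g k p a ^ 2 :=
    single_le_sum (f := fun a => g k p a ^ 2) (fun a _ => sq_nonneg _)
      (mem_range.2 (Nat.sub_lt hp.pos one_pos))
  have h3 := lg_half hp h2 k
  have h4 : (1 : ℝ) / 4 ≤ ∑ a ∈ range p, g k p a ^ 2 := by nlinarith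
  calc 1 / (4 * (p : ℝ)) = (1 / 4) / p := by rw [div_div]
    _ ≤ _ := div_le_div_of_nonneg_right h4 hp0.le

theorem vv_pos (hp : p.Prime) (h2 : p ≠ 2) (k : ℕ) : 0 < vv k p := by
  have hp0 : (0 : ℝ) < p := by exact_mod_cast hp.pos
  exact lt_of_lt_of_le (by positivity) (vv_low' hp h2 k)

theorem e1_sum (hp : p.Prime) (h2 : p ≠ 2) (k : ℕ) : ∑ b ∈ range p, e1 k p b = 0 := by
  have hp0 : (p : ℝ) ≠ 0 := by exact_mod_cast hp.ne_zero
  have hv := (vv_pos hp h2 k).ne'
  have h1 := vv_avg k p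
  rw [eq_div_iff hp0] at h1
  unfold e1
  rw [sum_sub_distrib, ← sum_div, ← h1, sum_const, card_range, nsmul_eq_mul, mul_one,
    mul_comm, mul_div_assoc, div_self hv, mul_one, sub_self]

theorem e2_sum (hp : p.Prime) (h2 : p ≠ 2) (k : ℕ) :
    ∑ b ∈ range p, ∑ b' ∈ range p, e2 k p b b' = 0 := by
  have hp0 : (p : ℝ) ≠ 0 := by exact_mod_cast hp.ne_zero
  have h1 : ∀ b ∈ range p, ∑ b' ∈ range p, e2 k p b b' = p * e1 k p b := by
    intro b _
    have h3 := Ub_avg k p b
    rw [eq_div_iff hp0] at h3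
    unfold e2 e1
    rw [sum_sub_distrib, ← sum_div, ← h3, sum_const, card_range, nsmul_eq_mul, mul_one]
    ring
  rw [sum_congr rfl h1, ← mul_sum, e1_sum hp h2, mul_zero]

end Pool.Agent.RSC
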