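import Pool.Agent.RSC.Prob

/-!
# RSC / Sing: the singular product converges

`sing_det`: for `y ≥ 2`, `th y = (1/2) ∏_{p ∈ oddP y} (1 - 1/p)`, so
`GG k (oddP y) a / th y ^ k = 2^k ∏_{p ∈ oddP y} r p` with `r p = g k p (a p) / (1 - 1/p)^k > 0` (`g_pos`). For `p > 2^k`:
if `(a p + 1) % p ≠ 0` then `r p = (1 - k/p)/(1 - 1/p)^k` (`g_gen`), `|r p - 1| ≤ C/p^2`; if `(a p + 1) % p = 0` then
`r p = (1 - 1/p)^(1 - k)` (`g_zero`), `0 ≤ r p - 1 ≤ C/p`. So `∑_p |r p - 1| < ∞` by the hypothesis, and an infinite product of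
positive factors `r p` with `∑ |r p - 1| < ∞` converges to a positive number (`∑ |log r p| < ∞`: the partial sums of
`log (r p)` converge; exponentiate). Extend `r` by `1` at the numbers which are not odd primes.

`sing_ae`: `E ∑_p [a p + 1 = 0 mod p] / p = ∑_p μ {a p = p - 1} / p = ∑_p 1/p^2 < ∞` (a.s. `a p < p`, `a_lt`, so
`(a p + 1) % p = 0` iff `a p = p - 1`). A sum of nonnegative functions with finite expectation is a.s. finite
(`lintegral_tsum`, `ae_lt_top`, or `MeasureTheory.hasSum_integral_of_summable_integral_norm` type lemmas). The primes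
`p` in the sum may include `2`.
-/

namespace Pool.Agent.RSC

open Finset MeasureTheory ProbabilityTheory Filter

/-- upper Bonferroni bound for `(1 - x)^k` -/
theorem sing_pow_le (k : ℕ) {x : ℝ} (h0 : 0 ≤ x) (h1 : x ≤ 1) :
    (1 - x) ^ k ≤ 1 - k * x + k ^ 2 * x ^ 2 := by
  induction k with
  | zero => simp
  | succ k ih =>
    have h2 : 0 ≤ 1 - x := by linarith
    have h3 : 0 ≤ (k : ℝ) := Nat.cast_nonneg k
    have h4 : 0 ≤ (k : ℝ) ^ 2 * x ^ 3 := by positivity
    have h5 : 0 ≤ (k : ℝ) * x ^ 2 := by positivity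
    rw [pow_succ]
    push_cast
    nlinarith [mul_le_mul_of_nonneg_right ih h2, sq_nonneg x]

/-- Bernoulli -/
theorem sing_le_pow (k : ℕ) {x : ℝ} (h1 : x ≤ 1) : 1 - k * x ≤ (1 - x) ^ k := by
  have := one_add_mul_le_pow (a := -x) (by linarith) k
  calc 1 - k * x = 1 + (k : ℝ) * (-x) := by ring
    _ ≤ (1 + -x) ^ k := this
    _ = (1 - x) ^ k := by ring

theorem sing_two_pow (k : ℕ) {x : ℝ} (h1 : x ≤ 1 / 2) : 1 ≤ 2 ^ k * (1 - x) ^ k := by
  rw [← mul_pow]
  exact one_le_pow₀ (by linarith)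

open Classical in
/-- the local factors -/
noncomputable def singR (k : ℕ) (a : ℕ → ℕ) (p : ℕ) : ℝ :=
  if p.Prime ∧ p ≠ 2 then g k p (a p) / (1 - 1 / (p : ℝ)) ^ k else 1

theorem singR_pos (k : ℕ) (a : ℕ → ℕ) (p : ℕ) : 0 < singR k a p := by
  unfold singR
  split_ifs with h
  · have hp1 : (1 : ℝ) < p := by exact_mod_cast h.1.one_lt
    have : 0 < 1 - 1 / (p : ℝ) := by
      rw [sub_pos, div_lt_one (by linarith)]
      exact hp1
    exact div_pos (g_pos h.1 h.2 k (a p)) (pow_pos this k)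
  · exact one_pos

open Classical in
theorem sing_bound (k : ℕ) (hk : 1 ≤ k) (a : ℕ → ℕ) (p : ℕ) (hp : 2 ^ k < p) :
    ‖singR k a p - 1‖ ≤ 2 ^ k * k ^ 2 * (1 / (p : ℝ) ^ 2) +
      2 ^ k * k * (if p.Prime ∧ (a p + 1) % p = 0 then 1 / (p : ℝ) else 0) := by
  have hn1 : 0 ≤ 2 ^ k * (k : ℝ) ^ 2 * (1 / (p : ℝ) ^ 2) := by positivity
  have hn2 : 0 ≤ 2 ^ k * (k : ℝ) * (if p.Prime ∧ (a p + 1) % p = 0 then 1 / (p : ℝ) else 0) := by
    split_ifs <;> positivity
  by_cases hpp : p.Prime ∧ p ≠ 2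
  swap
  · have : singR k a p = 1 := by
      unfold singR
      rw [if_neg hpp]
    rw [this, sub_self, norm_zero]
    linarith
  obtain ⟨hpr, hp2⟩ := hpp
  have hp0 : (0 : ℝ) < p := by exact_mod_cast hpr.pos
  have hp2' : (2 : ℝ) ≤ p := by exact_mod_cast hpr.two_le
  obtain ⟨x, hx⟩ : ∃ x : ℝ, x = 1 / (p : ℝ) := ⟨_, rfl⟩
  have hx0 : 0 < x := by rw [hx]; positivity
  have hx2 : x ≤ 1 / 2 := by
    rw [hx]
    exact one_div_le_one_div_of_le (by norm_num) hp2'
  have hx1 : x ≤ 1 := by linarith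
  have hq : 0 < (1 - x) ^ k := pow_pos (by linarith) k
  have hqi : 1 / (1 - x) ^ k ≤ 2 ^ k := by
    rw [div_le_iff₀ hq]
    exact sing_two_pow k hx2
  have hr : singR k a p = g k p (a p) / (1 - x) ^ k := by
    unfold singR
    rw [if_pos ⟨hpr, hp2⟩, hx]
  have hk0 : (0 : ℝ) ≤ k := Nat.cast_nonneg k
  have hk1 : (1 : ℝ) ≤ k := by exact_mod_cast hk
  have hkey : ∀ d : ℝ, 0 ≤ d → |g k p (a p) - (1 - x) ^ k| ≤ d →
      ‖singR k a p - 1‖ ≤ 2 ^ k * d := by
    intro d hd h
    have e : singR k a p - 1 = (g k p (a p) - (1 - x) ^ k) / (1 - x) ^ k := by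
      rw [hr]
      field_simp
    rw [e, Real.norm_eq_abs, abs_div, abs_of_pos hq]
    calc |g k p (a p) - (1 - x) ^ k| / (1 - x) ^ k = 1 / (1 - x) ^ k *
          |g k p (a p) - (1 - x) ^ k| := by ring
      _ ≤ 2 ^ k * d := mul_le_mul hqi h (abs_nonneg _) (by positivity)
  by_cases h0 : (a p + 1) % p = 0
  · have hg : g k p (a p) = 1 - x := by rw [g_zero hpr hp2 hk h0, hx]
    have hd : |g k p (a p) - (1 - x) ^ k| ≤ k * x := by
      rw [hg]
      have h1 : (1 - x) ^ k ≤ 1 - x := by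
        calc (1 - x) ^ k ≤ (1 - x) ^ 1 :=
              pow_le_pow_of_le_one (by linarith) (by linarith) hk
          _ = 1 - x := pow_one _
      have h2 := sing_le_pow k hx1
      rw [abs_of_nonneg (by linarith)]
      linarith
    have h3 := hkey (k * x) (by positivity) hd
    rw [if_pos ⟨hpr, h0⟩, ← hx]
    linarith
  · have hg : g k p (a p) = 1 - k * x := by
      rw [g_gen hpr hk hp h0, hx]
      ring
    have hd : |g k p (a p) - (1 - x) ^ k| ≤ k ^ 2 * x ^ 2 := by
      rw [hg]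
      have h1 := sing_pow_le k hx0.le hx1
      have h2 := sing_le_pow k hx1
      rw [abs_sub_comm, abs_of_nonneg (by linarith)]
      linarith
    have h3 := hkey (k ^ 2 * x ^ 2) (by positivity) hd
    have e : (2 : ℝ) ^ k * (k ^ 2 * x ^ 2) = 2 ^ k * k ^ 2 * (1 / (p : ℝ) ^ 2) := by
      rw [hx]
      field_simp
    rw [e] at h3
    linarith

theorem sing_th {y : ℕ} (hy : 2 ≤ y) : th y = 1 / 2 * ∏ p ∈ oddP y, (1 - 1 / (p : ℝ)) := by
  have h : (range (y + 1)).filter Nat.Prime = insert 2 (oddP y) := by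
    ext p
    simp only [oddP, mem_filter, mem_range, mem_insert]
    constructor
    · rintro ⟨h1, h2⟩
      by_cases h3 : p = 2
      · exact Or.inl h3
      · exact Or.inr ⟨h1, h2, h3⟩
    · rintro (rfl | ⟨h1, h2, -⟩)
      · exact ⟨by omega, Nat.prime_two⟩
      · exact ⟨h1, h2⟩
  unfold th
  rw [h, Finset.prod_insert (by simp [oddP])]
  norm_num

theorem sing_GG (k : ℕ) (a : ℕ → ℕ) {y : ℕ} (hy : 2 ≤ y) :
    GG k (oddP y) a / th y ^ k = 2 ^ k * ∏ p ∈ range (y + 1), singR k a p := by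
  have h1 : ∏ p ∈ range (y + 1), singR k a p = ∏ p ∈ oddP y, singR k a p := by
    refine (Finset.prod_subset (Finset.filter_subset _ _) fun p hp hp' => ?_).symm
    have : ¬ (p.Prime ∧ p ≠ 2) := fun h => hp' (Finset.mem_filter.mpr ⟨hp, h⟩)
    unfold singR
    rw [if_neg this]
  have h2 : ∏ p ∈ oddP y, singR k a p = GG k (oddP y) a / (∏ p ∈ oddP y, (1 - 1 / (p : ℝ))) ^ k := by
    unfold GG
    rw [← Finset.prod_pow, ← Finset.prod_div_distrib]
    refine Finset.prod_congr rfl fun p hp => ?_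
    have : p.Prime ∧ p ≠ 2 := by
      unfold oddP at hp
      exact (Finset.mem_filter.mp hp).2
    unfold singR
    rw [if_pos this]
  rw [h1, h2, sing_th hy, mul_pow, one_div_pow]
  field_simp

open Classical in
theorem sing_det (k : ℕ) (hk : 1 ≤ k) (a : ℕ → ℕ)
    (h : Summable (fun p : ℕ => if p.Prime ∧ (a p + 1) % p = 0 then 1 / (p : ℝ) else 0)) :
    ∃ Φ : ℝ, 0 < Φ ∧
      Tendsto (fun y => GG k (oddP y) a / th y ^ k) atTop (nhds Φ) := by
  have hs : Summable (fun p => singR k a p - 1) := by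
    refine Summable.of_norm_bounded_eventually_nat
      (g := fun p : ℕ => 2 ^ k * k ^ 2 * (1 / (p : ℝ) ^ 2) +
        2 ^ k * k * (if p.Prime ∧ (a p + 1) % p = 0 then 1 / (p : ℝ) else 0)) ?_ ?_
    · exact ((Real.summable_one_div_nat_pow.mpr (by norm_num)).mul_left _).add (h.mul_left _)
    · filter_upwards [eventually_gt_atTop (2 ^ k)] with p hp
      exact sing_bound k hk a p hp
  have hl : Summable (fun p => Real.log (singR k a p)) := by
    have := Real.summable_log_one_add_of_summable hs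
    simpa using this
  refine ⟨2 ^ k * Real.exp (∑' p, Real.log (singR k a p)), by positivity, ?_⟩
  have h1 : Tendsto (fun n : ℕ => ∑ p ∈ range n, Real.log (singR k a p)) atTop
      (nhds (∑' p, Real.log (singR k a p))) := hl.hasSum.tendsto_sum_nat
  have h2 : Tendsto (fun n : ℕ => ∏ p ∈ range n, singR k a p) atTop
      (nhds (Real.exp (∑' p, Real.log (singR k a p)))) := by
    refine ((Real.continuous_exp.tendsto _).comp h1).congr fun n => ?_
    rw [Function.comp_apply, Real.exp_sum]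
    exact Finset.prod_congr rfl fun p _ => Real.exp_log (singR_pos k a p)
  have h3 := ((h2.comp (tendsto_add_atTop_nat 1)).const_mul ((2 : ℝ) ^ k))
  refine h3.congr' ?_
  filter_upwards [eventually_ge_atTop 2] with y hy
  rw [sing_GG k a hy]
  rfl

variable {Ω : Type*} [MeasurableSpace Ω] {μ : Measure Ω} [IsProbabilityMeasure μ] {a : ℕ → Ω → ℕ}

open Classical in
theorem sing_ae (h : Unif μ a) : ∀ᵐ ω ∂μ,
    Summable (fun p : ℕ => if p.Prime ∧ (a p ω + 1) % p = 0 then 1 / (p : ℝ) else 0) := by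
  obtain ⟨F, hF⟩ : ∃ F : ℕ → Ω → ℝ, F = fun p ω =>
    if p.Prime ∧ (a p ω + 1) % p = 0 then 1 / (p : ℝ) else 0 := ⟨_, rfl⟩
  have hnn : ∀ p ω, 0 ≤ F p ω := by
    intro p ω
    rw [hF]
    simp only
    split_ifs <;> positivity
  have hmeas : ∀ p, Measurable (F p) := by
    intro p
    by_cases hp : p.Prime
    · have : F p = (fun j : ℕ => if p.Prime ∧ (j + 1) % p = 0 then 1 / (p : ℝ) else 0) ∘ a p := by
        rw [hF]
        rfl
      rw [this]
      exact (measurable_of_countable _).comp (h.meas p hp)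
    · have : F p = fun _ => 0 := by
        funext ω
        rw [hF]
        simp [hp]
      rw [this]
      exact measurable_const
  have hint : ∀ p : ℕ, ∫⁻ ω, ENNReal.ofReal (F p ω) ∂μ ≤ ENNReal.ofReal (1 / (p : ℝ) ^ 2) := by
    intro p
    by_cases hp : p.Prime
    · have hms : MeasurableSet {ω | a p ω = p - 1} :=
        (h.meas p hp) (MeasurableSet.singleton (p - 1))
      have hle : ∀ᵐ ω ∂μ, ENNReal.ofReal (F p ω) ≤
          Set.indicator {ω | a p ω = p - 1} (fun _ => ENNReal.ofReal (1 / (p : ℝ))) ω := by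
        filter_upwards [a_lt h] with ω hω
        have hlt := hω p hp
        by_cases hc : (a p ω + 1) % p = 0
        · have he : a p ω = p - 1 := by
            have hd : p ∣ a p ω + 1 := Nat.dvd_of_mod_eq_zero hc
            have := Nat.le_of_dvd (by omega) hd
            omega
          rw [Set.indicator_of_mem (show ω ∈ {ω | a p ω = p - 1} from he)]
          refine ENNReal.ofReal_le_ofReal ?_
          rw [hF]
          simp only
          rw [if_pos ⟨hp, hc⟩]
        · have : F p ω = 0 := by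
            rw [hF]
            simp only
            rw [if_neg fun h' => hc h'.2]
          rw [this, ENNReal.ofReal_zero]
          exact zero_le
      refine (lintegral_mono_ae hle).trans ?_
      rw [lintegral_indicator_const hms]
      have hm : μ {ω | a p ω = p - 1} = ENNReal.ofReal (1 / (p : ℝ)) := by
        have h1 := h.unif p hp (p - 1) (by have := hp.pos; omega)
        rw [← h1, Measure.real, ENNReal.ofReal_toReal (measure_ne_top μ _)]
      rw [hm, ← ENNReal.ofReal_mul (by positivity)]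
      refine ENNReal.ofReal_le_ofReal (le_of_eq ?_)
      rw [div_mul_div_comm, one_mul, sq]
    · have : ∀ ω, F p ω = 0 := by
        intro ω
        rw [hF]
        simp [hp]
      simp [this]
  have hsum : ∫⁻ ω, ∑' p, ENNReal.ofReal (F p ω) ∂μ < ⊤ := by
    rw [lintegral_tsum fun p => ((hmeas p).ennreal_ofReal).aemeasurable]
    refine lt_of_le_of_lt (ENNReal.tsum_le_tsum hint) ?_
    exact (Real.summable_one_div_nat_pow.mpr (by norm_num)).tsum_ofReal_lt_top
  have hae := ae_lt_top (Measurable.tsum fun p => (hmeas p).ennreal_ofReal) hsum.ne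
  filter_upwards [hae] with ω hω
  have h1 := ENNReal.summable_toReal hω.ne
  have h2 : (fun p => (ENNReal.ofReal (F p ω)).toReal) = fun p => F p ω :=
    funext fun p => ENNReal.toReal_ofReal (hnn p ω)
  rw [h2] at h1
  rw [hF] at h1
  exact h1

end Pool.Agent.RSC
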