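import Pool.Agent.RSC.BC
import Pool.Agent.RSC.Sing
import Pool.Agent.RSC.Fin

/-!
# RSC / Main: almost surely every exact length occurs, with the expected asymptotics
-/

namespace Pool.Agent.RSC

open Finset Filter MeasureTheory ProbabilityTheory

variable {Ω : Type*} [MeasurableSpace Ω] {μ : Measure Ω} [IsProbabilityMeasure μ] {a : ℕ → Ω → ℕ}

open Classical in
theorem main_ge (h : Unif μ a) (k : ℕ) (hk : 1 ≤ k) : ∀ᵐ ω ∂μ, ∃ c : ℝ, 0 < c ∧
    Tendsto (fun x : ℕ => (((Icc 1 x).filter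
      (fun n => ∀ i < k, ch i n ∈ RS (fun p => a p ω))).card : ℝ) *
      Real.log x ^ k / x) atTop (nhds c) := by
  filter_upwards [a_lt h, sing_ae h, bc h k hk (fun j => yy (2 * j ^ 128 - 1)),
    bc h k hk (fun j => yy (2 ^ k * (j + 1) ^ 128))] with ω h1 h2 h3 h4
  obtain ⟨Φ, hΦ, h5⟩ := sing_det k hk (fun p => a p ω) h2
  refine ⟨Φ / 2, by positivity, ?_⟩
  exact atLeast k hk _ (sumA k _ (asym k hk _ h1 h5 h3 h4))

open Classical in
theorem main (h : Unif μ a) : ∀ᵐ ω ∂μ, ∀ k : ℕ, 1 ≤ k → ∃ c : ℝ, 0 < c ∧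
    Tendsto (fun x : ℕ => (((Icc 1 x).filter
      (fun n => (∀ i < k, ch i n ∈ RS (fun p => a p ω)) ∧ ch k n ∉ RS (fun p => a p ω))).card : ℝ) *
      Real.log x ^ k / x) atTop (nhds c) := by
  have h1 : ∀ k : ℕ, ∀ᵐ ω ∂μ, 1 ≤ k → ∃ c : ℝ, 0 < c ∧
    Tendsto (fun x : ℕ => (((Icc 1 x).filter
      (fun n => ∀ i < k, ch i n ∈ RS (fun p => a p ω))).card : ℝ) *
      Real.log x ^ k / x) atTop (nhds c) := by
    intro k
    rcases Nat.lt_or_ge k 1 with hk | hk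
    · exact Eventually.of_forall fun ω h' => absurd h' (by omega)
    · filter_upwards [main_ge h k hk] with ω hω _
      exact hω
  filter_upwards [ae_all_iff.2 h1] with ω hω k hk
  obtain ⟨c, hc, h2⟩ := hω k hk
  obtain ⟨c', _, h3⟩ := hω (k + 1) (by omega)
  exact ⟨c, hc, exact_len k hk _ h2 h3⟩

end Pool.Agent.RSC
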