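import Mathlib

/-!
# RSC / PP: products and sums over primes

`omega_le`: let `L = (1 + K)^(1/ε)`. `(1 + K)^ω(n) = ∏_{p ∣ n} (1 + K)`; a prime `p > L` satisfies `1 + K ≤ p^ε`, and the
primes `p ≤ L` contribute at most `(1 + K)^(number of primes ≤ L)`; finally `∏_{p ∣ n} p^ε ≤ n^ε` (`∏_{p ∣ n} p ∣ n`). Constant
`C = (1 + K)^(⌊L⌋ + 1)`.

`prod32`: `∏ (1 + x) ≤ exp (∑ x)` and `∑ p^(-3/2)` converges.

`sum_pow`: `T ↦ ∏ T` is injective on finite sets of primes (the prime factors of `∏ T` are the elements of `T`), `∏ T` is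
squarefree, with `card T` prime factors, so `K^(card T) ≤ (1 + K)^ω(∏ T) ≤ C (∏ T)^1 ≤ C D` (`omega_le` with `ε = 1`), and there
are at most `D` numbers `∏ T ≤ D` (`≥ 1`).
-/

namespace Pool.Agent.RSC

open Finset

theorem omega_le {K ε : ℝ} (hK : 0 ≤ K) (hε : 0 < ε) :
    ∃ C : ℝ, 1 ≤ C ∧ ∀ n : ℕ, n ≠ 0 → (1 + K) ^ n.primeFactors.card ≤ C * (n : ℝ) ^ ε := by
  set L : ℝ := (1 + K) ^ (1 / ε) with hL
  have h1K : 1 ≤ 1 + K := by linarith
  have hL0 : 0 ≤ L := by positivity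
  have hLe : L ^ ε = 1 + K := by
    rw [hL, ← Real.rpow_mul (by linarith), one_div, inv_mul_cancel₀ hε.ne', Real.rpow_one]
  refine ⟨(1 + K) ^ (⌊L⌋₊ + 1), one_le_pow₀ h1K, fun n hn => ?_⟩
  have key : ∀ p ∈ n.primeFactors, (1 + K) ≤ (if (p : ℝ) ≤ L then 1 + K else 1) * (p : ℝ) ^ ε := by
    intro p hp
    have hp1 : (1 : ℝ) ≤ p := by exact_mod_cast (Nat.prime_of_mem_primeFactors hp).one_lt.le
    split_ifs with h
    · have : (1 : ℝ) ≤ (p : ℝ) ^ ε := Real.one_le_rpow hp1 hε.le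
      nlinarith
    · rw [one_mul, ← hLe]
      exact Real.rpow_le_rpow hL0 (not_le.1 h).le hε.le
  calc (1 + K) ^ n.primeFactors.card = ∏ _p ∈ n.primeFactors, (1 + K) := by rw [prod_const]
    _ ≤ ∏ p ∈ n.primeFactors, ((if (p : ℝ) ≤ L then 1 + K else 1) * (p : ℝ) ^ ε) :=
        prod_le_prod (fun _ _ => by linarith) key
    _ = (∏ p ∈ n.primeFactors, (if (p : ℝ) ≤ L then 1 + K else 1)) *
          ∏ p ∈ n.primeFactors, (p : ℝ) ^ ε := prod_mul_distrib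
    _ ≤ (1 + K) ^ (⌊L⌋₊ + 1) * (n : ℝ) ^ ε := by
        apply mul_le_mul
        · rw [← prod_filter, prod_const]
          apply pow_le_pow_right₀ h1K
          have : (n.primeFactors.filter (fun p : ℕ => (p : ℝ) ≤ L)) ⊆ range (⌊L⌋₊ + 1) := by
            intro p hp
            rw [mem_filter] at hp
            rw [mem_range]
            exact Nat.lt_succ_of_le (Nat.le_floor hp.2)
          calc _ ≤ (range (⌊L⌋₊ + 1)).card := card_le_card this
            _ = _ := card_range _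
        · have h2 : ∏ p ∈ n.primeFactors, (p : ℝ) ^ ε = ((∏ p ∈ n.primeFactors, p : ℕ) : ℝ) ^ ε := by
            push_cast
            rw [← Real.finsetProd_rpow _ _ (fun _ _ => by positivity)]
          rw [h2]
          apply Real.rpow_le_rpow (by positivity) _ hε.le
          exact_mod_cast Nat.le_of_dvd (Nat.pos_of_ne_zero hn) (Nat.prod_primeFactors_dvd n)
        · exact prod_nonneg fun _ _ => by positivity
        · positivity

theorem prod32 {K : ℝ} (hK : 0 ≤ K) :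
    ∃ C : ℝ, 1 ≤ C ∧ ∀ P : Finset ℕ, (∀ p ∈ P, 1 ≤ p) →
      ∏ p ∈ P, (1 + K * (p : ℝ) ^ (-(3 / 2) : ℝ)) ≤ C := by
  have hs : Summable fun n : ℕ => (n : ℝ) ^ (-(3 / 2) : ℝ) :=
    Real.summable_nat_rpow.2 (by norm_num)
  have hS : 0 ≤ ∑' n : ℕ, (n : ℝ) ^ (-(3 / 2) : ℝ) := tsum_nonneg fun _ => by positivity
  refine ⟨Real.exp (K * ∑' n : ℕ, (n : ℝ) ^ (-(3 / 2) : ℝ)),
    Real.one_le_exp (mul_nonneg hK hS), fun P _ => ?_⟩
  calc ∏ p ∈ P, (1 + K * (p : ℝ) ^ (-(3 / 2) : ℝ))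
      ≤ ∏ p ∈ P, Real.exp (K * (p : ℝ) ^ (-(3 / 2) : ℝ)) := by
        apply prod_le_prod (fun _ _ => by positivity)
        intro p _
        rw [add_comm]
        exact Real.add_one_le_exp _
    _ = Real.exp (K * ∑ p ∈ P, (p : ℝ) ^ (-(3 / 2) : ℝ)) := by
        rw [← Real.exp_sum, mul_sum]
    _ ≤ _ := by
        apply Real.exp_le_exp.2
        apply mul_le_mul_of_nonneg_left _ hK
        exact hs.sum_le_tsum _ (fun _ _ => by positivity)

theorem sum_pow {K : ℝ} (hK : 0 ≤ K) :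
    ∃ C : ℝ, 1 ≤ C ∧ ∀ P : Finset ℕ, (∀ p ∈ P, p.Prime) → ∀ D : ℝ, 1 ≤ D →
      ∑ T ∈ P.powerset.filter (fun T => ((∏ p ∈ T, p : ℕ) : ℝ) ≤ D), K ^ T.card ≤ C * D ^ 2 := by
  obtain ⟨C, hC, hb⟩ := omega_le hK one_pos
  refine ⟨C, hC, fun P hP D hD => ?_⟩
  have hD0 : 0 ≤ D := by linarith
  have hterm : ∀ T ∈ P.powerset.filter (fun T => ((∏ p ∈ T, p : ℕ) : ℝ) ≤ D),
      K ^ T.card ≤ C * D := by
    intro T hT
    rw [mem_filter, mem_powerset] at hT
    have hpr : ∀ p ∈ T, p.Prime := fun p hp => hP p (hT.1 hp)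
    have hne : (∏ p ∈ T, p) ≠ 0 := prod_ne_zero_iff.2 fun p hp => (hpr p hp).ne_zero
    have h1 := hb _ hne
    rw [Nat.primeFactors_prod hpr, Real.rpow_one] at h1
    calc K ^ T.card ≤ (1 + K) ^ T.card := pow_le_pow_left₀ hK (by linarith) _
      _ ≤ C * ((∏ p ∈ T, p : ℕ) : ℝ) := h1
      _ ≤ C * D := mul_le_mul_of_nonneg_left hT.2 (by linarith)
  have hcard : (P.powerset.filter (fun T => ((∏ p ∈ T, p : ℕ) : ℝ) ≤ D)).card ≤ ⌊D⌋₊ := by
    have : (P.powerset.filter (fun T => ((∏ p ∈ T, p : ℕ) : ℝ) ≤ D)).card ≤ (Icc 1 ⌊D⌋₊).card := by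
      apply card_le_card_of_injOn (fun T => ∏ p ∈ T, p)
      · intro T hT
        rw [mem_coe, mem_filter, mem_powerset] at hT
        have hpr : ∀ p ∈ T, p.Prime := fun p hp => hP p (hT.1 hp)
        have hne : (∏ p ∈ T, p) ≠ 0 := prod_ne_zero_iff.2 fun p hp => (hpr p hp).ne_zero
        exact mem_coe.2 (mem_Icc.2 ⟨Nat.pos_of_ne_zero hne, Nat.le_floor hT.2⟩)
      · intro T hT T' hT' h
        rw [mem_coe, mem_filter, mem_powerset] at hT hT'
        have h1 : (∏ p ∈ T, p).primeFactors = T := Nat.primeFactors_prod fun p hp => hP p (hT.1 hp)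
        have h2 : (∏ p ∈ T', p).primeFactors = T' :=
          Nat.primeFactors_prod fun p hp => hP p (hT'.1 hp)
        simp only at h
        rw [← h1, ← h2, h]
    simpa using this
  calc ∑ T ∈ P.powerset.filter (fun T => ((∏ p ∈ T, p : ℕ) : ℝ) ≤ D), K ^ T.card
      ≤ ∑ _T ∈ P.powerset.filter (fun T => ((∏ p ∈ T, p : ℕ) : ℝ) ≤ D), C * D := sum_le_sum hterm
    _ = (P.powerset.filter (fun T => ((∏ p ∈ T, p : ℕ) : ℝ) ≤ D)).card * (C * D) := by
        rw [sum_const, nsmul_eq_mul]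
    _ ≤ D * (C * D) := by
        apply mul_le_mul_of_nonneg_right _ (by positivity)
        calc ((P.powerset.filter (fun T => ((∏ p ∈ T, p : ℕ) : ℝ) ≤ D)).card : ℝ) ≤ (⌊D⌋₊ : ℝ) := by
              exact_mod_cast hcard
          _ ≤ D := Nat.floor_le hD0
    _ = C * D ^ 2 := by ring

end Pool.Agent.RSC
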