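import Mathlib

/-!
# RSC / Per: incomplete sums of periodic functions with mean zero

`per_one`: write `l = q d + r` with `r < d`. The sum over `q` complete periods (any interval of length `d` is a complete
system of residues: e.g. `Nat.filter_Ico_card_eq_of_periodic` style, or by induction on `M`: shifting the window
`[M, M + d)` by one replaces `f M` by `f (M + d) = f M`) vanishes; the remaining `r < d` terms are at most `B` each.

`per_two`: for fixed `b` put `R b = ∑ b' ∈ Ico M (M + l), F b b'`. Let `J = Ico M (M + l)`, `J0 = Ico M (M + q d)` (complete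
periods). `∑_{J0 x J0} F = q^2 * 0 = 0`, and `J x J` minus `J0 x J0` has `l^2 - (q d)^2 = (l - q d)(l + q d) ≤ d * 2 l`
elements.
-/

namespace Pool.Agent.RSC

open Finset

theorem Per_window {f : ℕ → ℝ} {d : ℕ} (hper : ∀ b, f (b + d) = f b) (M : ℕ) :
    ∑ b ∈ Ico M (M + d), f b = ∑ b ∈ range d, f b := by
  induction M with
  | zero => rw [Nat.zero_add, Finset.range_eq_Ico]
  | succ M ih =>
    have h1 : ∑ b ∈ Ico M (M + 1 + d), f b =
        f M + ∑ b ∈ Ico (M + 1) (M + 1 + d), f b :=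
      Finset.sum_eq_sum_Ico_succ_bot (by omega) f
    have h2 : ∑ b ∈ Ico M (M + d + 1), f b =
        ∑ b ∈ Ico M (M + d), f b + f (M + d) :=
      Finset.sum_Ico_succ_top (by omega) f
    have h3 : M + 1 + d = M + d + 1 := by omega
    rw [h3] at h1 ⊢
    rw [hper] at h2
    linarith

theorem per_one {f : ℕ → ℝ} {d : ℕ} (hd : 0 < d) (hper : ∀ b, f (b + d) = f b)
    (hsum : ∑ b ∈ range d, f b = 0) {B : ℝ} (hB : ∀ b, |f b| ≤ B) (M l : ℕ) :
    |∑ b ∈ Ico M (M + l), f b| ≤ d * B := by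
  have hB0 : 0 ≤ B := (abs_nonneg _).trans (hB 0)
  induction l using Nat.strong_induction_on generalizing M with
  | _ l ih =>
    rcases Nat.lt_or_ge l d with h | h
    · calc |∑ b ∈ Ico M (M + l), f b| ≤ ∑ b ∈ Ico M (M + l), |f b| :=
            Finset.abs_sum_le_sum_abs _ _
        _ ≤ ∑ b ∈ Ico M (M + l), B := Finset.sum_le_sum fun b _ => hB b
        _ = l * B := by simp
        _ ≤ d * B := mul_le_mul_of_nonneg_right (by exact_mod_cast h.le) hB0
    · obtain ⟨m, rfl⟩ := Nat.exists_eq_add_of_le h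
      have h1 := Finset.sum_Ico_consecutive f (show M ≤ M + d by omega)
        (show M + d ≤ M + d + m by omega)
      rw [Per_window hper M, hsum, zero_add] at h1
      rw [← Nat.add_assoc, ← h1]
      exact ih m (by omega) (M + d)

theorem Per_mul {f : ℕ → ℝ} {d : ℕ} (hper : ∀ b, f (b + d) = f b) (q M : ℕ) :
    ∑ b ∈ Ico M (M + q * d), f b = q * ∑ b ∈ range d, f b := by
  induction q with
  | zero => simp
  | succ q ih =>
    have h1 := Finset.sum_Ico_consecutive f (show M ≤ M + q * d by omega)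
      (show M + q * d ≤ M + q * d + d by omega)
    have h2 : M + (q + 1) * d = M + q * d + d := by ring
    rw [h2, ← h1, ih, Per_window hper]
    push_cast
    ring

theorem per_two {F : ℕ → ℕ → ℝ} {d : ℕ} (hd : 0 < d) (h1 : ∀ b b', F (b + d) b' = F b b')
    (h2 : ∀ b b', F b (b' + d) = F b b') (hsum : ∑ b ∈ range d, ∑ b' ∈ range d, F b b' = 0)
    {B : ℝ} (hB : ∀ b b', |F b b'| ≤ B) (M l : ℕ) :
    |∑ b ∈ Ico M (M + l), ∑ b' ∈ Ico M (M + l), F b b'| ≤ 2 * l * d * B := by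
  have hB0 : 0 ≤ B := (abs_nonneg _).trans (hB 0 0)
  have hdr : (0 : ℝ) ≤ d := Nat.cast_nonneg d
  set q := l / d with hq
  have hqd : q * d ≤ l := Nat.div_mul_le_self l d
  have hrest : l - q * d < d := by
    have h3 := Nat.mod_lt l hd
    have h4 := Nat.div_add_mod l d
    have h5 : d * (l / d) = q * d := by rw [hq, mul_comm]
    omega
  have hG : |∑ b ∈ Ico M (M + l), ∑ b' ∈ range d, F b b'| ≤ d * (d * B) := by
    refine per_one hd (fun b => ?_) hsum (fun b => ?_) M l
    · exact Finset.sum_congr rfl fun b' _ => h1 b b'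
    · calc |∑ b' ∈ range d, F b b'| ≤ ∑ b' ∈ range d, |F b b'| := Finset.abs_sum_le_sum_abs _ _
        _ ≤ ∑ b' ∈ range d, B := Finset.sum_le_sum fun b' _ => hB b b'
        _ = d * B := by simp
  have hR : ∀ b, |∑ b' ∈ Ico (M + q * d) (M + l), F b b'| ≤ d * B := by
    intro b
    calc |∑ b' ∈ Ico (M + q * d) (M + l), F b b'|
        ≤ ∑ b' ∈ Ico (M + q * d) (M + l), |F b b'| := Finset.abs_sum_le_sum_abs _ _
      _ ≤ ∑ b' ∈ Ico (M + q * d) (M + l), B := Finset.sum_le_sum fun b' _ => hB b b'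
      _ = ((M + l - (M + q * d) : ℕ) : ℝ) * B := by simp
      _ ≤ d * B := by
          refine mul_le_mul_of_nonneg_right ?_ hB0
          have : M + l - (M + q * d) ≤ d := by omega
          exact_mod_cast this
  have hs : ∑ b ∈ Ico M (M + l), ∑ b' ∈ Ico M (M + l), F b b' =
      q * (∑ b ∈ Ico M (M + l), ∑ b' ∈ range d, F b b') +
        ∑ b ∈ Ico M (M + l), ∑ b' ∈ Ico (M + q * d) (M + l), F b b' := by
    rw [Finset.mul_sum, ← Finset.sum_add_distrib]
    refine Finset.sum_congr rfl fun b _ => ?_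
    rw [← Per_mul (h2 b) q M]
    exact (Finset.sum_Ico_consecutive (F b) (by omega) (by omega)).symm
  rw [hs]
  have hA : |(q : ℝ) * (∑ b ∈ Ico M (M + l), ∑ b' ∈ range d, F b b')| ≤ l * (d * B) := by
    rw [abs_mul, abs_of_nonneg (Nat.cast_nonneg q)]
    have h3 : (q : ℝ) * |∑ b ∈ Ico M (M + l), ∑ b' ∈ range d, F b b'| ≤ q * (d * (d * B)) :=
      mul_le_mul_of_nonneg_left hG (Nat.cast_nonneg q)
    have h4 : (q : ℝ) * d ≤ l := by exact_mod_cast hqd
    calc (q : ℝ) * |∑ b ∈ Ico M (M + l), ∑ b' ∈ range d, F b b'| ≤ q * (d * (d * B)) := h3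
      _ = (q * d) * (d * B) := by ring
      _ ≤ l * (d * B) := mul_le_mul_of_nonneg_right h4 (mul_nonneg hdr hB0)
  have hC : |∑ b ∈ Ico M (M + l), ∑ b' ∈ Ico (M + q * d) (M + l), F b b'| ≤ l * (d * B) := by
    calc |∑ b ∈ Ico M (M + l), ∑ b' ∈ Ico (M + q * d) (M + l), F b b'|
        ≤ ∑ b ∈ Ico M (M + l), |∑ b' ∈ Ico (M + q * d) (M + l), F b b'| :=
          Finset.abs_sum_le_sum_abs _ _
      _ ≤ ∑ b ∈ Ico M (M + l), (d * B : ℝ) := Finset.sum_le_sum fun b _ => hR b
      _ = l * (d * B) := by simp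
  calc |(q : ℝ) * (∑ b ∈ Ico M (M + l), ∑ b' ∈ range d, F b b') +
        ∑ b ∈ Ico M (M + l), ∑ b' ∈ Ico (M + q * d) (M + l), F b b'|
      ≤ |(q : ℝ) * (∑ b ∈ Ico M (M + l), ∑ b' ∈ range d, F b b')| +
        |∑ b ∈ Ico M (M + l), ∑ b' ∈ Ico (M + q * d) (M + l), F b b'| := abs_add_le _ _
    _ ≤ l * (d * B) + l * (d * B) := add_le_add hA hC
    _ = 2 * l * d * B := by ring

end Pool.Agent.RSC
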