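import Pool.Agent.RSC.Var

/-!
# RSC / Prob: the random residue classes

`Unif μ a`: `a p` is uniform on `{0, ..., p - 1}` for every prime `p`, and the `a p` are independent.

* `a_lt`: `∑_{j < p} μ {a p = j} = p * (1/p) = 1`, so `a p < p` almost surely; countable intersection over the primes.
* `expect_prod`: `iIndepFun.integral_fun_prod_comp` (or a similar lemma, for the family indexed by the subtype of the
  primes in `P`; `iIndepFun.precomp`), every `a p` has integral `∫ f (a p) = ∑_{j < p} μ {a p = j} f j = (∑_{j < p} f j) / p`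
  (`a p < p` a.s.; all functions on `ℕ` are measurable; `f (a p)` is a.s. bounded, or a.s. equal to a simple function).
* `second_moment`: `(SS - l GG)^2 = ∑_{b, b'} ∏ (W W') - 2 l ∑_b ∏ (W g) + l^2 ∏ g^2` and `expect_prod` for each term.
* everything is bounded: `0 ≤ W, g ≤ 1`.
-/

namespace Pool.Agent.RSC

open Finset MeasureTheory ProbabilityTheory

variable {Ω : Type*} [MeasurableSpace Ω]

/-- independent uniform residue classes modulo the primes -/
structure Unif (μ : Measure Ω) (a : ℕ → Ω → ℕ) : Prop where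
  meas : ∀ p, p.Prime → Measurable (a p)
  indep : iIndepFun (fun p : Nat.Primes => a p) μ
  unif : ∀ p, p.Prime → ∀ j < p, μ.real {ω | a p ω = j} = 1 / (p : ℝ)

variable {μ : Measure Ω} [IsProbabilityMeasure μ] {a : ℕ → Ω → ℕ}

omit [IsProbabilityMeasure μ] in
theorem Prob_meas (h : Unif μ a) {p : ℕ} (hp : p.Prime) (j : ℕ) :
    MeasurableSet {ω | a p ω = j} :=
  (h.meas p hp) (measurableSet_singleton j)

theorem Prob_lt_one (h : Unif μ a) {p : ℕ} (hp : p.Prime) : ∀ᵐ ω ∂μ, a p ω < p := by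
  have hset : {ω | a p ω < p} = ⋃ j ∈ range p, {ω | a p ω = j} := by
    ext ω
    simp
  have hms : MeasurableSet {ω | a p ω < p} := by
    rw [hset]
    exact Finset.measurableSet_biUnion _ fun j _ => Prob_meas h hp j
  have h1 : μ.real {ω | a p ω < p} = 1 := by
    rw [hset, measureReal_biUnion_finset]
    · rw [Finset.sum_congr rfl (fun j hj => h.unif p hp j (mem_range.1 hj))]
      rw [Finset.sum_const, card_range, nsmul_eq_mul]
      have hp0 : (p : ℝ) ≠ 0 := by exact_mod_cast hp.ne_zero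
      field_simp
    · intro i _ j _ hij
      rw [Function.onFun, Set.disjoint_left]
      intro ω h1 h2
      exact hij (h1.symm.trans h2)
    · intro j _
      exact Prob_meas h hp j
  have h2 : μ {ω | a p ω < p} = 1 := by
    have h3 : (μ {ω | a p ω < p}).toReal = 1 := h1
    rw [ENNReal.toReal_eq_one_iff] at h3
    exact h3
  have h4 := (prob_compl_eq_zero_iff hms).2 h2
  exact h4

theorem a_lt (h : Unif μ a) : ∀ᵐ ω ∂μ, ∀ p, p.Prime → a p ω < p := by
  rw [ae_all_iff]
  intro p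
  by_cases hp : p.Prime
  · filter_upwards [Prob_lt_one h hp] with ω hω
    exact fun _ => hω
  · exact Filter.Eventually.of_forall fun ω h => absurd h hp

theorem Prob_int_one (h : Unif μ a) {p : ℕ} (hp : p.Prime) (f : ℕ → ℝ) :
    ∫ ω, f (a p ω) ∂μ = (∑ j ∈ range p, f j) / p := by
  have h1 : (fun ω => f (a p ω)) =ᵐ[μ]
      fun ω => ∑ j ∈ range p, Set.indicator {ω | a p ω = j} (fun _ => f j) ω := by
    filter_upwards [Prob_lt_one h hp] with ω hω
    rw [Finset.sum_eq_single (a p ω)]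
    · rw [Set.indicator_of_mem]
      rfl
    · intro j _ hj
      rw [Set.indicator_of_notMem]
      exact fun h => hj h.symm
    · intro h3
      exact absurd (mem_range.2 hω) h3
  rw [integral_congr_ae h1, integral_finset_sum]
  · rw [Finset.sum_div]
    refine Finset.sum_congr rfl fun j hj => ?_
    rw [integral_indicator_const _ (Prob_meas h hp j), h.unif p hp j (mem_range.1 hj),
      smul_eq_mul]
    ring
  · intro j _
    exact (integrable_const (f j)).indicator (Prob_meas h hp j)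

theorem integrable_prod (h : Unif μ a) (P : Finset ℕ) (hP : ∀ p ∈ P, p.Prime) (f : ℕ → ℕ → ℝ)
    {B : ℝ} (hB : ∀ p j, |f p j| ≤ B) : Integrable (fun ω => ∏ p ∈ P, f p (a p ω)) μ := by
  refine Integrable.of_bound (C := B ^ P.card) ?_ ?_
  · refine Measurable.aestronglyMeasurable ?_
    refine Finset.measurable_fun_prod P fun p hp => ?_
    exact (measurable_of_countable (f p)).comp (h.meas p (hP p hp))
  · refine Filter.Eventually.of_forall fun ω => ?_
    rw [Real.norm_eq_abs, Finset.abs_prod]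
    calc ∏ p ∈ P, |f p (a p ω)| ≤ ∏ _p ∈ P, B :=
          Finset.prod_le_prod (fun p _ => abs_nonneg _) fun p _ => hB _ _
      _ = B ^ P.card := by rw [Finset.prod_const]

theorem expect_prod (h : Unif μ a) (P : Finset ℕ) (hP : ∀ p ∈ P, p.Prime) (f : ℕ → ℕ → ℝ)
    {B : ℝ} (hB : ∀ p j, |f p j| ≤ B) :
    ∫ ω, ∏ p ∈ P, f p (a p ω) ∂μ = ∏ p ∈ P, (∑ j ∈ range p, f p j) / p := by
  have hg : Function.Injective (fun p : P => (⟨p.1, hP p.1 p.2⟩ : Nat.Primes)) := by
    intro x y hxy
    have h1 := congrArg Subtype.val hxy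
    exact Subtype.ext h1
  have hX := h.indep.precomp hg
  have h1 := hX.integral_fun_prod_comp (f := fun (i : P) (j : ℕ) => f i.1 j)
    (fun i => (h.meas i.1 (hP i.1 i.2)).aemeasurable)
    (fun i => (measurable_of_countable _).aestronglyMeasurable)
  have e1 : ∀ ω, ∏ p ∈ P, f p (a p ω) = ∏ i : P, f i.1 (a i.1 ω) :=
    fun ω => (Finset.prod_coe_sort P (fun p => f p (a p ω))).symm
  have e2 : ∫ ω, ∏ p ∈ P, f p (a p ω) ∂μ = ∫ ω, ∏ i : P, f i.1 (a i.1 ω) ∂μ :=
    integral_congr_ae (Filter.Eventually.of_forall e1)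
  rw [e2]
  refine h1.trans ?_
  rw [← Finset.prod_coe_sort P (fun p => (∑ j ∈ range p, f p j) / (p : ℝ))]
  exact Finset.prod_congr rfl fun i _ => Prob_int_one h (hP i.1 i.2) (f i.1)

theorem Prob_W01 (k p c b : ℕ) : 0 ≤ W k p c b ∧ W k p c b ≤ 1 := by
  unfold W
  split_ifs <;> norm_num

theorem Prob_g01 (k p c : ℕ) : 0 ≤ g k p c ∧ g k p c ≤ 1 := by
  unfold g
  constructor
  · exact div_nonneg (Finset.sum_nonneg fun b _ => (Prob_W01 k p c b).1) (Nat.cast_nonneg p)
  · refine div_le_one_of_le₀ ?_ (Nat.cast_nonneg p)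
    calc ∑ b ∈ range p, W k p c b ≤ ∑ _b ∈ range p, (1 : ℝ) :=
          Finset.sum_le_sum fun b _ => (Prob_W01 k p c b).2
      _ = p := by simp

theorem Prob_expand (k : ℕ) (P : Finset ℕ) (A : ℕ → ℕ) (M l : ℕ) :
    (SS k P A M l - l * GG k P A) ^ 2 =
      (∑ b ∈ Ico M (M + l), ∑ b' ∈ Ico M (M + l), ∏ p ∈ P, (W k p (A p) b * W k p (A p) b')) -
      2 * l * (∑ b ∈ Ico M (M + l), ∏ p ∈ P, (W k p (A p) b * g k p (A p))) +
      (l : ℝ) ^ 2 * ∏ p ∈ P, (g k p (A p) ^ 2) := by
  have e1 : ∑ b ∈ Ico M (M + l), ∑ b' ∈ Ico M (M + l),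
      ∏ p ∈ P, (W k p (A p) b * W k p (A p) b') = SS k P A M l * SS k P A M l := by
    unfold SS
    rw [Finset.sum_mul_sum]
    refine Finset.sum_congr rfl fun b _ => Finset.sum_congr rfl fun b' _ => ?_
    rw [Finset.prod_mul_distrib]
  have e2 : ∑ b ∈ Ico M (M + l), ∏ p ∈ P, (W k p (A p) b * g k p (A p))
      = SS k P A M l * GG k P A := by
    unfold SS GG
    rw [Finset.sum_mul]
    refine Finset.sum_congr rfl fun b _ => ?_
    rw [Finset.prod_mul_distrib]
  have e3 : ∏ p ∈ P, (g k p (A p) ^ 2) = GG k P A ^ 2 := by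
    unfold GG
    rw [Finset.prod_pow]
  rw [e1, e2, e3]
  ring

theorem Prob_i1 (h : Unif μ a) (k : ℕ) (P : Finset ℕ) (hP : ∀ p ∈ P, p.Prime) (b b' : ℕ) :
    Integrable (fun ω => ∏ p ∈ P, (W k p (a p ω) b * W k p (a p ω) b')) μ :=
  integrable_prod h P hP (fun p c => W k p c b * W k p c b') (B := 1) (by
    intro p c
    have h1 := Prob_W01 k p c b
    have h2 := Prob_W01 k p c b'
    rw [abs_of_nonneg (mul_nonneg h1.1 h2.1)]
    exact mul_le_one₀ h1.2 h2.1 h2.2)

theorem Prob_i2 (h : Unif μ a) (k : ℕ) (P : Finset ℕ) (hP : ∀ p ∈ P, p.Prime) (b : ℕ) :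
    Integrable (fun ω => ∏ p ∈ P, (W k p (a p ω) b * g k p (a p ω))) μ :=
  integrable_prod h P hP (fun p c => W k p c b * g k p c) (B := 1) (by
    intro p c
    have h1 := Prob_W01 k p c b
    have h2 := Prob_g01 k p c
    rw [abs_of_nonneg (mul_nonneg h1.1 h2.1)]
    exact mul_le_one₀ h1.2 h2.1 h2.2)

theorem Prob_i3 (h : Unif μ a) (k : ℕ) (P : Finset ℕ) (hP : ∀ p ∈ P, p.Prime) :
    Integrable (fun ω => ∏ p ∈ P, (g k p (a p ω) ^ 2)) μ :=
  integrable_prod h P hP (fun p c => g k p c ^ 2) (B := 1) (by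
    intro p c
    have h2 := Prob_g01 k p c
    rw [abs_of_nonneg (sq_nonneg _)]
    exact pow_le_one₀ h2.1 h2.2)

theorem second_moment (h : Unif μ a) (k : ℕ) (P : Finset ℕ) (hP : ∀ p ∈ P, p.Prime)
    (M l : ℕ) :
    ∫ ω, (SS k P (fun p => a p ω) M l - l * GG k P (fun p => a p ω)) ^ 2 ∂μ = QQ k P M l := by
  simp_rw [Prob_expand]
  have I1 : Integrable (fun ω => ∑ b ∈ Ico M (M + l), ∑ b' ∈ Ico M (M + l),
      ∏ p ∈ P, (W k p (a p ω) b * W k p (a p ω) b')) μ :=
    integrable_finset_sum _ fun b _ => integrable_finset_sum _ fun b' _ => Prob_i1 h k P hP b b'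
  have I2 : Integrable (fun ω => 2 * (l : ℝ) * (∑ b ∈ Ico M (M + l),
      ∏ p ∈ P, (W k p (a p ω) b * g k p (a p ω)))) μ :=
    (integrable_finset_sum _ fun b _ => Prob_i2 h k P hP b).const_mul _
  have I3 : Integrable (fun ω => (l : ℝ) ^ 2 * ∏ p ∈ P, (g k p (a p ω) ^ 2)) μ :=
    (Prob_i3 h k P hP).const_mul _
  have I12 : Integrable (fun ω => (∑ b ∈ Ico M (M + l), ∑ b' ∈ Ico M (M + l),
      ∏ p ∈ P, (W k p (a p ω) b * W k p (a p ω) b')) - 2 * (l : ℝ) * (∑ b ∈ Ico M (M + l),
      ∏ p ∈ P, (W k p (a p ω) b * g k p (a p ω)))) μ := I1.sub I2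
  rw [integral_add I12 I3, integral_sub I1 I2, integral_const_mul, integral_const_mul,
    integral_finset_sum _ (fun b _ => integrable_finset_sum _ fun b' _ => Prob_i1 h k P hP b b'),
    integral_finset_sum _ (fun b _ => Prob_i2 h k P hP b)]
  unfold QQ
  congr 1
  · congr 1
    · refine Finset.sum_congr rfl fun b _ => ?_
      rw [integral_finset_sum _ (fun b' _ => Prob_i1 h k P hP b b')]
      refine Finset.sum_congr rfl fun b' _ => ?_
      rw [expect_prod h P hP (fun p c => W k p c b * W k p c b') (B := 1) (by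
        intro p c
        have h1 := Prob_W01 k p c b
        have h2 := Prob_W01 k p c b'
        rw [abs_of_nonneg (mul_nonneg h1.1 h2.1)]
        exact mul_le_one₀ h1.2 h2.1 h2.2)]
      rfl
    · congr 1
      refine Finset.sum_congr rfl fun b _ => ?_
      rw [expect_prod h P hP (fun p c => W k p c b * g k p c) (B := 1) (by
        intro p c
        have h1 := Prob_W01 k p c b
        have h2 := Prob_g01 k p c
        rw [abs_of_nonneg (mul_nonneg h1.1 h2.1)]
        exact mul_le_one₀ h1.2 h2.1 h2.2)]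
      rfl
  · congr 1
    rw [expect_prod h P hP (fun p c => g k p c ^ 2) (B := 1) (by
      intro p c
      have h2 := Prob_g01 k p c
      rw [abs_of_nonneg (sq_nonneg _)]
      exact pow_le_one₀ h2.1 h2.2)]
    rfl

theorem integrable_sq (h : Unif μ a) (k : ℕ) (P : Finset ℕ) (hP : ∀ p ∈ P, p.Prime)
    (M l : ℕ) :
    Integrable (fun ω => (SS k P (fun p => a p ω) M l - l * GG k P (fun p => a p ω)) ^ 2) μ := by
  simp_rw [Prob_expand]
  have I1 : Integrable (fun ω => ∑ b ∈ Ico M (M + l), ∑ b' ∈ Ico M (M + l),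
      ∏ p ∈ P, (W k p (a p ω) b * W k p (a p ω) b')) μ :=
    integrable_finset_sum _ fun b _ => integrable_finset_sum _ fun b' _ => Prob_i1 h k P hP b b'
  have I2 : Integrable (fun ω => 2 * (l : ℝ) * (∑ b ∈ Ico M (M + l),
      ∏ p ∈ P, (W k p (a p ω) b * g k p (a p ω)))) μ :=
    (integrable_finset_sum _ fun b _ => Prob_i2 h k P hP b).const_mul _
  have I3 : Integrable (fun ω => (l : ℝ) ^ 2 * ∏ p ∈ P, (g k p (a p ω) ^ 2)) μ :=
    (Prob_i3 h k P hP).const_mul _
  exact (I1.sub I2).add I3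

end Pool.Agent.RSC
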