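import Pool.Agent.RSC.LocB
import Pool.Agent.RSC.PP
import Pool.Agent.RSC.Per
import Pool.Agent.RSC.Crt

/-!
# RSC / Small: the sets `T` of primes with product at most `D`, and the diagonal pairs

Let `C0` be the constant of `loc_bounds`; `|e1|, |e2| ≤ C0 / p`, so `|∏_{p ∈ T} e2 k p b b'| ≤ C0^(card T) / ∏ T`.

`small_one`: the term `T = ∅` gives `l`. For `T ≠ ∅` the function `b ↦ ∏_{p ∈ T} e1 k p b` is periodic modulo `d = ∏ T`
(`prod_per`) with sum zero (`crt_one`, `e1_sum`), bounded by `C0^(card T) / d`, so by `per_one` its sum over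
`Ico M (M + l)` is at most `C0^(card T)`; sum over `T` by `sum_pow`.

`small_two`: the same with `per_two`: `2 l d * C0^(card T) / d`.

`small_abs`: `∏ |e2| ≤ C0^(card T)` and `sum_pow`.

`diag_card`: `Del k b b' = 0` with `b, b' ≥ 1` means `2^i b = 2^j b'` for some `i, j ∈ [1, k]`; for given `b, i, j` there is at
most one `b'`.
-/

namespace Pool.Agent.RSC

open Finset

private theorem Small_prod_le {T : Finset ℕ} (hT : ∀ p ∈ T, p.Prime) {C : ℝ} {e : ℕ → ℝ}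
    (he : ∀ p ∈ T, |e p| ≤ C / p) : |∏ p ∈ T, e p| ≤ C ^ T.card / ((∏ p ∈ T, p : ℕ) : ℝ) := by
  rw [Finset.abs_prod]
  calc ∏ p ∈ T, |e p| ≤ ∏ p ∈ T, (C / (p : ℝ)) :=
        Finset.prod_le_prod (fun _ _ => abs_nonneg _) he
    _ = C ^ T.card / ((∏ p ∈ T, p : ℕ) : ℝ) := by
        rw [Finset.prod_div_distrib, Finset.prod_const, Nat.cast_prod]

private theorem Small_dpos {T : Finset ℕ} (hT : ∀ p ∈ T, p.Prime) : 0 < ∏ p ∈ T, p :=
  Finset.prod_pos fun p hp => (hT p hp).pos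

theorem small_one (k : ℕ) (hk : 1 ≤ k) : ∃ C : ℝ, 1 ≤ C ∧
    ∀ P : Finset ℕ, (∀ p ∈ P, p.Prime ∧ p ≠ 2) → ∀ D : ℝ, 1 ≤ D → ∀ M l : ℕ,
      |(∑ b ∈ Ico M (M + l), ∑ T ∈ P.powerset.filter (fun T => ((∏ p ∈ T, p : ℕ) : ℝ) ≤ D),
        ∏ p ∈ T, e1 k p b) - l| ≤ C * D ^ 2 := by
  obtain ⟨C0, hC0, hloc⟩ := loc_bounds k hk
  obtain ⟨C, hC, hsum⟩ := sum_pow (K := C0) (by linarith)
  refine ⟨C, hC, fun P hP D hD M l => ?_⟩
  set F := P.powerset.filter (fun T => ((∏ p ∈ T, p : ℕ) : ℝ) ≤ D) with hF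
  have h0 : (∅ : Finset ℕ) ∈ F := by
    rw [hF, Finset.mem_filter]
    refine ⟨Finset.empty_mem_powerset _, ?_⟩
    simpa using hD
  rw [Finset.sum_comm, ← Finset.add_sum_erase F _ h0]
  have h1 : ∑ b ∈ Ico M (M + l), ∏ p ∈ (∅ : Finset ℕ), e1 k p b = (l : ℝ) := by simp
  rw [h1, add_sub_cancel_left]
  calc |∑ T ∈ F.erase ∅, ∑ b ∈ Ico M (M + l), ∏ p ∈ T, e1 k p b|
      ≤ ∑ T ∈ F.erase ∅, |∑ b ∈ Ico M (M + l), ∏ p ∈ T, e1 k p b| := Finset.abs_sum_le_sum_abs _ _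
    _ ≤ ∑ T ∈ F.erase ∅, C0 ^ T.card := by
        refine Finset.sum_le_sum fun T hT => ?_
        rw [Finset.mem_erase, hF, Finset.mem_filter, Finset.mem_powerset] at hT
        have hTp : ∀ p ∈ T, p.Prime := fun p hp => (hP p (hT.2.1 hp)).1
        have hT2 : ∀ p ∈ T, p ≠ 2 := fun p hp => (hP p (hT.2.1 hp)).2
        have hd := Small_dpos hTp
        have h2 := per_one (f := fun b => ∏ p ∈ T, e1 k p b) hd
          (fun b => prod_per (f := fun p b => e1 k p b) (fun p _ b => e1_per k p b) b)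
          (crt_one hTp (Finset.nonempty_iff_ne_empty.2 hT.1) (fun p _ b => e1_per k p b)
            (fun p hp => e1_sum (hTp p hp) (hT2 p hp) k))
          (fun b => Small_prod_le hTp (fun p hp => (hloc p (hTp p hp) (hT2 p hp)).1 b)) M l
        have hd' : ((∏ p ∈ T, p : ℕ) : ℝ) ≠ 0 := by exact_mod_cast hd.ne'
        rwa [mul_div_cancel₀ _ hd'] at h2
    _ ≤ ∑ T ∈ F, C0 ^ T.card := Finset.sum_le_sum_of_subset_of_nonneg (Finset.erase_subset _ _)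
        (fun T _ _ => by positivity)
    _ ≤ C * D ^ 2 := hsum P (fun p hp => (hP p hp).1) D hD

theorem small_two (k : ℕ) (hk : 1 ≤ k) : ∃ C : ℝ, 1 ≤ C ∧
    ∀ P : Finset ℕ, (∀ p ∈ P, p.Prime ∧ p ≠ 2) → ∀ D : ℝ, 1 ≤ D → ∀ M l : ℕ,
      |(∑ b ∈ Ico M (M + l), ∑ b' ∈ Ico M (M + l),
        ∑ T ∈ P.powerset.filter (fun T => ((∏ p ∈ T, p : ℕ) : ℝ) ≤ D),
          ∏ p ∈ T, e2 k p b b') - (l : ℝ) ^ 2| ≤ C * l * D ^ 2 := by
  obtain ⟨C0, hC0, hloc⟩ := loc_bounds k hk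
  obtain ⟨C, hC, hsum⟩ := sum_pow (K := C0) (by linarith)
  refine ⟨2 * C, by linarith, fun P hP D hD M l => ?_⟩
  set F := P.powerset.filter (fun T => ((∏ p ∈ T, p : ℕ) : ℝ) ≤ D) with hF
  have h0 : (∅ : Finset ℕ) ∈ F := by
    rw [hF, Finset.mem_filter]
    refine ⟨Finset.empty_mem_powerset _, ?_⟩
    simpa using hD
  have hsw : (∑ b ∈ Ico M (M + l), ∑ b' ∈ Ico M (M + l), ∑ T ∈ F, ∏ p ∈ T, e2 k p b b') =
      ∑ T ∈ F, ∑ b ∈ Ico M (M + l), ∑ b' ∈ Ico M (M + l), ∏ p ∈ T, e2 k p b b' := by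
    rw [Finset.sum_comm]
    rw [← Finset.sum_comm]
    calc _ = ∑ b ∈ Ico M (M + l), ∑ T ∈ F, ∑ b' ∈ Ico M (M + l), ∏ p ∈ T, e2 k p b b' :=
          Finset.sum_congr rfl fun b _ => Finset.sum_comm
      _ = _ := Finset.sum_comm
  rw [hsw, ← Finset.add_sum_erase F _ h0]
  have h1 : ∑ b ∈ Ico M (M + l), ∑ b' ∈ Ico M (M + l), ∏ p ∈ (∅ : Finset ℕ), e2 k p b b' =
      (l : ℝ) ^ 2 := by simp [sq]
  rw [h1, add_sub_cancel_left]
  calc |∑ T ∈ F.erase ∅, ∑ b ∈ Ico M (M + l), ∑ b' ∈ Ico M (M + l), ∏ p ∈ T, e2 k p b b'|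
      ≤ ∑ T ∈ F.erase ∅, |∑ b ∈ Ico M (M + l), ∑ b' ∈ Ico M (M + l), ∏ p ∈ T, e2 k p b b'| :=
        Finset.abs_sum_le_sum_abs _ _
    _ ≤ ∑ T ∈ F.erase ∅, 2 * l * C0 ^ T.card := by
        refine Finset.sum_le_sum fun T hT => ?_
        rw [Finset.mem_erase, hF, Finset.mem_filter, Finset.mem_powerset] at hT
        have hTp : ∀ p ∈ T, p.Prime := fun p hp => (hP p (hT.2.1 hp)).1
        have hT2 : ∀ p ∈ T, p ≠ 2 := fun p hp => (hP p (hT.2.1 hp)).2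
        have hd := Small_dpos hTp
        have h2 := per_two (F := fun b b' => ∏ p ∈ T, e2 k p b b') hd
          (fun b b' => prod_per (f := fun p b => e2 k p b b') (fun p _ b => e2_per1 k p b b') b)
          (fun b b' => prod_per (f := fun p b' => e2 k p b b') (fun p _ b' => e2_per2 k p b b') b')
          (crt_two hTp (Finset.nonempty_iff_ne_empty.2 hT.1) (fun p _ b b' => e2_per1 k p b b')
            (fun p _ b b' => e2_per2 k p b b')
            (fun p hp => e2_sum (hTp p hp) (hT2 p hp) k))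
          (fun b b' => Small_prod_le hTp (fun p hp => (hloc p (hTp p hp) (hT2 p hp)).2.1 b b')) M l
        have hd' : ((∏ p ∈ T, p : ℕ) : ℝ) ≠ 0 := by exact_mod_cast hd.ne'
        rwa [mul_assoc (2 * (l : ℝ)), mul_div_cancel₀ _ hd'] at h2
    _ ≤ ∑ T ∈ F, 2 * l * C0 ^ T.card := Finset.sum_le_sum_of_subset_of_nonneg
        (Finset.erase_subset _ _) (fun T _ _ => by positivity)
    _ = 2 * l * ∑ T ∈ F, C0 ^ T.card := by rw [Finset.mul_sum]
    _ ≤ 2 * l * (C * D ^ 2) := by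
        have := hsum P (fun p hp => (hP p hp).1) D hD
        gcongr
    _ = 2 * C * l * D ^ 2 := by ring

theorem small_abs (k : ℕ) (hk : 1 ≤ k) : ∃ C : ℝ, 1 ≤ C ∧
    ∀ P : Finset ℕ, (∀ p ∈ P, p.Prime ∧ p ≠ 2) → ∀ D : ℝ, 1 ≤ D → ∀ b b' : ℕ,
      ∑ T ∈ P.powerset.filter (fun T => ((∏ p ∈ T, p : ℕ) : ℝ) ≤ D),
          ∏ p ∈ T, |e2 k p b b'| ≤ C * D ^ 2 := by
  obtain ⟨C0, hC0, hloc⟩ := loc_bounds k hk
  obtain ⟨C, hC, hsum⟩ := sum_pow (K := C0) (by linarith)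
  refine ⟨C, hC, fun P hP D hD b b' => ?_⟩
  refine (Finset.sum_le_sum fun T hT => ?_).trans (hsum P (fun p hp => (hP p hp).1) D hD)
  rw [Finset.mem_filter, Finset.mem_powerset] at hT
  rw [← Finset.prod_const]
  refine Finset.prod_le_prod (fun _ _ => abs_nonneg _) fun p hp => ?_
  have h := hP p (hT.1 hp)
  have h1 : (1 : ℝ) ≤ p := by exact_mod_cast h.1.one_lt.le
  exact ((hloc p h.1 h.2).2.1 b b').trans (div_le_self (by linarith) h1)

theorem diag_card (k M l : ℕ) (hM : 1 ≤ M) :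
    ((Ico M (M + l) ×ˢ Ico M (M + l)).filter (fun q => Del k q.1 q.2 = 0)).card ≤ k ^ 2 * l := by
  set J := Ico M (M + l) with hJ
  have hsub : (J ×ˢ J).filter (fun q => Del k q.1 q.2 = 0) ⊆
      (Icc 1 k ×ˢ Icc 1 k).biUnion
        (fun ij => (J ×ˢ J).filter (fun q => 2 ^ ij.1 * q.1 = 2 ^ ij.2 * q.2)) := by
    intro q hq
    rw [Finset.mem_filter, Finset.mem_product] at hq
    obtain ⟨⟨h1, h2⟩, h3⟩ := hq
    have h1' := h1
    have h2' := h2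
    rw [hJ, Finset.mem_Ico] at h1' h2'
    unfold Del at h3
    have hq1 : (q.1 : ℤ) ≠ 0 := by exact_mod_cast (by omega : q.1 ≠ 0)
    have hq2 : (q.2 : ℤ) ≠ 0 := by exact_mod_cast (by omega : q.2 ≠ 0)
    rw [mul_eq_zero] at h3
    rcases h3 with h3 | h3
    · exact absurd h3 (mul_ne_zero hq1 hq2)
    · rw [Finset.prod_eq_zero_iff] at h3
      obtain ⟨i, hi, h3⟩ := h3
      rw [Finset.prod_eq_zero_iff] at h3
      obtain ⟨j, hj, h3⟩ := h3
      rw [Finset.mem_biUnion]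
      refine ⟨(i, j), Finset.mem_product.2 ⟨hi, hj⟩, ?_⟩
      rw [Finset.mem_filter, Finset.mem_product]
      refine ⟨⟨h1, h2⟩, ?_⟩
      have h4 : (2 : ℤ) ^ i * q.1 = 2 ^ j * q.2 := by linarith
      exact_mod_cast h4
  refine (Finset.card_le_card hsub).trans (Finset.card_biUnion_le.trans ?_)
  have hb : ∀ ij ∈ Icc 1 k ×ˢ Icc 1 k,
      ((J ×ˢ J).filter (fun q => 2 ^ ij.1 * q.1 = 2 ^ ij.2 * q.2)).card ≤ l := by
    intro ij _
    have hJc : J.card = l := by rw [hJ, Nat.card_Ico]; omega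
    rw [← hJc]
    refine Finset.card_le_card_of_injOn Prod.fst ?_ ?_
    · intro q hq
      rw [Finset.mem_coe, Finset.mem_filter, Finset.mem_product] at hq
      exact hq.1.1
    · intro q hq q' hq' h
      rw [Finset.mem_coe, Finset.mem_filter] at hq hq'
      have h1 : 2 ^ ij.2 * q.2 = 2 ^ ij.2 * q'.2 := by rw [← hq.2, ← hq'.2, h]
      exact Prod.ext h (Nat.eq_of_mul_eq_mul_left (by positivity) h1)
  refine (Finset.sum_le_card_nsmul _ _ _ hb).trans (le_of_eq ?_)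
  rw [Finset.card_product, Nat.card_Icc, smul_eq_mul, Nat.add_sub_cancel]
  ring

end Pool.Agent.RSC
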