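import Mathlib

/-!
# RSC / Smooth: the comparison function `F j = j^128 / log (j^128)^k`

Write `L j = log (j^128) = 128 log j` (`j ≥ 2`). `F (j+1) - F j = ((j+1)^128 - j^128)/L(j+1)^k - j^128 (1/L(j)^k - 1/L(j+1)^k)`;
`L (j+1) / L j → 1`; the first term times `L(j)^k / j^127` tends to `128`; the second one:
`0 ≤ 1/L(j)^k - 1/L(j+1)^k ≤ k (L(j+1) - L(j)) / L(j)^(k+1)` and `L(j+1) - L(j) ≤ 128/j`, so times `L(j)^k / j^127` it is at
most `128 k / L j → 0`.
-/

namespace Pool.Agent.RSC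

open Filter

/-- comparison function -/
noncomputable def Fj (k : ℕ) (j : ℕ) : ℝ := (j : ℝ) ^ 128 / Real.log ((j : ℝ) ^ 128) ^ k

theorem Smooth_log (j : ℕ) : Real.log ((j : ℝ) ^ 128) = 128 * Real.log j := by
  rw [Real.log_pow]
  norm_num

theorem Smooth_u : Tendsto (fun j : ℕ => ((j : ℝ) + 1) / j) atTop (nhds 1) := by
  have h1 : Tendsto (fun j : ℕ => 1 + ((j : ℝ))⁻¹) atTop (nhds (1 + 0)) :=
    tendsto_const_nhds.add (tendsto_inv_atTop_zero.comp tendsto_natCast_atTop_atTop)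
  rw [add_zero] at h1
  refine h1.congr' ?_
  filter_upwards [eventually_ge_atTop 1] with j hj
  have : (0 : ℝ) < j := by exact_mod_cast hj
  field_simp

theorem Smooth_log_top : Tendsto (fun j : ℕ => Real.log ((j : ℝ) + 1)) atTop atTop := by
  refine Real.tendsto_log_atTop.comp ?_
  exact tendsto_atTop_add_const_right _ _ tendsto_natCast_atTop_atTop

/-- the quotient of consecutive logarithms -/
noncomputable def Smooth_r (j : ℕ) : ℝ := Real.log j / Real.log ((j : ℝ) + 1)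

theorem Smooth_jr : Tendsto (fun j : ℕ => (j : ℝ) * (Smooth_r j - 1)) atTop (nhds 0) := by
  have h0 : Tendsto (fun j : ℕ => (Real.log ((j : ℝ) + 1))⁻¹) atTop (nhds 0) :=
    tendsto_inv_atTop_zero.comp Smooth_log_top
  rw [tendsto_zero_iff_norm_tendsto_zero]
  refine squeeze_zero' (Eventually.of_forall fun _ => norm_nonneg _) ?_ h0
  filter_upwards [eventually_ge_atTop 2] with j hj
  have hj' : (2 : ℝ) ≤ j := by exact_mod_cast hj
  have hl : 0 < Real.log ((j : ℝ) + 1) := Real.log_pos (by linarith)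
  have h1 : Real.log ((j : ℝ) + 1) - Real.log j ≤ 1 / j := by
    rw [← Real.log_div (by positivity) (by positivity)]
    have := Real.log_le_sub_one_of_pos (show 0 < ((j : ℝ) + 1) / j by positivity)
    refine this.trans (le_of_eq ?_)
    field_simp
    ring
  have h2 : 0 ≤ Real.log ((j : ℝ) + 1) - Real.log j := by
    have := Real.log_le_log (show (0 : ℝ) < j by linarith) (show (j : ℝ) ≤ j + 1 by linarith)
    linarith
  have h3 : (j : ℝ) * (Smooth_r j - 1) =
      -(j * (Real.log ((j : ℝ) + 1) - Real.log j) / Real.log ((j : ℝ) + 1)) := by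
    unfold Smooth_r
    field_simp
    ring
  rw [h3, norm_neg, Real.norm_of_nonneg (by positivity), div_eq_mul_inv]
  have h4 : (j : ℝ) * (Real.log ((j : ℝ) + 1) - Real.log j) ≤ 1 := by
    refine (mul_le_mul_of_nonneg_left h1 (by linarith)).trans (le_of_eq ?_)
    field_simp
  exact mul_le_of_le_one_left (by positivity) h4

theorem Smooth_r1 : Tendsto Smooth_r atTop (nhds 1) := by
  have h1 : Tendsto (fun j : ℕ => ((j : ℝ))⁻¹) atTop (nhds 0) :=
    tendsto_inv_atTop_zero.comp tendsto_natCast_atTop_atTop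
  have h2 := (h1.mul Smooth_jr).add_const 1
  rw [mul_zero, zero_add] at h2
  refine h2.congr' ?_
  filter_upwards [eventually_ge_atTop 1] with j hj
  have : (0 : ℝ) < j := by exact_mod_cast hj
  field_simp
  ring

theorem Smooth_jrk (k : ℕ) : Tendsto (fun j : ℕ => (j : ℝ) * (Smooth_r j ^ k - 1)) atTop
    (nhds 0) := by
  have h1 : Tendsto (fun j : ℕ => ∑ i ∈ Finset.range k, Smooth_r j ^ i) atTop
      (nhds (∑ i ∈ Finset.range k, (1 : ℝ) ^ i)) :=
    tendsto_finsetSum _ fun i _ => Smooth_r1.pow i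
  have h2 := Smooth_jr.mul h1
  rw [zero_mul] at h2
  refine h2.congr fun j => ?_
  have := mul_geom_sum (Smooth_r j) k
  rw [mul_assoc, this]

theorem Smooth_ju : Tendsto (fun j : ℕ => (j : ℝ) * ((((j : ℝ) + 1) / j) ^ 128 - 1)) atTop
    (nhds 128) := by
  have h1 : Tendsto (fun j : ℕ => ∑ i ∈ Finset.range 128, (((j : ℝ) + 1) / j) ^ i) atTop
      (nhds (∑ i ∈ Finset.range 128, (1 : ℝ) ^ i)) :=
    tendsto_finsetSum _ fun i _ => Smooth_u.pow i
  simp only [one_pow, Finset.sum_const, Finset.card_range, nsmul_eq_mul, mul_one] at h1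
  refine (h1.congr' ?_).trans (le_of_eq (by norm_num))
  filter_upwards [eventually_ge_atTop 1] with j hj
  have hj0 : (0 : ℝ) < j := by exact_mod_cast hj
  rw [← mul_geom_sum (((j : ℝ) + 1) / j) 128]
  have : (j : ℝ) * (((j : ℝ) + 1) / j - 1) = 1 := by
    field_simp
    ring
  rw [← mul_assoc, this, one_mul]

theorem Smooth_F (k j : ℕ) (hj : 2 ≤ j) : Fj k (j + 1) * Real.log ((j : ℝ) ^ 128) ^ k =
    ((j : ℝ) + 1) ^ 128 * Smooth_r j ^ k := by
  have hj' : (2 : ℝ) ≤ j := by exact_mod_cast hj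
  have hl : 0 < Real.log ((j : ℝ) + 1) := Real.log_pos (by linarith)
  unfold Fj Smooth_r
  rw [Smooth_log, Smooth_log]
  push_cast
  rw [mul_pow, mul_pow, div_pow]
  field_simp

theorem Smooth_L (k j : ℕ) (hj : 2 ≤ j) : 0 < Real.log ((j : ℝ) ^ 128) ^ k := by
  have hj' : (2 : ℝ) ≤ j := by exact_mod_cast hj
  have hl : 0 < Real.log (j : ℝ) := Real.log_pos (by linarith)
  rw [Smooth_log]
  positivity

theorem Fj_tendsto (k : ℕ) : Tendsto (Fj k) atTop atTop := by
  have h1 : Tendsto (fun x : ℝ => Real.log x ^ k / x) atTop (nhds 0) :=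
    (Real.isLittleO_pow_log_id_atTop (n := k)).tendsto_div_nhds_zero
  have h2 : Tendsto (fun x : ℝ => Real.log x ^ k / x) atTop (nhdsWithin 0 (Set.Ioi 0)) := by
    rw [tendsto_nhdsWithin_iff]
    refine ⟨h1, ?_⟩
    filter_upwards [eventually_gt_atTop 1] with x hx
    have := Real.log_pos hx
    have h0 : 0 < x := by linarith
    exact Set.mem_Ioi.mpr (by positivity)
  have h3 := h2.inv_tendsto_nhdsGT_zero
  have h4 : Tendsto (fun j : ℕ => (j : ℝ) ^ 128) atTop atTop :=
    (tendsto_pow_atTop (by norm_num)).comp tendsto_natCast_atTop_atTop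
  refine (h3.comp h4).congr fun j => ?_
  simp [Fj]

theorem Fj_diff (k : ℕ) : Tendsto (fun j : ℕ => (Fj k (j + 1) - Fj k j) *
    Real.log ((j : ℝ) ^ 128) ^ k / (j : ℝ) ^ 127) atTop (nhds 128) := by
  have h := (Smooth_ju.mul (Smooth_r1.pow k)).add (Smooth_jrk k)
  rw [one_pow, mul_one, add_zero] at h
  refine h.congr' ?_
  filter_upwards [eventually_ge_atTop 2] with j hj
  have hj' : (2 : ℝ) ≤ j := by exact_mod_cast hj
  have hL := Smooth_L k j hj
  rw [sub_mul, Smooth_F k j hj]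
  have h1 : Fj k j * Real.log ((j : ℝ) ^ 128) ^ k = (j : ℝ) ^ 128 := by
    unfold Fj
    field_simp
  rw [h1]
  have hj0 : (j : ℝ) ≠ 0 := by positivity
  rw [div_pow, eq_div_iff (by positivity)]
  have h2 : (j : ℝ) ^ 128 = j * j ^ 127 := by ring
  have h3 : (j : ℝ) * ((((j : ℝ) + 1) ^ 128 / (j : ℝ) ^ 128 - 1)) * (j : ℝ) ^ 127 =
      ((j : ℝ) + 1) ^ 128 - (j : ℝ) ^ 128 := by
    generalize ((j : ℝ) + 1) ^ 128 = A
    rw [h2]
    field_simp
  generalize ((j : ℝ) + 1) ^ 128 = A at h3 ⊢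
  generalize Smooth_r j ^ k = r
  linear_combination r * h3 - (r - 1) * h2

theorem Fj_lt (k : ℕ) : ∀ᶠ j in atTop, Fj k j < Fj k (j + 1) := by
  have h := (Fj_diff k).eventually (lt_mem_nhds (show (0 : ℝ) < 128 by norm_num))
  filter_upwards [h, eventually_ge_atTop 2] with j h1 hj
  have hj' : (2 : ℝ) ≤ j := by exact_mod_cast hj
  have hL := Smooth_L k j hj
  rw [mul_div_assoc] at h1
  have h2 : 0 < Real.log ((j : ℝ) ^ 128) ^ k / (j : ℝ) ^ 127 := by positivity
  have h3 : 0 < Fj k (j + 1) - Fj k j := (mul_pos_iff_of_pos_right h2).mp h1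
  linarith

theorem Fj_ratio (k : ℕ) : Tendsto (fun j : ℕ => Fj k (j + 1) / Fj k j) atTop (nhds 1) := by
  have h := (Smooth_u.pow 128).mul (Smooth_r1.pow k)
  rw [one_pow, one_pow, mul_one] at h
  refine h.congr' ?_
  filter_upwards [eventually_ge_atTop 2] with j hj
  have hj' : (2 : ℝ) ≤ j := by exact_mod_cast hj
  have hL := Smooth_L k j hj
  have h1 : Fj k j * Real.log ((j : ℝ) ^ 128) ^ k = (j : ℝ) ^ 128 := by
    unfold Fj
    field_simp
  have h2 := Smooth_F k j hj
  rw [← mul_div_mul_right (Fj k (j + 1)) (Fj k j) hL.ne', h1, h2, div_pow]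
  ring

end Pool.Agent.RSC
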