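import Mathlib

/-!
# RSC / Stolz: the Stolz-Cesaro theorem

`stolz`: given `ε > 0` there is `N` with `|a (n+1) - a n - L (b (n+1) - b n)| ≤ ε (b (n+1) - b n)` and `b n < b (n+1)` for
`n ≥ N`; sum from `N` to `n - 1`: `|a n - a N - L (b n - b N)| ≤ ε (b n - b N)`; divide by `b n → ∞`.
-/

namespace Pool.Agent.RSC

open Filter

theorem stolz {a b : ℕ → ℝ} {L : ℝ} (hb : ∀ᶠ n in atTop, b n < b (n + 1))
    (hb' : Tendsto b atTop atTop)
    (h : Tendsto (fun n => (a (n + 1) - a n) / (b (n + 1) - b n)) atTop (nhds L)) :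
    Tendsto (fun n => a n / b n) atTop (nhds L) := by
  rw [Metric.tendsto_atTop]
  intro ε hε
  have h1 : ∀ᶠ n in atTop, |(a (n + 1) - a n) / (b (n + 1) - b n) - L| < ε / 2 := by
    have h2 := (Metric.tendsto_nhds.1 h) (ε / 2) (by linarith)
    filter_upwards [h2] with n hn
    rwa [Real.dist_eq] at hn
  obtain ⟨N, hN⟩ := eventually_atTop.1 (h1.and hb)
  have key : ∀ n, N ≤ n → |a n - a N - L * (b n - b N)| ≤ ε / 2 * (b n - b N) := by
    intro n hn
    induction n, hn using Nat.le_induction with
    | base => simp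
    | succ n hn ih =>
      obtain ⟨h3, h4⟩ := hN n hn
      have h5 : 0 < b (n + 1) - b n := by linarith
      have h6 : |a (n + 1) - a n - L * (b (n + 1) - b n)| ≤ ε / 2 * (b (n + 1) - b n) := by
        have e1 : a (n + 1) - a n - L * (b (n + 1) - b n)
            = ((a (n + 1) - a n) / (b (n + 1) - b n) - L) * (b (n + 1) - b n) := by
          field_simp
        rw [e1, abs_mul, abs_of_pos h5]
        exact mul_le_mul_of_nonneg_right h3.le h5.le
      have e2 : a (n + 1) - a N - L * (b (n + 1) - b N)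
          = (a n - a N - L * (b n - b N)) + (a (n + 1) - a n - L * (b (n + 1) - b n)) := by ring
      rw [e2]
      refine (abs_add_le _ _).trans ?_
      linarith
  set K : ℝ := |a N - L * b N| + ε / 2 * |b N| with hK
  have hK0 : 0 ≤ K := by positivity
  obtain ⟨M, hM⟩ := eventually_atTop.1 (hb'.eventually_gt_atTop (2 * K / ε))
  refine ⟨max N M, fun n hn => ?_⟩
  have hnN : N ≤ n := (le_max_left _ _).trans hn
  have hnM := hM n ((le_max_right _ _).trans hn)
  have hbn : 0 < b n := lt_of_le_of_lt (by positivity) hnM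
  have h7 : K < ε / 2 * b n := by
    rw [div_lt_iff₀ hε] at hnM
    linarith
  rw [Real.dist_eq]
  have e3 : a n / b n - L = (a n - L * b n) / b n := by
    field_simp
  rw [e3, abs_div, abs_of_pos hbn, div_lt_iff₀ hbn]
  have e4 : a n - L * b n = (a n - a N - L * (b n - b N)) + (a N - L * b N) := by ring
  have h8 := key n hnN
  have h9 : |a n - L * b n| ≤ ε / 2 * (b n - b N) + |a N - L * b N| := by
    rw [e4]
    refine (abs_add_le _ _).trans ?_
    linarith
  have h10 : -(ε / 2 * b N) ≤ ε / 2 * |b N| := by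
    have h11 := neg_abs_le (b N)
    nlinarith
  linarith

end Pool.Agent.RSC
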