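import Pool.Agent.RSC.Asym
import Pool.Agent.RSC.Stolz
import Pool.Agent.RSC.Smooth

/-!
# RSC / SumA: from the blocks to all `z`

`CC k a z`: number of `b ∈ [1, z)` with all `2^i b - 1 ∈ RS a`. `CC ((j+1)^128) - CC (j^128) = cnt (j^128) (..)` for `j ≥ 1`.
By the hypothesis and `Fj_diff` (`128 ≠ 0`) the quotient of the differences of `CC k a (j^128)` and `Fj k j` tends to `Φ`; so
`CC k a (j^128) / Fj k j → Φ` (`stolz`, `Fj_lt`, `Fj_tendsto`).
For general `z` let `j = j(z)` be the largest `j` with `j^128 ≤ z` (`j → ∞` with `z`); `CC` is monotone, and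
`f z = z / (log z)^k` is increasing for large `z`, so
`CC(j^128)/Fj(j+1) ≤ CC(z)/f(z) ≤ CC((j+1)^128)/Fj(j)`; both sides tend to `Φ` by `Fj_ratio`.
(`f` increasing for `z > exp k`: derivative; or directly: for `j^128 ≤ z ≤ (j+1)^128`,
`j^128 / log((j+1)^128)^k ≤ z/(log z)^k ≤ (j+1)^128 / log(j^128)^k`, which is enough, because
`log((j+1)^128)/log(j^128) → 1` and `(j+1)^128/j^128 → 1`.)
-/

set_option linter.all false

namespace Pool.Agent.RSC

open Finset Filter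

open Classical in
/-- number of `b` in `[1, z)` with all `2^i b - 1`, `1 ≤ i ≤ k`, in `RS a` -/
noncomputable def CC (k : ℕ) (a : ℕ → ℕ) (z : ℕ) : ℕ :=
  ((Ico 1 z).filter (fun b => ∀ i ∈ Icc 1 k, 2 ^ i * b - 1 ∈ RS a)).card

theorem sumA_mono (k : ℕ) (a : ℕ → ℕ) {z z' : ℕ} (h : z ≤ z') : CC k a z ≤ CC k a z' := by
  classical
  unfold CC
  refine Finset.card_le_card fun b hb => ?_
  rw [Finset.mem_filter] at hb ⊢
  exact ⟨Finset.Ico_subset_Ico_right h hb.1, hb.2⟩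

theorem sumA_alg1 {C A B L : ℝ} (hA : A ≠ 0) (hB : B ≠ 0) (hL : L ≠ 0) :
    C / (B / L) * (A / B)⁻¹ = C * L / A := by
  field_simp

theorem sumA_alg2 {C A B L : ℝ} (hA : A ≠ 0) (hB : B ≠ 0) (hL : L ≠ 0) :
    C / (A / L) * (A / B) = C * L / B := by
  field_simp

theorem sumA_split (k : ℕ) (a : ℕ → ℕ) {z z' : ℕ} (h1 : 1 ≤ z) (h : z ≤ z') :
    CC k a z' = CC k a z + cnt k a z (z' - z) := by
  classical
  unfold CC cnt
  rw [Nat.add_sub_cancel' h, ← Finset.Ico_union_Ico_eq_Ico h1 h, Finset.filter_union,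
    Finset.card_union_of_disjoint]
  exact Finset.disjoint_filter_filter (Finset.Ico_disjoint_Ico_consecutive 1 z z')

theorem sumA_root : ∃ J : ℕ → ℕ, Tendsto J atTop atTop ∧
    ∀ z, 1 ≤ z → J z ^ 128 ≤ z ∧ z < (J z + 1) ^ 128 := by
  refine ⟨fun z => Nat.findGreatest (fun j => j ^ 128 ≤ z) z, ?_, ?_⟩
  · refine tendsto_atTop.2 fun j => ?_
    filter_upwards [eventually_ge_atTop (j ^ 128)] with z hz
    exact Nat.le_findGreatest ((Nat.le_self_pow (by norm_num) j).trans hz) hz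
  · intro z hz
    constructor
    · have h := Nat.findGreatest_spec (P := fun j => j ^ 128 ≤ z) (m := 1) (n := z) hz
        (by simpa using hz)
      exact h
    · by_contra hc
      rw [not_lt] at hc
      have h1 : Nat.findGreatest (fun j => j ^ 128 ≤ z) z + 1 ≤
          Nat.findGreatest (fun j => j ^ 128 ≤ z) z :=
        Nat.le_findGreatest ((Nat.le_self_pow (by norm_num) _).trans hc) hc
      omega

theorem sumA (k : ℕ) (a : ℕ → ℕ) {Φ : ℝ}
    (h : Tendsto (fun j : ℕ => (cnt k a (j ^ 128) ((j + 1) ^ 128 - j ^ 128) : ℝ) *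
      Real.log ((j : ℝ) ^ 128) ^ k / (j : ℝ) ^ 127) atTop (nhds (128 * Φ))) :
    Tendsto (fun z : ℕ => (CC k a z : ℝ) * Real.log z ^ k / z) atTop (nhds Φ) := by
  -- Stolz
  have hdiv := h.div (Fj_diff k) (by norm_num : (128 : ℝ) ≠ 0)
  have e128 : 128 * Φ / 128 = Φ := by ring
  rw [e128] at hdiv
  have hq : Tendsto (fun j : ℕ => (((CC k a ((j + 1) ^ 128) : ℕ) : ℝ) -
      ((CC k a (j ^ 128) : ℕ) : ℝ)) / (Fj k (j + 1) - Fj k j)) atTop (nhds Φ) := by
    refine hdiv.congr' ?_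
    filter_upwards [eventually_ge_atTop 2, Fj_lt k] with j hj hlt
    have hj2 : (2 : ℝ) ≤ j := by exact_mod_cast hj
    have hj1 : (1 : ℝ) < (j : ℝ) ^ 128 := one_lt_pow₀ (by linarith) (by norm_num)
    have hL : 0 < Real.log ((j : ℝ) ^ 128) := Real.log_pos hj1
    have hle : j ^ 128 ≤ (j + 1) ^ 128 := Nat.pow_le_pow_left (Nat.le_succ j) 128
    have h1 := sumA_split k a (z := j ^ 128) (z' := (j + 1) ^ 128)
      (Nat.one_le_pow _ _ (by omega)) hle
    have h2 : ((CC k a ((j + 1) ^ 128) : ℕ) : ℝ) - ((CC k a (j ^ 128) : ℕ) : ℝ) =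
        (cnt k a (j ^ 128) ((j + 1) ^ 128 - j ^ 128) : ℝ) := by
      rw [h1]; push_cast; ring
    rw [h2]
    have hd : Fj k (j + 1) - Fj k j ≠ 0 := by linarith
    have hLk : Real.log ((j : ℝ) ^ 128) ^ k ≠ 0 := (pow_pos hL k).ne'
    have hj0 : (j : ℝ) ^ 127 ≠ 0 := by positivity
    show (_ : ℝ) / _ = _
    field_simp
  have hst := stolz (a := fun j => ((CC k a (j ^ 128) : ℕ) : ℝ)) (b := Fj k) (Fj_lt k)
    (Fj_tendsto k) hq
  obtain ⟨J, hJ, hJ'⟩ := sumA_root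
  have hr1 : Tendsto (fun j : ℕ => ((j : ℝ) / ((j : ℝ) + 1)) ^ 128) atTop (nhds 1) := by
    have := (tendsto_natCast_div_add_atTop (1 : ℝ)).pow 128
    rwa [one_pow] at this
  have hr2 : Tendsto (fun j : ℕ => (((j : ℝ) / ((j : ℝ) + 1)) ^ 128)⁻¹) atTop (nhds 1) := by
    have := hr1.inv₀ one_ne_zero
    rwa [inv_one] at this
  have hu : Tendsto (fun j : ℕ => ((CC k a (j ^ 128) : ℕ) : ℝ) / Fj k j *
      ((j : ℝ) / ((j : ℝ) + 1)) ^ 128) atTop (nhds Φ) := by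
    have := hst.mul hr1
    rwa [mul_one] at this
  have hv : Tendsto (fun j : ℕ => ((CC k a ((j + 1) ^ 128) : ℕ) : ℝ) / Fj k (j + 1) *
      (((j : ℝ) / ((j : ℝ) + 1)) ^ 128)⁻¹) atTop (nhds Φ) := by
    have h1 : Tendsto (fun j : ℕ => ((CC k a ((j + 1) ^ 128) : ℕ) : ℝ) / Fj k (j + 1)) atTop
        (nhds Φ) := hst.comp (tendsto_add_atTop_nat 1)
    have := h1.mul hr2
    rwa [mul_one] at this
  refine tendsto_of_tendsto_of_tendsto_of_le_of_le' (hu.comp hJ) (hv.comp hJ) ?_ ?_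
  · filter_upwards [eventually_ge_atTop 1, hJ.eventually (eventually_ge_atTop 2)] with z hz hj
    obtain ⟨hle, hlt⟩ := hJ' z hz
    show ((CC k a (J z ^ 128) : ℕ) : ℝ) / Fj k (J z) * ((J z : ℝ) / ((J z : ℝ) + 1)) ^ 128 ≤ _
    generalize J z = j at *
    have hj2 : (2 : ℝ) ≤ j := by exact_mod_cast hj
    have hj1 : (1 : ℝ) < (j : ℝ) ^ 128 := one_lt_pow₀ (by linarith) (by norm_num)
    have hL : 0 < Real.log ((j : ℝ) ^ 128) := Real.log_pos hj1
    have hLk : 0 < Real.log ((j : ℝ) ^ 128) ^ k := pow_pos hL k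
    have hz0 : (0 : ℝ) < z := by exact_mod_cast hz
    have hzj : (j : ℝ) ^ 128 ≤ z := by exact_mod_cast hle
    have hzj' : (z : ℝ) ≤ ((j : ℝ) + 1) ^ 128 := by exact_mod_cast hlt.le
    have e : ((CC k a (j ^ 128) : ℕ) : ℝ) / Fj k j * ((j : ℝ) / ((j : ℝ) + 1)) ^ 128 =
        ((CC k a (j ^ 128) : ℕ) : ℝ) * Real.log ((j : ℝ) ^ 128) ^ k / ((j : ℝ) + 1) ^ 128 := by
      unfold Fj
      rw [div_pow]
      exact sumA_alg2 (by positivity) (by positivity) hLk.ne'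
    rw [e]
    have hm : ((CC k a (j ^ 128) : ℕ) : ℝ) ≤ ((CC k a z : ℕ) : ℝ) := by
      exact_mod_cast sumA_mono k a hle
    have hlog : Real.log ((j : ℝ) ^ 128) ^ k ≤ Real.log z ^ k :=
      pow_le_pow_left₀ hL.le (Real.log_le_log (by linarith) hzj) k
    calc ((CC k a (j ^ 128) : ℕ) : ℝ) * Real.log ((j : ℝ) ^ 128) ^ k / ((j : ℝ) + 1) ^ 128
        ≤ ((CC k a z : ℕ) : ℝ) * Real.log z ^ k / ((j : ℝ) + 1) ^ 128 :=
          div_le_div_of_nonneg_right (mul_le_mul hm hlog hLk.le (Nat.cast_nonneg _))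
            (by positivity)
      _ ≤ ((CC k a z : ℕ) : ℝ) * Real.log z ^ k / z :=
          div_le_div_of_nonneg_left
            (mul_nonneg (Nat.cast_nonneg _) (hLk.le.trans hlog)) hz0 hzj'
  · filter_upwards [eventually_ge_atTop 1, hJ.eventually (eventually_ge_atTop 2)] with z hz hj
    obtain ⟨hle, hlt⟩ := hJ' z hz
    show _ ≤ ((CC k a ((J z + 1) ^ 128) : ℕ) : ℝ) / Fj k (J z + 1) *
      (((J z : ℝ) / ((J z : ℝ) + 1)) ^ 128)⁻¹
    generalize J z = j at *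
    have hj2 : (2 : ℝ) ≤ j := by exact_mod_cast hj
    have hj1 : (1 : ℝ) < (j : ℝ) ^ 128 := one_lt_pow₀ (by linarith) (by norm_num)
    have hz0 : (0 : ℝ) < z := by exact_mod_cast hz
    have hzj : (j : ℝ) ^ 128 ≤ z := by exact_mod_cast hle
    have hz1 : (1 : ℝ) < z := lt_of_lt_of_le hj1 hzj
    have hLz : 0 < Real.log z := Real.log_pos hz1
    have hzj' : (z : ℝ) ≤ ((j : ℝ) + 1) ^ 128 := by exact_mod_cast hlt.le
    have hL1 : 0 < Real.log (((j : ℝ) + 1) ^ 128) :=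
      Real.log_pos (lt_of_lt_of_le hz1 hzj')
    have hLk : 0 < Real.log (((j : ℝ) + 1) ^ 128) ^ k := pow_pos hL1 k
    have e : ((CC k a ((j + 1) ^ 128) : ℕ) : ℝ) / Fj k (j + 1) *
        (((j : ℝ) / ((j : ℝ) + 1)) ^ 128)⁻¹ =
        ((CC k a ((j + 1) ^ 128) : ℕ) : ℝ) * Real.log (((j : ℝ) + 1) ^ 128) ^ k /
          (j : ℝ) ^ 128 := by
      unfold Fj
      rw [div_pow]
      rw [Nat.cast_add, Nat.cast_one]
      exact sumA_alg1 (by positivity) (by positivity) hLk.ne'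
    rw [e]
    have hm : ((CC k a z : ℕ) : ℝ) ≤ ((CC k a ((j + 1) ^ 128) : ℕ) : ℝ) := by
      exact_mod_cast sumA_mono k a hlt.le
    have hlog : Real.log z ^ k ≤ Real.log (((j : ℝ) + 1) ^ 128) ^ k :=
      pow_le_pow_left₀ hLz.le (Real.log_le_log hz0 hzj') k
    calc ((CC k a z : ℕ) : ℝ) * Real.log z ^ k / z
        ≤ ((CC k a ((j + 1) ^ 128) : ℕ) : ℝ) * Real.log (((j : ℝ) + 1) ^ 128) ^ k / z :=
          div_le_div_of_nonneg_right (mul_le_mul hm hlog (pow_pos hLz k).le (Nat.cast_nonneg _))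
            hz0.le
      _ ≤ _ := div_le_div_of_nonneg_left (mul_nonneg (Nat.cast_nonneg _) hLk.le)
            (by positivity) hzj

end Pool.Agent.RSC
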