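import Pool.Agent.RSC.LocB
import Pool.Agent.RSC.PP

/-!
# RSC / Tail: the tail products

`tail_one`: by `loc_bounds` `√p |e1 k p b| ≤ C p^(-3/2)` if `p` does not divide `b`, and `≤ C p^(-1/2) ≤ C` if it does. So the product
is at most `∏_{p ∈ P} (1 + C p^(-3/2)) * (1 + C)^(number of primes dividing b)`; use `prod32`, `omega_le` with
`ε = 1/16`, `n = b`.

`tail_two`: the same with `Del k b b'` instead of `b`: `|Del k b b'| ≤ X^2 (2^k X)^(k^2)` (each factor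
`|2^i b - 2^j b'| ≤ max (2^i b, 2^j b') ≤ 2^k X`), `X ≥ 1`; use `omega_le` with `ε = 1 / (16 (2 + k^2))`,
`n = |Del k b b'|` (`Int.natAbs`): `n^ε ≤ (2^k)^(k^2 ε) X^(1/16)`.
-/

namespace Pool.Agent.RSC

open Finset

private theorem Tail_factor {C x : ℝ} (hC : 1 ≤ C) {p n : ℕ} (hp : p.Prime)
    (h1 : |x| ≤ C / p) (h2 : ¬ p ∣ n → |x| ≤ C / (p : ℝ) ^ 2) :
    1 + Real.sqrt p * |x| ≤ (1 + C * (p : ℝ) ^ (-(3 / 2) : ℝ)) * (if p ∣ n then 1 + C else 1) := by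
  have hp1 : (1 : ℝ) ≤ p := by exact_mod_cast hp.one_lt.le
  have hp0 : (0 : ℝ) < p := by linarith
  have hs : (0 : ℝ) ≤ Real.sqrt p := Real.sqrt_nonneg _
  have hr : (0 : ℝ) ≤ (p : ℝ) ^ (-(3 / 2) : ℝ) := Real.rpow_nonneg hp0.le _
  split_ifs with h
  · have hsp : Real.sqrt p ≤ p := by
      rw [Real.sqrt_le_left hp0.le]
      nlinarith
    have h3 : Real.sqrt p * |x| ≤ C := by
      calc Real.sqrt p * |x| ≤ p * (C / p) := mul_le_mul hsp h1 (abs_nonneg _) hp0.le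
        _ = C := by field_simp
    have h4 : 0 ≤ C * (p : ℝ) ^ (-(3 / 2) : ℝ) * (1 + C) := by positivity
    nlinarith
  · have h3 : Real.sqrt p * |x| ≤ C * (p : ℝ) ^ (-(3 / 2) : ℝ) := by
      calc Real.sqrt p * |x| ≤ Real.sqrt p * (C / (p : ℝ) ^ 2) :=
            mul_le_mul_of_nonneg_left (h2 h) hs
        _ = C * (p : ℝ) ^ (-(3 / 2) : ℝ) := by
            have e1 : (-(3 / 2) : ℝ) = 1 / 2 - 2 := by norm_num
            rw [e1, Real.rpow_sub hp0, Real.sqrt_eq_rpow]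
            have e2 : (p : ℝ) ^ (2 : ℝ) = (p : ℝ) ^ 2 := by
              rw [← Real.rpow_natCast]; norm_num
            rw [e2]
            ring
    linarith

private theorem Tail_prod {C : ℝ} (hC : 1 ≤ C) (P : Finset ℕ) (hP : ∀ p ∈ P, p.Prime) (f : ℕ → ℝ)
    (n : ℕ) (hn : n ≠ 0) (h1 : ∀ p ∈ P, |f p| ≤ C / p)
    (h2 : ∀ p ∈ P, ¬ p ∣ n → |f p| ≤ C / (p : ℝ) ^ 2) :
    ∏ p ∈ P, (1 + Real.sqrt p * |f p|) ≤
      (∏ p ∈ P, (1 + C * (p : ℝ) ^ (-(3 / 2) : ℝ))) * (1 + C) ^ n.primeFactors.card := by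
  have hA : ∏ p ∈ P, (1 + Real.sqrt p * |f p|) ≤
      ∏ p ∈ P, ((1 + C * (p : ℝ) ^ (-(3 / 2) : ℝ)) * (if p ∣ n then 1 + C else 1)) := by
    apply Finset.prod_le_prod
    · intro p _
      have : 0 ≤ Real.sqrt p * |f p| := by positivity
      linarith
    · intro p hp
      exact Tail_factor hC (hP p hp) (h1 p hp) (h2 p hp)
  refine hA.trans ?_
  rw [Finset.prod_mul_distrib]
  have hB : ∏ p ∈ P, (if p ∣ n then 1 + C else (1 : ℝ)) ≤ (1 + C) ^ n.primeFactors.card := by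
    rw [← Finset.prod_filter, Finset.prod_const]
    apply pow_le_pow_right₀ (by linarith)
    apply Finset.card_le_card
    intro p hp
    rw [Finset.mem_filter] at hp
    exact Nat.mem_primeFactors.2 ⟨hP p hp.1, hp.2, hn⟩
  have hD : 0 ≤ ∏ p ∈ P, (1 + C * (p : ℝ) ^ (-(3 / 2) : ℝ)) := by
    apply Finset.prod_nonneg
    intro p _
    have : 0 ≤ C * (p : ℝ) ^ (-(3 / 2) : ℝ) := by positivity
    linarith
  exact mul_le_mul_of_nonneg_left hB hD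

theorem tail_one (k : ℕ) (hk : 1 ≤ k) : ∃ C : ℝ, 1 ≤ C ∧
    ∀ P : Finset ℕ, (∀ p ∈ P, p.Prime ∧ p ≠ 2) → ∀ (X : ℝ) (b : ℕ), 1 ≤ b → (b : ℝ) ≤ X →
      ∏ p ∈ P, (1 + Real.sqrt p * |e1 k p b|) ≤ C * X ^ (1 / 16 : ℝ) := by
  obtain ⟨C, hC, hloc⟩ := loc_bounds k hk
  obtain ⟨C1, hC1, h32⟩ := prod32 (K := C) (by linarith)
  obtain ⟨C2, hC2, hom⟩ := omega_le (K := C) (ε := 1 / 16) (by linarith) (by norm_num)
  refine ⟨C1 * C2, by nlinarith, ?_⟩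
  intro P hP X b hb hbX
  have h := Tail_prod hC P (fun p hp => (hP p hp).1) (fun p => e1 k p b) b (by omega)
    (fun p hp => (hloc p (hP p hp).1 (hP p hp).2).1 b)
    (fun p hp hd => (hloc p (hP p hp).1 (hP p hp).2).2.2.1 b hd)
  refine h.trans ?_
  have h1 := h32 P (fun p hp => (hP p hp).1.one_lt.le)
  have h2 := hom b (by omega)
  have h3 : (b : ℝ) ^ (1 / 16 : ℝ) ≤ X ^ (1 / 16 : ℝ) :=
    Real.rpow_le_rpow (by positivity) hbX (by norm_num)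
  calc _ ≤ C1 * (C2 * (b : ℝ) ^ (1 / 16 : ℝ)) := by
        apply mul_le_mul h1 h2 _ (by linarith)
        apply pow_nonneg; linarith
    _ ≤ C1 * (C2 * X ^ (1 / 16 : ℝ)) := by
        apply mul_le_mul_of_nonneg_left _ (by linarith)
        exact mul_le_mul_of_nonneg_left h3 (by linarith)
    _ = C1 * C2 * X ^ (1 / 16 : ℝ) := by ring

private theorem Tail_Del {k b b' : ℕ} {X : ℝ} (hb : 1 ≤ b) (hbX : (b : ℝ) ≤ X)
    (hbX' : (b' : ℝ) ≤ X) :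
    (((Del k b b').natAbs : ℕ) : ℝ) ≤ ((2 : ℝ) ^ k) ^ (k ^ 2) * X ^ (2 + k ^ 2) := by
  have hX : (1 : ℝ) ≤ X := le_trans (by exact_mod_cast hb) hbX
  rw [Nat.cast_natAbs, Int.cast_abs, Del]
  push_cast
  rw [abs_mul, abs_mul, Finset.abs_prod]
  have hfac : ∀ i ∈ Icc 1 k, ∀ j ∈ Icc 1 k, |(2 : ℝ) ^ i * b - 2 ^ j * b'| ≤ 2 ^ k * X := by
    intro i hi j hj
    have hi' := (Finset.mem_Icc.1 hi).2
    have hj' := (Finset.mem_Icc.1 hj).2
    have e1 : (2 : ℝ) ^ i * b ≤ 2 ^ k * X :=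
      mul_le_mul (pow_le_pow_right₀ (by norm_num) hi') hbX (by positivity) (by positivity)
    have e2 : (2 : ℝ) ^ j * b' ≤ 2 ^ k * X :=
      mul_le_mul (pow_le_pow_right₀ (by norm_num) hj') hbX' (by positivity) (by positivity)
    have e3 : (0 : ℝ) ≤ (2 : ℝ) ^ i * b := by positivity
    have e4 : (0 : ℝ) ≤ (2 : ℝ) ^ j * b' := by positivity
    rw [abs_le]
    constructor <;> linarith
  have hin : ∀ i ∈ Icc 1 k, |∏ j ∈ Icc 1 k, ((2 : ℝ) ^ i * b - 2 ^ j * b')| ≤ (2 ^ k * X) ^ k := by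
    intro i hi
    rw [Finset.abs_prod]
    calc ∏ j ∈ Icc 1 k, |(2 : ℝ) ^ i * b - 2 ^ j * b'| ≤ ∏ j ∈ Icc 1 k, (2 ^ k * X) :=
          Finset.prod_le_prod (fun _ _ => abs_nonneg _) (fun j hj => hfac i hi j hj)
      _ = (2 ^ k * X) ^ k := by simp
  have hout : ∏ i ∈ Icc 1 k, |∏ j ∈ Icc 1 k, ((2 : ℝ) ^ i * b - 2 ^ j * b')| ≤
      ((2 ^ k * X) ^ k) ^ k := by
    calc _ ≤ ∏ i ∈ Icc 1 k, ((2 ^ k * X) ^ k : ℝ) :=
          Finset.prod_le_prod (fun _ _ => abs_nonneg _) hin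
      _ = _ := by simp
  have hbb : |(b : ℝ)| * |(b' : ℝ)| ≤ X * X := by
    rw [abs_of_nonneg (Nat.cast_nonneg b), abs_of_nonneg (Nat.cast_nonneg b')]
    exact mul_le_mul hbX hbX' (by positivity) (by linarith)
  calc _ ≤ (X * X) * ((2 ^ k * X) ^ k) ^ k :=
        mul_le_mul hbb hout (Finset.prod_nonneg fun _ _ => abs_nonneg _) (by positivity)
    _ = _ := by
        rw [← pow_mul, mul_pow, pow_add, ← pow_two k]
        ring

theorem tail_two (k : ℕ) (hk : 1 ≤ k) : ∃ C : ℝ, 1 ≤ C ∧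
    ∀ P : Finset ℕ, (∀ p ∈ P, p.Prime ∧ p ≠ 2) → ∀ (X : ℝ) (b b' : ℕ), 1 ≤ b → 1 ≤ b' →
      (b : ℝ) ≤ X → (b' : ℝ) ≤ X → Del k b b' ≠ 0 →
      ∏ p ∈ P, (1 + Real.sqrt p * |e2 k p b b'|) ≤ C * X ^ (1 / 16 : ℝ) := by
  obtain ⟨C, hC, hloc⟩ := loc_bounds k hk
  obtain ⟨C1, hC1, h32⟩ := prod32 (K := C) (by linarith)
  have hε : (0 : ℝ) < 1 / (16 * (2 + (k : ℝ) ^ 2)) := by positivity
  obtain ⟨C2, hC2, hom⟩ := omega_le (K := C) (ε := 1 / (16 * (2 + (k : ℝ) ^ 2))) (by linarith) hε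
  set ε : ℝ := 1 / (16 * (2 + (k : ℝ) ^ 2)) with hεdef
  have hD1 : (1 : ℝ) ≤ (((2 : ℝ) ^ k) ^ (k ^ 2)) ^ ε := by
    apply Real.one_le_rpow _ hε.le
    apply one_le_pow₀
    apply one_le_pow₀
    norm_num
  set D : ℝ := (((2 : ℝ) ^ k) ^ (k ^ 2)) ^ ε with hD
  refine ⟨C1 * (C2 * D), ?_, ?_⟩
  · have : 1 ≤ C2 * D := by nlinarith
    nlinarith
  intro P hP X b b' hb hb' hbX hbX' hDel
  have hX : (1 : ℝ) ≤ X := le_trans (by exact_mod_cast hb) hbX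
  have hn : (Del k b b').natAbs ≠ 0 := by simpa using hDel
  have h := Tail_prod hC P (fun p hp => (hP p hp).1) (fun p => e2 k p b b') (Del k b b').natAbs hn
    (fun p hp => (hloc p (hP p hp).1 (hP p hp).2).2.1 b b')
    (fun p hp hd => (hloc p (hP p hp).1 (hP p hp).2).2.2.2 b b' (fun hc => hd
      (Int.natCast_dvd.1 hc)))
  refine h.trans ?_
  have h1 := h32 P (fun p hp => (hP p hp).1.one_lt.le)
  have h2 := hom (Del k b b').natAbs hn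
  have h3 : (((Del k b b').natAbs : ℕ) : ℝ) ^ ε ≤ D * X ^ (1 / 16 : ℝ) := by
    calc (((Del k b b').natAbs : ℕ) : ℝ) ^ ε
        ≤ (((2 : ℝ) ^ k) ^ (k ^ 2) * X ^ (2 + k ^ 2)) ^ ε :=
          Real.rpow_le_rpow (by positivity) (Tail_Del hb hbX hbX') hε.le
      _ = D * (X ^ (2 + k ^ 2)) ^ ε := by
          rw [Real.mul_rpow (by positivity) (by positivity)]
      _ = D * X ^ (1 / 16 : ℝ) := by
          congr 1
          rw [← Real.rpow_natCast, ← Real.rpow_mul (by linarith)]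
          congr 1
          rw [hεdef]
          push_cast
          field_simp
  calc _ ≤ C1 * (C2 * (((Del k b b').natAbs : ℕ) : ℝ) ^ ε) := by
        apply mul_le_mul h1 h2 _ (by linarith)
        apply pow_nonneg; linarith
    _ ≤ C1 * (C2 * (D * X ^ (1 / 16 : ℝ))) := by
        apply mul_le_mul_of_nonneg_left _ (by linarith)
        exact mul_le_mul_of_nonneg_left h3 (by linarith)
    _ = C1 * (C2 * D) * X ^ (1 / 16 : ℝ) := by ring

end Pool.Agent.RSC
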