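import Pool.Agent.RSC.Tail
import Pool.Agent.RSC.Small
import Pool.Agent.RSC.Expd

/-!
# RSC / Var: the variance bound

`QQ` will be the second moment of `SS - l * GG`. Put `V = ∏_{p ∈ P} vv k p`, `0 < V ≤ 1`, `D = X^(1/4)`. Then
`U k p b b' = vv (1 + e2)`, `Ub = vv (1 + e1)`, so
`QQ = V * (∑_{b, b'} ∏ (1 + e2) - 2 l ∑_b ∏ (1 + e1) + l^2)`.
Write `∏ (1 + e2) = S2 b b' + R2 b b'` with `S2` the sum over `T` with `∏ T ≤ D`, the same for `e1` (`S1`, `R1`).
* `∑ S2 = l^2 + O(l D^2)`, `∑ S1 = l + O(D^2)` (`small_two`, `small_one`); the main terms cancel: `l^2 - 2 l * l + l^2 = 0`.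
  `D^2 = X^(1/2)`, `l ≤ X`, error `O(X^(3/2))`.
* `|R1 b| ≤ D^(-1/2) C X^(1/16) = C X^(-1/16)` (`expd_tail`, `tail_one`), total `2 l * l * C X^(-1/16) ≤ 2 C X^(31/16)`.
* `|R2 b b'| ≤ C X^(-1/16)` if `Del k b b' ≠ 0` (`expd_tail`, `tail_two`), total `l^2 C X^(-1/16)`.
* For the at most `k^2 l` pairs with `Del k b b' = 0` (`diag_card`): `V |R2| ≤ V ∏ (1 + e2) + V |S2| ≤ ∏ U + |S2| ≤ 1 + C D^2`
  (`small_abs`), total `O(X * X^(1/2))`.
-/

namespace Pool.Agent.RSC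

open Finset

/-- second moment of `SS - l * GG` -/
noncomputable def QQ (k : ℕ) (P : Finset ℕ) (M l : ℕ) : ℝ :=
  (∑ b ∈ Ico M (M + l), ∑ b' ∈ Ico M (M + l), ∏ p ∈ P, U k p b b') -
    2 * l * (∑ b ∈ Ico M (M + l), ∏ p ∈ P, Ub k p b) + (l : ℝ) ^ 2 * ∏ p ∈ P, vv k p

theorem var_U (k : ℕ) (P : Finset ℕ) (hP : ∀ p ∈ P, p.Prime ∧ p ≠ 2) (b b' : ℕ) :
    ∏ p ∈ P, U k p b b' = (∏ p ∈ P, vv k p) * ∏ p ∈ P, (1 + e2 k p b b') := by
  rw [← Finset.prod_mul_distrib]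
  refine Finset.prod_congr rfl fun p hp => ?_
  have h := vv_pos (hP p hp).1 (hP p hp).2 k
  unfold e2
  field_simp
  ring

theorem var_Ub (k : ℕ) (P : Finset ℕ) (hP : ∀ p ∈ P, p.Prime ∧ p ≠ 2) (b : ℕ) :
    ∏ p ∈ P, Ub k p b = (∏ p ∈ P, vv k p) * ∏ p ∈ P, (1 + e1 k p b) := by
  rw [← Finset.prod_mul_distrib]
  refine Finset.prod_congr rfl fun p hp => ?_
  have h := vv_pos (hP p hp).1 (hP p hp).2 k
  unfold e1
  field_simp
  ring

/-- the part of the expanded product over the small sets -/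
noncomputable def varS (P : Finset ℕ) (D : ℝ) (x : ℕ → ℝ) : ℝ :=
  ∑ T ∈ P.powerset.filter (fun T => ((∏ p ∈ T, p : ℕ) : ℝ) ≤ D), ∏ p ∈ T, x p

/-- algebraic decomposition -/
theorem var_dec (k : ℕ) (P : Finset ℕ) (hP : ∀ p ∈ P, p.Prime ∧ p ≠ 2) (M l : ℕ) (D : ℝ) :
    QQ k P M l = (∏ p ∈ P, vv k p) *
        ((∑ b ∈ Ico M (M + l), ∑ b' ∈ Ico M (M + l), varS P D (fun p => e2 k p b b')) - (l : ℝ) ^ 2)
      - 2 * l * ((∏ p ∈ P, vv k p) *
        ((∑ b ∈ Ico M (M + l), varS P D (fun p => e1 k p b)) - l))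
      + (∑ b ∈ Ico M (M + l), ∑ b' ∈ Ico M (M + l), (∏ p ∈ P, vv k p) *
          (∏ p ∈ P, (1 + e2 k p b b') - varS P D (fun p => e2 k p b b')))
      - 2 * l * (∑ b ∈ Ico M (M + l), (∏ p ∈ P, vv k p) *
          (∏ p ∈ P, (1 + e1 k p b) - varS P D (fun p => e1 k p b))) := by
  unfold QQ
  simp only [var_U k P hP, var_Ub k P hP, mul_sub, Finset.sum_sub_distrib, ← Finset.mul_sum]
  ring

theorem var_bound (k : ℕ) (hk : 1 ≤ k) : ∃ C : ℝ, 1 ≤ C ∧
    ∀ P : Finset ℕ, (∀ p ∈ P, p.Prime ∧ p ≠ 2) → ∀ (X : ℝ) (M l : ℕ), 1 ≤ M →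
      ((M + l : ℕ) : ℝ) ≤ X → QQ k P M l ≤ C * X ^ (31 / 16 : ℝ) := by
  obtain ⟨C1, hC1, h1⟩ := small_one k hk
  obtain ⟨C2, hC2, h2⟩ := small_two k hk
  obtain ⟨C3, hC3, h3⟩ := small_abs k hk
  obtain ⟨C4, hC4, h4⟩ := tail_one k hk
  obtain ⟨C5, hC5, h5⟩ := tail_two k hk
  set K : ℝ := C1 + C2 + C3 + C4 + C5 with hK
  have hK1 : 1 ≤ K := by linarith
  refine ⟨K * (6 + 2 * (k : ℝ) ^ 2), ?_, ?_⟩
  · nlinarith [sq_nonneg (k : ℝ)]
  intro P hP X M l hM hX
  have hM' : (1 : ℝ) ≤ M := by exact_mod_cast hM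
  have hX' : (M : ℝ) + l ≤ X := by exact_mod_cast hX
  have hl0 : (0 : ℝ) ≤ l := Nat.cast_nonneg l
  have hX1 : 1 ≤ X := by linarith
  have hlX : (l : ℝ) ≤ X := by linarith
  have hX0 : 0 < X := by linarith
  set D : ℝ := X ^ (1 / 4 : ℝ) with hD
  have hD1 : 1 ≤ D := Real.one_le_rpow hX1 (by norm_num)
  have hD0 : 0 < D := by linarith
  have hD2 : D ^ 2 = X ^ (1 / 2 : ℝ) := by
    rw [hD, ← Real.rpow_natCast, ← Real.rpow_mul hX0.le]
    norm_num
  have hDm : D ^ (-(1 / 2) : ℝ) * X ^ (1 / 16 : ℝ) = X ^ (-(1 / 16) : ℝ) := by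
    rw [hD, ← Real.rpow_mul hX0.le, ← Real.rpow_add hX0]
    norm_num
  have hD2pos : 0 < D ^ 2 := by positivity
  have hD21 : 1 ≤ D ^ 2 := one_le_pow₀ hD1
  set Y : ℝ := X ^ (31 / 16 : ℝ) with hY
  have hY1 : X * D ^ 2 ≤ Y := by
    rw [hD2, hY]
    calc X * X ^ (1 / 2 : ℝ) = X ^ (1 : ℝ) * X ^ (1 / 2 : ℝ) := by rw [Real.rpow_one]
      _ = X ^ (3 / 2 : ℝ) := by
        rw [← Real.rpow_add hX0]
        norm_num
      _ ≤ X ^ (31 / 16 : ℝ) := Real.rpow_le_rpow_of_exponent_le hX1 (by norm_num)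
  have hY2 : X * X * X ^ (-(1 / 16) : ℝ) = Y := by
    rw [hY]
    calc X * X * X ^ (-(1 / 16) : ℝ) = X ^ (1 : ℝ) * X ^ (1 : ℝ) * X ^ (-(1 / 16) : ℝ) := by
          rw [Real.rpow_one]
      _ = X ^ (31 / 16 : ℝ) := by
        rw [← Real.rpow_add hX0, ← Real.rpow_add hX0]
        norm_num
  have hZ0 : 0 < X ^ (-(1 / 16) : ℝ) := Real.rpow_pos_of_pos hX0 _
  set Z : ℝ := X ^ (-(1 / 16) : ℝ) with hZ
  set V : ℝ := ∏ p ∈ P, vv k p with hV
  have hV0 : 0 ≤ V := Finset.prod_nonneg fun p _ => vv_nonneg k p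
  have hV1 : V ≤ 1 := Finset.prod_le_one (fun p _ => vv_nonneg k p) fun p _ => vv_le_one k p
  -- first term
  have hA : V * ((∑ b ∈ Ico M (M + l), ∑ b' ∈ Ico M (M + l),
      varS P D (fun p => e2 k p b b')) - (l : ℝ) ^ 2) ≤ K * Y := by
    have h := h2 P hP D hD1 M l
    have h' : (∑ b ∈ Ico M (M + l), ∑ b' ∈ Ico M (M + l),
        varS P D (fun p => e2 k p b b')) - (l : ℝ) ^ 2 ≤ C2 * l * D ^ 2 := le_trans (le_abs_self _) h
    calc _ ≤ V * (C2 * l * D ^ 2) := mul_le_mul_of_nonneg_left h' hV0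
      _ ≤ 1 * (C2 * l * D ^ 2) := mul_le_mul_of_nonneg_right hV1 (by positivity)
      _ = C2 * (l * D ^ 2) := by ring
      _ ≤ K * (X * D ^ 2) := by
        apply mul_le_mul (by linarith) _ (by positivity) (by linarith)
        exact mul_le_mul_of_nonneg_right hlX hD2pos.le
      _ ≤ K * Y := mul_le_mul_of_nonneg_left hY1 (by linarith)
  -- second term
  have hB : -(2 * l * (V * ((∑ b ∈ Ico M (M + l), varS P D (fun p => e1 k p b)) - l))) ≤
      2 * K * Y := by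
    have h := h1 P hP D hD1 M l
    have h' : -((∑ b ∈ Ico M (M + l), varS P D (fun p => e1 k p b)) - l) ≤ C1 * D ^ 2 :=
      le_trans (neg_le_abs _) h
    calc _ = 2 * l * (V * (-((∑ b ∈ Ico M (M + l), varS P D (fun p => e1 k p b)) - l))) := by ring
      _ ≤ 2 * l * (V * (C1 * D ^ 2)) := by
        apply mul_le_mul_of_nonneg_left _ (by positivity)
        exact mul_le_mul_of_nonneg_left h' hV0
      _ ≤ 2 * l * (1 * (C1 * D ^ 2)) := by
        apply mul_le_mul_of_nonneg_left _ (by positivity)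
        exact mul_le_mul_of_nonneg_right hV1 (by positivity)
      _ = 2 * (C1 * (l * D ^ 2)) := by ring
      _ ≤ 2 * (K * (X * D ^ 2)) := by
        apply mul_le_mul_of_nonneg_left _ (by norm_num)
        apply mul_le_mul (by linarith) _ (by positivity) (by linarith)
        exact mul_le_mul_of_nonneg_right hlX hD2pos.le
      _ ≤ 2 * K * Y := by
        have := mul_le_mul_of_nonneg_left hY1 (by linarith : (0 : ℝ) ≤ K)
        linarith
  -- fourth term
  have hR1 : ∀ b ∈ Ico M (M + l), |∏ p ∈ P, (1 + e1 k p b) - varS P D (fun p => e1 k p b)| ≤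
      K * Z := by
    intro b hb
    rw [Finset.mem_Ico] at hb
    have hb1 : 1 ≤ b := le_trans hM hb.1
    have hbX : (b : ℝ) ≤ X := by
      have : (b : ℝ) ≤ ((M + l : ℕ) : ℝ) := by exact_mod_cast hb.2.le
      linarith
    have hx := expd_tail P (fun p => e1 k p b) hD0
    have ht := h4 P hP X b hb1 hbX
    calc _ ≤ D ^ (-(1 / 2) : ℝ) * ∏ p ∈ P, (1 + Real.sqrt p * |e1 k p b|) := hx
      _ ≤ D ^ (-(1 / 2) : ℝ) * (C4 * X ^ (1 / 16 : ℝ)) :=
        mul_le_mul_of_nonneg_left ht (Real.rpow_nonneg hD0.le _)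
      _ = C4 * (D ^ (-(1 / 2) : ℝ) * X ^ (1 / 16 : ℝ)) := by ring
      _ = C4 * Z := by rw [hDm]
      _ ≤ K * Z := mul_le_mul_of_nonneg_right (by linarith) hZ0.le
  have hE : -(2 * l * (∑ b ∈ Ico M (M + l), V *
      (∏ p ∈ P, (1 + e1 k p b) - varS P D (fun p => e1 k p b)))) ≤ 2 * K * Y := by
    have h' : -(∑ b ∈ Ico M (M + l), V *
        (∏ p ∈ P, (1 + e1 k p b) - varS P D (fun p => e1 k p b))) ≤ l * (K * Z) := by
      rw [← Finset.sum_neg_distrib]
      calc _ ≤ ∑ b ∈ Ico M (M + l), K * Z := by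
            refine Finset.sum_le_sum fun b hb => ?_
            have h := hR1 b hb
            calc -(V * (∏ p ∈ P, (1 + e1 k p b) - varS P D (fun p => e1 k p b))) =
                V * (-(∏ p ∈ P, (1 + e1 k p b) - varS P D (fun p => e1 k p b))) := by ring
              _ ≤ V * (K * Z) := mul_le_mul_of_nonneg_left (le_trans (neg_le_abs _) h) hV0
              _ ≤ 1 * (K * Z) := mul_le_mul_of_nonneg_right hV1 (by positivity)
              _ = K * Z := one_mul _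
        _ = l * (K * Z) := by simp
    calc _ = 2 * l * (-(∑ b ∈ Ico M (M + l), V *
        (∏ p ∈ P, (1 + e1 k p b) - varS P D (fun p => e1 k p b)))) := by ring
      _ ≤ 2 * l * (l * (K * Z)) := mul_le_mul_of_nonneg_left h' (by positivity)
      _ = 2 * K * (l * l * Z) := by ring
      _ ≤ 2 * K * (X * X * Z) := by
        apply mul_le_mul_of_nonneg_left _ (by positivity)
        apply mul_le_mul_of_nonneg_right _ hZ0.le
        exact mul_le_mul hlX hlX hl0 hX0.le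
      _ = 2 * K * Y := by rw [hY2]
  -- third term
  have hR2 : ∀ q ∈ Ico M (M + l) ×ˢ Ico M (M + l),
      V * (∏ p ∈ P, (1 + e2 k p q.1 q.2) - varS P D (fun p => e2 k p q.1 q.2)) ≤
      K * Z + if Del k q.1 q.2 = 0 then 1 + K * D ^ 2 else 0 := by
    intro q hq
    rw [Finset.mem_product, Finset.mem_Ico, Finset.mem_Ico] at hq
    obtain ⟨hb, hb'⟩ := hq
    by_cases hdel : Del k q.1 q.2 = 0
    · rw [if_pos hdel]
      have hs := h3 P hP D hD1 q.1 q.2
      have habs : |varS P D (fun p => e2 k p q.1 q.2)| ≤ K * D ^ 2 := by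
        calc _ ≤ ∑ T ∈ P.powerset.filter (fun T => ((∏ p ∈ T, p : ℕ) : ℝ) ≤ D),
              |∏ p ∈ T, e2 k p q.1 q.2| := Finset.abs_sum_le_sum_abs _ _
          _ = ∑ T ∈ P.powerset.filter (fun T => ((∏ p ∈ T, p : ℕ) : ℝ) ≤ D),
              ∏ p ∈ T, |e2 k p q.1 q.2| :=
            Finset.sum_congr rfl fun T _ => Finset.abs_prod _ _
          _ ≤ C3 * D ^ 2 := hs
          _ ≤ K * D ^ 2 := mul_le_mul_of_nonneg_right (by linarith) hD2pos.le
      have hU1 : V * ∏ p ∈ P, (1 + e2 k p q.1 q.2) ≤ 1 := by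
        rw [hV, ← var_U k P hP]
        exact Finset.prod_le_one (fun p _ => U_nonneg k p _ _) fun p _ => U_le_one k p _ _
      have hVS : -(V * varS P D (fun p => e2 k p q.1 q.2)) ≤ K * D ^ 2 := by
        calc -(V * varS P D (fun p => e2 k p q.1 q.2)) =
            V * (-varS P D (fun p => e2 k p q.1 q.2)) := by ring
          _ ≤ V * (K * D ^ 2) := mul_le_mul_of_nonneg_left (le_trans (neg_le_abs _) habs) hV0
          _ ≤ 1 * (K * D ^ 2) := mul_le_mul_of_nonneg_right hV1 (by positivity)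
          _ = K * D ^ 2 := one_mul _
      have hKZ : 0 ≤ K * Z := by positivity
      rw [mul_sub]
      linarith
    · rw [if_neg hdel, add_zero]
      have hb1 : 1 ≤ q.1 := le_trans hM hb.1
      have hb1' : 1 ≤ q.2 := le_trans hM hb'.1
      have hbX : (q.1 : ℝ) ≤ X := by
        have : (q.1 : ℝ) ≤ ((M + l : ℕ) : ℝ) := by exact_mod_cast hb.2.le
        linarith
      have hbX' : (q.2 : ℝ) ≤ X := by
        have : (q.2 : ℝ) ≤ ((M + l : ℕ) : ℝ) := by exact_mod_cast hb'.2.le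
        linarith
      have hx := expd_tail P (fun p => e2 k p q.1 q.2) hD0
      have ht := h5 P hP X q.1 q.2 hb1 hb1' hbX hbX' hdel
      have hfin : |∏ p ∈ P, (1 + e2 k p q.1 q.2) - varS P D (fun p => e2 k p q.1 q.2)| ≤ K * Z := by
        calc _ ≤ D ^ (-(1 / 2) : ℝ) * ∏ p ∈ P, (1 + Real.sqrt p * |e2 k p q.1 q.2|) := hx
          _ ≤ D ^ (-(1 / 2) : ℝ) * (C5 * X ^ (1 / 16 : ℝ)) :=
            mul_le_mul_of_nonneg_left ht (Real.rpow_nonneg hD0.le _)
          _ = C5 * (D ^ (-(1 / 2) : ℝ) * X ^ (1 / 16 : ℝ)) := by ring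
          _ = C5 * Z := by rw [hDm]
          _ ≤ K * Z := mul_le_mul_of_nonneg_right (by linarith) hZ0.le
      calc _ ≤ V * (K * Z) := mul_le_mul_of_nonneg_left (le_trans (le_abs_self _) hfin) hV0
        _ ≤ 1 * (K * Z) := mul_le_mul_of_nonneg_right hV1 (by positivity)
        _ = K * Z := one_mul _
  have hC : (∑ b ∈ Ico M (M + l), ∑ b' ∈ Ico M (M + l), V *
      (∏ p ∈ P, (1 + e2 k p b b') - varS P D (fun p => e2 k p b b'))) ≤
      (1 + 2 * (k : ℝ) ^ 2) * K * Y := by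
    rw [← Finset.sum_product' (f := fun b b' => V *
      (∏ p ∈ P, (1 + e2 k p b b') - varS P D (fun p => e2 k p b b')))]
    calc _ ≤ ∑ q ∈ Ico M (M + l) ×ˢ Ico M (M + l),
          (K * Z + if Del k q.1 q.2 = 0 then 1 + K * D ^ 2 else 0) := Finset.sum_le_sum hR2
      _ = (l : ℝ) * l * (K * Z) +
          (((Ico M (M + l) ×ˢ Ico M (M + l)).filter (fun q => Del k q.1 q.2 = 0)).card : ℝ) *
            (1 + K * D ^ 2) := by
        rw [Finset.sum_add_distrib, Finset.sum_const, ← Finset.sum_filter, Finset.sum_const,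
          Finset.card_product, Nat.card_Ico, nsmul_eq_mul, nsmul_eq_mul]
        simp
      _ ≤ X * X * (K * Z) + (k : ℝ) ^ 2 * X * (2 * K * D ^ 2) := by
        apply add_le_add
        · apply mul_le_mul_of_nonneg_right _ (by positivity)
          exact mul_le_mul hlX hlX hl0 hX0.le
        · have hcard : (((Ico M (M + l) ×ˢ Ico M (M + l)).filter
              (fun q => Del k q.1 q.2 = 0)).card : ℝ) ≤ (k : ℝ) ^ 2 * l := by
            exact_mod_cast diag_card k M l hM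
          apply mul_le_mul _ _ (by positivity) (by positivity)
          · exact le_trans hcard (mul_le_mul_of_nonneg_left hlX (by positivity))
          · nlinarith
      _ = K * (X * X * Z) + 2 * (k : ℝ) ^ 2 * K * (X * D ^ 2) := by ring
      _ ≤ K * Y + 2 * (k : ℝ) ^ 2 * K * Y := by
        rw [hY2]
        have := mul_le_mul_of_nonneg_left hY1 (by positivity : (0 : ℝ) ≤ 2 * (k : ℝ) ^ 2 * K)
        linarith
      _ = _ := by ring
  rw [var_dec k P hP M l D]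
  rw [← hV]
  nlinarith [hA, hB, hC, hE]

end Pool.Agent.RSC
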